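import Mathlib
import Pool.Agent.Helper87.VT.Defs

set_option autoImplicit false

open Set Metric Matrix
open scoped ContDiff ComplexConjugate

namespace Pool.Agent.Helper87.VT.P2







/-- entrywise derivative of a matrix valued map, as a function of the direction -/
def D2_MD (φ : ℂ → Matrix (Fin 2) (Fin 2) ℂ) (φ' : ℂ → Matrix (Fin 2) (Fin 2) ℂ) (t : ℂ) : Prop :=
  ∀ i j, DifferentiableAt ℝ (fun s => φ s i j) t ∧
    ∀ v, fderiv ℝ (fun s => φ s i j) t v = φ' v i j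

theorem D2_mul {φ ψ φ' ψ' : ℂ → Matrix (Fin 2) (Fin 2) ℂ} {t : ℂ} (hφ : D2_MD φ φ' t)
    (hψ : D2_MD ψ ψ' t) :
    D2_MD (fun s => φ s * ψ s) (fun v => φ' v * ψ t + φ t * ψ' v) t := by
  intro i j
  have h1 : (fun s => (φ s * ψ s) i j) = fun s => φ s i 0 * ψ s 0 j + φ s i 1 * ψ s 1 j := by
    funext s
    rw [Matrix.mul_apply, Fin.sum_univ_two]
  have hd : ∀ k, HasFDerivAt (fun s => φ s i k * ψ s k j)
      (φ t i k • fderiv ℝ (fun s => ψ s k j) t + ψ t k j • fderiv ℝ (fun s => φ s i k) t) t :=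
    fun k => (hφ i k).1.hasFDerivAt.mul (hψ k j).1.hasFDerivAt
  have h2 := (hd 0).add (hd 1)
  have h3 : HasFDerivAt (fun s => (φ s * ψ s) i j)
      (φ t i 0 • fderiv ℝ (fun s => ψ s 0 j) t + ψ t 0 j • fderiv ℝ (fun s => φ s i 0) t +
      (φ t i 1 • fderiv ℝ (fun s => ψ s 1 j) t + ψ t 1 j • fderiv ℝ (fun s => φ s i 1) t)) t := by
    rw [h1]
    exact h2
  refine ⟨h3.differentiableAt, fun v => ?_⟩
  beta_reduce
  rw [h3.fderiv, Matrix.add_apply, Matrix.mul_apply, Matrix.mul_apply, Fin.sum_univ_two,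
    Fin.sum_univ_two, ← (hφ i 0).2 v, ← (hφ i 1).2 v, ← (hψ 0 j).2 v, ← (hψ 1 j).2 v]
  simp only [ContinuousLinearMap.add_apply, ContinuousLinearMap.smul_apply, smul_eq_mul]
  ring

theorem D2_const (A : Matrix (Fin 2) (Fin 2) ℂ) (t : ℂ) : D2_MD (fun _ => A) (fun _ => 0) t := by
  intro i j
  refine ⟨differentiableAt_const _, fun v => ?_⟩
  simp

theorem D2_add {φ ψ φ' ψ' : ℂ → Matrix (Fin 2) (Fin 2) ℂ} {t : ℂ} (hφ : D2_MD φ φ' t)
    (hψ : D2_MD ψ ψ' t) :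
    D2_MD (fun s => φ s + ψ s) (fun v => φ' v + ψ' v) t := by
  intro i j
  have h3 : HasFDerivAt (fun s => (φ s + ψ s) i j)
      (fderiv ℝ (fun s => φ s i j) t + fderiv ℝ (fun s => ψ s i j) t) t :=
    (hφ i j).1.hasFDerivAt.add (hψ i j).1.hasFDerivAt
  refine ⟨h3.differentiableAt, fun v => ?_⟩
  beta_reduce
  rw [h3.fderiv, Matrix.add_apply, ← (hφ i j).2 v, ← (hψ i j).2 v]
  rfl

theorem D2_smul {φ φ' : ℂ → Matrix (Fin 2) (Fin 2) ℂ} {t : ℂ} (c : ℂ) (hφ : D2_MD φ φ' t) :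
    D2_MD (fun s => c • φ s) (fun v => c • φ' v) t := by
  intro i j
  have h3 : HasFDerivAt (fun s => (c • φ s) i j) (c • fderiv ℝ (fun s => φ s i j) t) t :=
    (hφ i j).1.hasFDerivAt.const_mul c
  refine ⟨h3.differentiableAt, fun v => ?_⟩
  beta_reduce
  rw [h3.fderiv, Matrix.smul_apply, ← (hφ i j).2 v]
  rfl

theorem D2_inv {φ φ' : ℂ → Matrix (Fin 2) (Fin 2) ℂ} {t : ℂ} (hφ : D2_MD φ φ' t)
    (hdet : (φ t).det ≠ 0) :
    D2_MD (fun s => (φ s)⁻¹) (fun v => -((φ t)⁻¹ * φ' v * (φ t)⁻¹)) t := by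
  have hdetd : DifferentiableAt ℝ (fun s => (φ s).det) t := by
    have h1 : (fun s => (φ s).det) = fun s => φ s 0 0 * φ s 1 1 - φ s 0 1 * φ s 1 0 := by
      funext s
      rw [Matrix.det_fin_two]
    rw [h1]
    exact ((hφ 0 0).1.mul (hφ 1 1).1).sub ((hφ 0 1).1.mul (hφ 1 0).1)
  have hinv : ∀ s i j, (φ s)⁻¹ i j = ((φ s).det)⁻¹ * (φ s).adjugate i j := by
    intro s i j
    rw [Matrix.inv_def, Matrix.smul_apply, Ring.inverse_eq_inv', smul_eq_mul]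
  have hadj : ∀ i j, DifferentiableAt ℝ (fun s => (φ s).adjugate i j) t := by
    intro i j
    have h1 : ∀ s, (φ s).adjugate = !![φ s 1 1, -φ s 0 1; -φ s 1 0, φ s 0 0] := fun s =>
      Matrix.adjugate_fin_two _
    simp only [h1]
    fin_cases i <;> fin_cases j
    · exact (hφ 1 1).1
    · exact (hφ 0 1).1.neg
    · exact (hφ 1 0).1.neg
    · exact (hφ 0 0).1
  have hd : ∀ i j, DifferentiableAt ℝ (fun s => (φ s)⁻¹ i j) t := by
    intro i j
    simp only [hinv]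
    exact (hdetd.inv hdet).mul (hadj i j)
  have hψ : D2_MD (fun s => (φ s)⁻¹)
      (fun v => Matrix.of fun i j => fderiv ℝ (fun s => (φ s)⁻¹ i j) t v) t :=
    fun i j => ⟨hd i j, fun v => rfl⟩
  have hprod := D2_mul hφ hψ
  have hne : ∀ᶠ s in nhds t, (φ s).det ≠ 0 := hdetd.continuousAt.eventually_ne hdet
  have hz : ∀ v, φ' v * (φ t)⁻¹ +
      φ t * (Matrix.of fun i j => fderiv ℝ (fun s => (φ s)⁻¹ i j) t v) = 0 := by
    intro v
    ext i j
    have hp := (hprod i j).2 v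
    beta_reduce at hp
    rw [← hp]
    have h1 : (fun s => (φ s * (φ s)⁻¹) i j) =ᶠ[nhds t]
        fun _ => (1 : Matrix (Fin 2) (Fin 2) ℂ) i j := by
      filter_upwards [hne] with s hs
      rw [Matrix.mul_nonsing_inv _ (isUnit_iff_ne_zero.mpr hs)]
    rw [h1.fderiv_eq]
    simp
  have hunit : IsUnit (φ t).det := isUnit_iff_ne_zero.mpr hdet
  have hval : ∀ v, (Matrix.of fun i j => fderiv ℝ (fun s => (φ s)⁻¹ i j) t v) =
      -((φ t)⁻¹ * φ' v * (φ t)⁻¹) := by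
    intro v
    have h2 := congrArg (fun A => (φ t)⁻¹ * A) (hz v)
    simp only [mul_add, mul_zero] at h2
    rw [← mul_assoc (φ t)⁻¹ (φ t), Matrix.nonsing_inv_mul _ hunit, one_mul] at h2
    rw [← mul_assoc] at h2
    exact eq_neg_of_add_eq_zero_right h2
  intro i j
  refine ⟨hd i j, fun v => ?_⟩
  beta_reduce
  rw [← hval v]
  rfl

/-- JOB D2: derivative of the Sym formula and of the normal. -/
theorem sym_formula {U : Set ℂ} (hU : IsOpen U) (φ χ : ℂ → Matrix (Fin 2) (Fin 2) ℂ)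
    (ν m0 m1 : ℂ → ℝ) (p q : ℂ → ℂ) (δ0 δ1 : ℂ → ℂ → ℂ)
    (hφd : ∀ t ∈ U, ∀ i j, DifferentiableAt ℝ (fun s => φ s i j) t)
    (hχd : ∀ t ∈ U, ∀ i j, DifferentiableAt ℝ (fun s => χ s i j) t)
    (hν0 : ∀ t ∈ U, 0 < ν t) (hm0 : ∀ t ∈ U, 0 < m0 t) (hm1 : ∀ t ∈ U, 0 < m1 t)
    (hφ : ∀ t ∈ U, ∀ v i j, fderiv ℝ (fun s => φ s i j) t v =
      (φ t * !![δ0 t v, v * p t - conj v * ((m1 t / m0 t : ℝ) : ℂ) * conj (q t);
        v * q t - conj v * ((m0 t / m1 t : ℝ) : ℂ) * conj (p t), δ1 t v]) i j)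
    (hχ : ∀ t ∈ U, ∀ v i j, fderiv ℝ (fun s => χ s i j) t v =
      (χ t * !![δ0 t v, v * p t - conj v * ((m1 t / m0 t : ℝ) : ℂ) * conj (q t);
        v * q t - conj v * ((m0 t / m1 t : ℝ) : ℂ) * conj (p t), δ1 t v]
       + φ t * !![0, - (conj v * ((m1 t / m0 t : ℝ) : ℂ) * conj (q t)); - (v * q t), 0]) i j)
    (hM : ∀ t ∈ U, (φ t)ᴴ * φ t = !![((ν t * m0 t : ℝ) : ℂ), 0; 0, ((ν t * m1 t : ℝ) : ℂ)]) :
    (∀ t ∈ U, ∀ i j, DifferentiableAt ℝ (fun s => symM (φ s) (χ s) i j) t) ∧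
    (∀ t ∈ U, ∀ i j, DifferentiableAt ℝ (fun s => norM (φ s) i j) t) ∧
    (∀ t ∈ U, ∀ v i j, fderiv ℝ (fun s => symM (φ s) (χ s) i j) t v =
      (φ t * !![0, -2 * (v * p t); -2 * (conj v * ((m0 t / m1 t : ℝ) : ℂ) * conj (p t)), 0]
        * (φ t)⁻¹) i j) ∧
    (∀ t ∈ U, ∀ v i j, fderiv ℝ (fun s => norM (φ s) i j) t v =
      (φ t * !![0, -2 * (v * p t - conj v * ((m1 t / m0 t : ℝ) : ℂ) * conj (q t));
        2 * (v * q t - conj v * ((m0 t / m1 t : ℝ) : ℂ) * conj (p t)), 0]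
        * (φ t)⁻¹) i j) ∧
    (∀ t ∈ U, (φ t)⁻¹ = !![conj (φ t 0 0) / ((ν t * m0 t : ℝ) : ℂ),
        conj (φ t 1 0) / ((ν t * m0 t : ℝ) : ℂ);
        conj (φ t 0 1) / ((ν t * m1 t : ℝ) : ℂ), conj (φ t 1 1) / ((ν t * m1 t : ℝ) : ℂ)]) := by
  have hdet : ∀ t ∈ U, (φ t).det ≠ 0 := by
    intro t ht h0
    have h1 := congrArg Matrix.det (hM t ht)
    rw [Matrix.det_mul, h0, mul_zero, Matrix.det_fin_two] at h1
    have h2 : (((ν t * m0 t : ℝ) : ℂ)) * ((ν t * m1 t : ℝ) : ℂ) ≠ 0 := by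
      have := hν0 t ht; have := hm0 t ht; have := hm1 t ht
      apply mul_ne_zero <;> · rw [Complex.ofReal_ne_zero]; positivity
    apply h2
    simpa using h1.symm
  have hMφ : ∀ t ∈ U, D2_MD φ (fun v => φ t * !![δ0 t v, v * p t - conj v * ((m1 t / m0 t : ℝ) : ℂ) * conj (q t);
        v * q t - conj v * ((m0 t / m1 t : ℝ) : ℂ) * conj (p t), δ1 t v]) t :=
    fun t ht i j => ⟨hφd t ht i j, fun v => hφ t ht v i j⟩
  have hMχ : ∀ t ∈ U, D2_MD χ (fun v => (χ t * !![δ0 t v, v * p t - conj v * ((m1 t / m0 t : ℝ) : ℂ) * conj (q t);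
        v * q t - conj v * ((m0 t / m1 t : ℝ) : ℂ) * conj (p t), δ1 t v]
       + φ t * !![0, - (conj v * ((m1 t / m0 t : ℝ) : ℂ) * conj (q t)); - (v * q t), 0])) t :=
    fun t ht i j => ⟨hχd t ht i j, fun v => hχ t ht v i j⟩
  have hinv := fun t ht => D2_inv (hMφ t ht) (hdet t ht)
  have hnor := fun t ht => D2_mul (D2_mul (hMφ t ht) (D2_const sg t)) (hinv t ht)
  have hsym := fun t ht => D2_add (D2_smul 2 (D2_mul (hMχ t ht) (hinv t ht))) (hnor t ht)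
  have hcomm : ∀ a b c d : ℂ, !![a, b; c, d] * sg - sg * !![a, b; c, d] = !![0, -2 * b; 2 * c, 0] := by
    intro a b c d
    unfold sg
    ext i j
    fin_cases i <;> fin_cases j <;> simp [Matrix.mul_apply, Fin.sum_univ_two] <;> ring
  have key : ∀ t ∈ U, ∀ B : Matrix (Fin 2) (Fin 2) ℂ,
      (φ t * B * sg + φ t * 0) * (φ t)⁻¹ + φ t * sg * -((φ t)⁻¹ * (φ t * B) * (φ t)⁻¹) =
        φ t * (B * sg - sg * B) * (φ t)⁻¹ := by
    intro t ht B
    have h1 : (φ t)⁻¹ * (φ t * B) = B := by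
      rw [← mul_assoc, Matrix.nonsing_inv_mul _ (isUnit_iff_ne_zero.mpr (hdet t ht)), one_mul]
    rw [h1]
    noncomm_ring
  have key2 : ∀ t ∈ U, ∀ B B' : Matrix (Fin 2) (Fin 2) ℂ,
      (χ t * B + φ t * B') * (φ t)⁻¹ + χ t * -((φ t)⁻¹ * (φ t * B) * (φ t)⁻¹) =
        φ t * B' * (φ t)⁻¹ := by
    intro t ht B B'
    have h1 : (φ t)⁻¹ * (φ t * B) = B := by
      rw [← mul_assoc, Matrix.nonsing_inv_mul _ (isUnit_iff_ne_zero.mpr (hdet t ht)), one_mul]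
    rw [h1]
    noncomm_ring
  refine ⟨fun t ht i j => (hsym t ht i j).1, fun t ht i j => (hnor t ht i j).1, ?_, ?_, ?_⟩
  · intro t ht v i j
    have h1 := (hsym t ht i j).2 v
    beta_reduce at h1
    have h2 : (fun s => symM (φ s) (χ s) i j) =
      (fun s => ((2 : ℂ) • (χ s * (φ s)⁻¹) + φ s * sg * (φ s)⁻¹) i j) := rfl
    rw [h2, h1, key2 t ht, key t ht, hcomm]
    have h3 : (2 : ℂ) • (φ t * !![0, - (conj v * ((m1 t / m0 t : ℝ) : ℂ) * conj (q t)); - (v * q t), 0]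
        * (φ t)⁻¹) = φ t * ((2 : ℂ) • !![0, - (conj v * ((m1 t / m0 t : ℝ) : ℂ) * conj (q t));
          - (v * q t), 0]) * (φ t)⁻¹ := by
      rw [Matrix.mul_smul, Matrix.smul_mul]
    have h4 : (2 : ℂ) • !![0, - (conj v * ((m1 t / m0 t : ℝ) : ℂ) * conj (q t)); - (v * q t), 0]
        + !![0, -2 * (v * p t - conj v * ((m1 t / m0 t : ℝ) : ℂ) * conj (q t));
          2 * (v * q t - conj v * ((m0 t / m1 t : ℝ) : ℂ) * conj (p t)), 0]
        = !![0, -2 * (v * p t); -2 * (conj v * ((m0 t / m1 t : ℝ) : ℂ) * conj (p t)), 0] := by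
      ext i j
      fin_cases i <;> fin_cases j <;> simp <;> ring
    rw [h3, ← add_mul, ← mul_add, h4]
  · intro t ht v i j
    have h1 := (hnor t ht i j).2 v
    beta_reduce at h1
    have h2 : (fun s => norM (φ s) i j) = (fun s => (φ s * sg * (φ s)⁻¹) i j) := rfl
    rw [h2, h1, key t ht, hcomm]
  · intro t ht
    apply Matrix.inv_eq_left_inv
    have h0 : ((ν t * m0 t : ℝ) : ℂ) ≠ 0 := by
      have := hν0 t ht; have := hm0 t ht
      rw [Complex.ofReal_ne_zero]; positivity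
    have h1 : ((ν t * m1 t : ℝ) : ℂ) ≠ 0 := by
      have := hν0 t ht; have := hm1 t ht
      rw [Complex.ofReal_ne_zero]; positivity
    have h2 : !![conj (φ t 0 0) / ((ν t * m0 t : ℝ) : ℂ), conj (φ t 1 0) / ((ν t * m0 t : ℝ) : ℂ);
        conj (φ t 0 1) / ((ν t * m1 t : ℝ) : ℂ), conj (φ t 1 1) / ((ν t * m1 t : ℝ) : ℂ)] =
        !![(((ν t * m0 t : ℝ) : ℂ))⁻¹, 0; 0, (((ν t * m1 t : ℝ) : ℂ))⁻¹] * (φ t)ᴴ := by
      ext i j
      fin_cases i <;> fin_cases j <;>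
        simp [Matrix.mul_apply, Fin.sum_univ_two, Matrix.conjTranspose_apply] <;> ring
    rw [h2, mul_assoc, hM t ht]
    ext i j
    fin_cases i <;> fin_cases j <;> simp [Matrix.mul_apply, Fin.sum_univ_two]
    · have := hν0 t ht; have := hm0 t ht
      have h3 : (ν t : ℂ) ≠ 0 := by rw [Complex.ofReal_ne_zero]; positivity
      have h4 : (m0 t : ℂ) ≠ 0 := by rw [Complex.ofReal_ne_zero]; positivity
      field_simp
    · have := hν0 t ht; have := hm1 t ht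
      have h3 : (ν t : ℂ) ≠ 0 := by rw [Complex.ofReal_ne_zero]; positivity
      have h4 : (m1 t : ℂ) ≠ 0 := by rw [Complex.ofReal_ne_zero]; positivity
      field_simp




theorem surf_deriv_nu_pos {ε η : ℝ} {κ h : ℂ → ℂ} (hε : 0 < ε) (hη : η ≤ 1 / 100)
    (kd : KData η κ h) {t : ℂ} (ht : ‖t‖ < 13 / 10) : 0 < nu κ ε t := by
  unfold nu
  have h1 := (kd.κ_close t (by linarith)).1
  have h2 : (99 / 100 : ℝ) ≤ ‖κ t‖ := by
    have h3 : ‖(1 : ℂ)‖ ≤ ‖κ t‖ + ‖κ t - 1‖ := by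
      have h4 : (1 : ℂ) = κ t - (κ t - 1) := by ring
      calc ‖(1 : ℂ)‖ = ‖κ t - (κ t - 1)‖ := by rw [← h4]
        _ ≤ ‖κ t‖ + ‖κ t - 1‖ := norm_sub_le _ _
    rw [norm_one] at h3
    linarith
  have h3 : 0 < ‖κ t‖ := by linarith
  positivity

theorem surf_deriv_inv {φ : Matrix (Fin 2) (Fin 2) ℂ} {a b : ℝ} (ha : 0 < a) (hb : 0 < b)
    (h : φᴴ * φ = !![(a : ℂ), 0; 0, (b : ℂ)]) :
    φ⁻¹ = !![conj (φ 0 0) / (a : ℂ), conj (φ 1 0) / (a : ℂ);
      conj (φ 0 1) / (b : ℂ), conj (φ 1 1) / (b : ℂ)] := by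
  have ha' : (a : ℂ) ≠ 0 := by exact_mod_cast ha.ne'
  have hb' : (b : ℂ) ≠ 0 := by exact_mod_cast hb.ne'
  have h00 := congrFun (congrFun h 0) 0
  have h01 := congrFun (congrFun h 0) 1
  have h10 := congrFun (congrFun h 1) 0
  have h11 := congrFun (congrFun h 1) 1
  simp only [Matrix.mul_apply, Fin.sum_univ_two, Matrix.conjTranspose_apply, Complex.star_def,
    Matrix.of_apply, Matrix.cons_val', Matrix.cons_val_zero, Matrix.cons_val_one,
    Matrix.cons_val_fin_one] at h00 h01 h10 h11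
  apply Matrix.inv_eq_left_inv
  ext i j
  fin_cases i <;> fin_cases j <;>
    simp only [Matrix.mul_apply, Fin.sum_univ_two, Matrix.of_apply, Matrix.cons_val',
      Matrix.cons_val_zero, Matrix.cons_val_one, Matrix.cons_val_fin_one, Matrix.one_apply,
      Fin.zero_eta, Fin.mk_one, Fin.isValue, if_true]
  · field_simp
    linear_combination h00
  · rw [if_neg (by decide)]
    field_simp
    linear_combination h01
  · rw [if_neg (by decide)]
    field_simp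
    linear_combination h10
  · field_simp
    linear_combination h11


theorem surf_deriv_kap_smooth {η : ℝ} {κ h : ℂ → ℂ} (kd : KData η κ h) :
    ContDiffOn ℝ ∞ κ (ball 0 (13 / 10)) := by
  have h1 : ContDiffOn ℂ ∞ κ (ball 0 (3 / 2)) :=
    kd.κ_hol.contDiffOn isOpen_ball
  exact (h1.restrict_scalars ℝ).mono (ball_subset_ball (by norm_num))

theorem surf_deriv_nu_smooth {η : ℝ} {κ h : ℂ → ℂ} (kd : KData η κ h) (ε : ℝ) :
    ContDiffOn ℝ ∞ (fun t : ℂ => nu κ ε t) (ball 0 (13 / 10)) := by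
  unfold nu
  apply ContDiffOn.add
  · apply ContDiffOn.mul
    · exact contDiffOn_const
    · exact (surf_deriv_kap_smooth kd).norm_sq ℝ
  · exact (contDiff_id.norm_sq ℝ).contDiffOn

theorem surf_deriv_conj_smooth {s : Set ℂ} {f : ℂ → ℂ} (hf : ContDiffOn ℝ ∞ f s) :
    ContDiffOn ℝ ∞ (fun q => conj (f q)) s :=
  Complex.conjCLE.contDiff.comp_contDiffOn hf

theorem surf_deriv_inv_smooth {s : Set ℂ} {f : ℂ → ℂ} {g : ℂ → ℝ}
    (hf : ContDiffOn ℝ ∞ f s) (hg : ContDiffOn ℝ ∞ g s) (h0 : ∀ q ∈ s, 0 < g q) :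
    ContDiffOn ℝ ∞ (fun q => f q / ((g q : ℝ) : ℂ)) s := by
  have h1 : ContDiffOn ℝ ∞ (fun q => ((g q : ℝ) : ℂ)) s :=
    Complex.ofRealCLM.contDiff.comp_contDiffOn hg
  have h2 : ContDiffOn ℝ ∞ (fun q => ((g q : ℝ) : ℂ)⁻¹) s := by
    apply h1.inv
    intro q hq
    exact_mod_cast (h0 q hq).ne'
  exact (hf.mul h2).congr (fun q _ => div_eq_mul_inv _ _)

theorem surf_deriv_conj_inv (A : Matrix (Fin 2) (Fin 2) ℂ) :
    (A.map conj)⁻¹ = (A⁻¹).map conj := by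
  have h1 : ∀ B : Matrix (Fin 2) (Fin 2) ℂ, B.map conj = (Bᵀ)ᴴ := by
    intro B
    ext i j
    simp [Matrix.conjTranspose_apply]
  rw [h1, h1, ← Matrix.conjTranspose_nonsing_inv, Matrix.transpose_nonsing_inv]

theorem surf_deriv_map_mul (A B : Matrix (Fin 2) (Fin 2) ℂ) :
    A.map conj * B.map conj = (A * B).map conj := by
  rw [Matrix.map_mul]

theorem surf_deriv_sym_conj (A B : Matrix (Fin 2) (Fin 2) ℂ) :
    symM (A.map conj) (B.map conj) = (symM A B).map conj := by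
  have hs : sg = sg.map conj := by
    ext i j
    fin_cases i <;> fin_cases j <;> simp [sg]
  unfold symM
  rw [surf_deriv_conj_inv]
  rw [surf_deriv_map_mul]
  conv_lhs => rw [hs]
  rw [surf_deriv_map_mul, surf_deriv_map_mul]
  ext i j
  show (2 : ℂ) * conj ((B * A⁻¹) i j) + conj ((A * sg * A⁻¹) i j) =
    conj ((2 : ℂ) * ((B * A⁻¹) i j) + (A * sg * A⁻¹) i j)
  rw [map_add, map_mul, map_ofNat]

theorem surf_deriv_sg_sq : sg * sg = 1 := by
  ext i j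
  fin_cases i <;> fin_cases j <;> simp [sg, Matrix.mul_apply, Fin.sum_univ_two]

theorem surf_deriv_sg_inv : sg⁻¹ = sg := Matrix.inv_eq_left_inv surf_deriv_sg_sq

theorem surf_deriv_sym_neg (A B : Matrix (Fin 2) (Fin 2) ℂ) :
    symM (sg * A * sg) (sg * B * sg) = sg * symM A B * sg := by
  unfold symM
  rw [Matrix.mul_inv_rev, Matrix.mul_inv_rev, surf_deriv_sg_inv]
  have e1 : sg * B * sg * (sg * (A⁻¹ * sg)) = sg * (B * A⁻¹) * sg := by
    calc sg * B * sg * (sg * (A⁻¹ * sg)) = sg * B * (sg * sg) * (A⁻¹ * sg) := by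
          simp only [Matrix.mul_assoc]
      _ = sg * (B * A⁻¹) * sg := by
          rw [surf_deriv_sg_sq]; simp only [Matrix.mul_assoc, Matrix.one_mul]
  have e2 : sg * A * sg * sg * (sg * (A⁻¹ * sg)) = sg * (A * sg * A⁻¹) * sg := by
    calc sg * A * sg * sg * (sg * (A⁻¹ * sg)) = sg * A * (sg * sg) * sg * (A⁻¹ * sg) := by
          simp only [Matrix.mul_assoc]
      _ = sg * (A * sg * A⁻¹) * sg := by
          rw [surf_deriv_sg_sq]; simp only [Matrix.mul_assoc, Matrix.one_mul]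
  rw [e1, e2]
  simp only [Matrix.mul_add, Matrix.add_mul, Matrix.mul_smul, Matrix.smul_mul]

theorem surf_deriv_sg00 (M : Matrix (Fin 2) (Fin 2) ℂ) : (sg * M * sg) 0 0 = M 0 0 := by
  rw [Matrix.mul_apply, Fin.sum_univ_two, Matrix.mul_apply, Matrix.mul_apply, Fin.sum_univ_two,
    Fin.sum_univ_two]
  simp [sg]


theorem surf_deriv_sg01 (M : Matrix (Fin 2) (Fin 2) ℂ) : (sg * M * sg) 0 1 = - M 0 1 := by
  rw [Matrix.mul_apply, Fin.sum_univ_two, Matrix.mul_apply, Matrix.mul_apply, Fin.sum_univ_two,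
    Fin.sum_univ_two]
  simp [sg]

theorem surf_deriv_diff {f : ℂ → ℂ} (hf : ContDiffOn ℝ ∞ f (ball 0 (13 / 10))) {t : ℂ}
    (h : ‖t‖ < 13 / 10) : DifferentiableAt ℝ f t :=
  (hf.contDiffAt (isOpen_ball.mem_nhds (by rwa [mem_ball_zero_iff]))).differentiableAt (by simp)

/-- JOB J1 (the only target): derivative formulas of surface and normal. -/
theorem surf_deriv {ε η : ℝ} {κ h : ℂ → ℂ} {φ χ : ℂ → Matrix (Fin 2) (Fin 2) ℂ}
    {m0 m1 : ℂ → ℝ} (hF : Frame ε η κ h φ χ m0 m1) :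
    (∀ t : ℂ, ‖t‖ < 13 / 10 → 0 < nu κ ε t ∧ 0 < m0 t ∧ 0 < m1 t) ∧
    (∀ i j, ContDiffOn ℝ ∞ (fun t => symM (φ t) (χ t) i j) (ball 0 (13 / 10))) ∧
    (∀ i j, ContDiffOn ℝ ∞ (fun t => norM (φ t) i j) (ball 0 (13 / 10))) ∧
    (∀ t : ℂ, ‖t‖ < 13 / 10 →
      (φ t)⁻¹ = !![conj (φ t 0 0) / ((nu κ ε t * m0 t : ℝ) : ℂ),
        conj (φ t 1 0) / ((nu κ ε t * m0 t : ℝ) : ℂ);
        conj (φ t 0 1) / ((nu κ ε t * m1 t : ℝ) : ℂ),
        conj (φ t 1 1) / ((nu κ ε t * m1 t : ℝ) : ℂ)]) ∧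
    (∀ t : ℂ, ‖t‖ < 13 / 10 → ∀ (v : ℂ) (i j : Fin 2),
      fderiv ℝ (fun s => symM (φ s) (χ s) i j) t v =
      (φ t * !![0, -2 * (v * pp κ ε t);
        -2 * (conj v * ((m0 t / m1 t : ℝ) : ℂ) * conj (pp κ ε t)), 0] * (φ t)⁻¹) i j) ∧
    (∀ t : ℂ, ‖t‖ < 13 / 10 → ∀ (v : ℂ) (i j : Fin 2),
      fderiv ℝ (fun s => norM (φ s) i j) t v =
      (φ t * !![0, -2 * (v * pp κ ε t - conj v * ((m1 t / m0 t : ℝ) : ℂ) * conj (qq κ h ε t));
        2 * (v * qq κ h ε t - conj v * ((m0 t / m1 t : ℝ) : ℂ) * conj (pp κ ε t)), 0]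
        * (φ t)⁻¹) i j) ∧
    (∀ t : ℂ, ‖t‖ < 13 / 10 → ∀ v : ℂ,
      fderiv ℝ (X01 φ χ) t v = -(2 / ((nu κ ε t * m1 t : ℝ) : ℂ)) *
        (v * pp κ ε t * φ t 0 0 * conj (φ t 1 1)
          + conj v * conj (pp κ ε t) * φ t 0 1 * conj (φ t 1 0))) ∧
    (∀ t : ℂ, ‖t‖ < 13 / 10 → ∀ v : ℂ,
      fderiv ℝ (X00 φ χ) t v = -(4 / (nu κ ε t * m1 t)) *
        (v * pp κ ε t * φ t 0 0 * conj (φ t 0 1)).re) ∧
    (∀ t : ℂ, ‖t‖ < 13 / 10 →
      X00 φ χ (conj t) = X00 φ χ t ∧ X00 φ χ (-t) = X00 φ χ t ∧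
      X01 φ χ (conj t) = conj (X01 φ χ t) ∧ X01 φ χ (-t) = - X01 φ χ t) := by
  have hεp := hF.ε_pos
  have hηp := hF.η_pos
  have hνpos : ∀ t : ℂ, ‖t‖ < 13 / 10 → 0 < nu κ ε t := fun t ht =>
    surf_deriv_nu_pos hF.ε_pos hF.η_le hF.kd ht
  have hηε : η * ε ≤ 1 / 200 := by
    have := hF.η_le
    have := hF.ε_le
    nlinarith
  have hm0pos : ∀ t : ℂ, ‖t‖ < 13 / 10 → 0 < m0 t := fun t ht => by
    have := (abs_le.1 (hF.bm0 t ht)).1
    linarith
  have hm1pos : ∀ t : ℂ, ‖t‖ < 13 / 10 → 0 < m1 t := fun t ht => by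
    have := (abs_le.1 (hF.bm1 t ht)).1
    linarith
  have hinv : ∀ t : ℂ, ‖t‖ < 13 / 10 →
      (φ t)⁻¹ = !![conj (φ t 0 0) / ((nu κ ε t * m0 t : ℝ) : ℂ),
        conj (φ t 1 0) / ((nu κ ε t * m0 t : ℝ) : ℂ);
        conj (φ t 0 1) / ((nu κ ε t * m1 t : ℝ) : ℂ),
        conj (φ t 1 1) / ((nu κ ε t * m1 t : ℝ) : ℂ)] := by
    intro t ht
    exact surf_deriv_inv (mul_pos (hνpos t ht) (hm0pos t ht))
      (mul_pos (hνpos t ht) (hm1pos t ht)) (hF.unit t ht)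
  have hinvsm : ∀ i j, ContDiffOn ℝ ∞ (fun t : ℂ => (φ t)⁻¹ i j) (ball 0 (13 / 10)) := by
    have g0 : ContDiffOn ℝ ∞ (fun t : ℂ => nu κ ε t * m0 t) (ball 0 (13 / 10)) :=
      (surf_deriv_nu_smooth hF.kd ε).mul hF.smm0
    have g1 : ContDiffOn ℝ ∞ (fun t : ℂ => nu κ ε t * m1 t) (ball 0 (13 / 10)) :=
      (surf_deriv_nu_smooth hF.kd ε).mul hF.smm1
    have p0 : ∀ t ∈ ball (0 : ℂ) (13 / 10), 0 < (fun t : ℂ => nu κ ε t * m0 t) t := fun t ht => by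
      rw [mem_ball_zero_iff] at ht
      exact mul_pos (hνpos t ht) (hm0pos t ht)
    have p1 : ∀ t ∈ ball (0 : ℂ) (13 / 10), 0 < (fun t : ℂ => nu κ ε t * m1 t) t := fun t ht => by
      rw [mem_ball_zero_iff] at ht
      exact mul_pos (hνpos t ht) (hm1pos t ht)
    intro i j
    fin_cases i <;> fin_cases j
    · refine (surf_deriv_inv_smooth (surf_deriv_conj_smooth (hF.smφ 0 0)) g0 p0).congr ?_
      intro t ht
      rw [mem_ball_zero_iff] at ht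
      show (φ t)⁻¹ 0 0 = _
      rw [hinv t ht]
      simp
    · refine (surf_deriv_inv_smooth (surf_deriv_conj_smooth (hF.smφ 1 0)) g0 p0).congr ?_
      intro t ht
      rw [mem_ball_zero_iff] at ht
      show (φ t)⁻¹ 0 1 = _
      rw [hinv t ht]
      simp
    · refine (surf_deriv_inv_smooth (surf_deriv_conj_smooth (hF.smφ 0 1)) g1 p1).congr ?_
      intro t ht
      rw [mem_ball_zero_iff] at ht
      show (φ t)⁻¹ 1 0 = _
      rw [hinv t ht]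
      simp
    · refine (surf_deriv_inv_smooth (surf_deriv_conj_smooth (hF.smφ 1 1)) g1 p1).congr ?_
      intro t ht
      rw [mem_ball_zero_iff] at ht
      show (φ t)⁻¹ 1 1 = _
      rw [hinv t ht]
      simp
  have hnorsm : ∀ i j, ContDiffOn ℝ ∞ (fun t : ℂ => norM (φ t) i j) (ball 0 (13 / 10)) := by
    intro i j
    have e1 : (fun t : ℂ => norM (φ t) i j) =
        fun t : ℂ => ∑ k, (∑ l, φ t i l * sg l k) * (φ t)⁻¹ k j := by
      funext t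
      simp only [norM, Matrix.mul_apply]
    rw [e1]
    apply ContDiffOn.sum
    intro k _
    apply ContDiffOn.mul _ (hinvsm k j)
    apply ContDiffOn.sum
    intro l _
    exact (hF.smφ i l).mul contDiffOn_const
  have hsymsm : ∀ i j, ContDiffOn ℝ ∞ (fun t : ℂ => symM (φ t) (χ t) i j)
      (ball 0 (13 / 10)) := by
    intro i j
    have e1 : (fun t : ℂ => symM (φ t) (χ t) i j) =
        fun t : ℂ => 2 * (∑ k, χ t i k * (φ t)⁻¹ k j) + norM (φ t) i j := by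
      funext t
      simp only [symM, norM, Matrix.add_apply, Matrix.smul_apply, smul_eq_mul]
      rw [Matrix.mul_apply (M := χ t)]
    rw [e1]
    apply ContDiffOn.add _ (hnorsm i j)
    apply contDiffOn_const.mul
    apply ContDiffOn.sum
    intro k _
    exact (hF.smχ i k).mul (hinvsm k j)
  have key : 
      (∀ t ∈ ball (0 : ℂ) (13 / 10), ∀ v i j, fderiv ℝ (fun s => symM (φ s) (χ s) i j) t v =
        (φ t * !![0, -2 * (v * pp κ ε t);
          -2 * (conj v * ((m0 t / m1 t : ℝ) : ℂ) * conj (pp κ ε t)), 0] * (φ t)⁻¹) i j) ∧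
      (∀ t ∈ ball (0 : ℂ) (13 / 10), ∀ v i j, fderiv ℝ (fun s => norM (φ s) i j) t v =
        (φ t * !![0, -2 * (v * pp κ ε t - conj v * ((m1 t / m0 t : ℝ) : ℂ) * conj (qq κ h ε t));
          2 * (v * qq κ h ε t - conj v * ((m0 t / m1 t : ℝ) : ℂ) * conj (pp κ ε t)), 0]
          * (φ t)⁻¹) i j) := by
    have hmem : ∀ t ∈ ball (0 : ℂ) (13 / 10), ‖t‖ < 13 / 10 := fun t ht => by
      rwa [mem_ball_zero_iff] at ht
    have hder : ∀ (t v : ℂ), ∃ δ : ℂ × ℂ, t ∈ ball (0 : ℂ) (13 / 10) →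
      (∀ i j, fderiv ℝ (fun s => φ s i j) t v =
      (φ t * !![δ.1, v * pp κ ε t - conj v * ((m1 t / m0 t : ℝ) : ℂ) * conj (qq κ h ε t);
        v * qq κ h ε t - conj v * ((m0 t / m1 t : ℝ) : ℂ) * conj (pp κ ε t), δ.2]) i j) ∧
      (∀ i j, fderiv ℝ (fun s => χ s i j) t v =
      (χ t * !![δ.1, v * pp κ ε t - conj v * ((m1 t / m0 t : ℝ) : ℂ) * conj (qq κ h ε t);
        v * qq κ h ε t - conj v * ((m0 t / m1 t : ℝ) : ℂ) * conj (pp κ ε t), δ.2]
       + φ t * !![0, - (conj v * ((m1 t / m0 t : ℝ) : ℂ) * conj (qq κ h ε t));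
          - (v * qq κ h ε t), 0]) i j) := by
      intro t v
      by_cases ht : t ∈ ball (0 : ℂ) (13 / 10)
      · obtain ⟨δ0, δ1, h1, h2⟩ := hF.deriv t (hmem t ht) v
        exact ⟨(δ0, δ1), fun _ => ⟨h1, h2⟩⟩
      · exact ⟨(0, 0), fun ht' => absurd ht' ht⟩
    choose δ hδ using hder
    have := sym_formula (U := ball (0 : ℂ) (13 / 10)) isOpen_ball φ χ (nu κ ε) m0 m1
      (pp κ ε) (qq κ h ε) (fun t v => (δ t v).1) (fun t v => (δ t v).2)
      (fun t ht i j => surf_deriv_diff (hF.smφ i j) (hmem t ht))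
      (fun t ht i j => surf_deriv_diff (hF.smχ i j) (hmem t ht))
      (fun t ht => hνpos t (hmem t ht)) (fun t ht => hm0pos t (hmem t ht))
      (fun t ht => hm1pos t (hmem t ht))
      (fun t ht v => (hδ t v ht).1) (fun t ht v => (hδ t v ht).2)
      (fun t ht => hF.unit t (hmem t ht))
    exact ⟨this.2.2.1, this.2.2.2.1⟩
  have hsymd : ∀ t : ℂ, ‖t‖ < 13 / 10 → ∀ (v : ℂ) (i j : Fin 2),
      fderiv ℝ (fun s => symM (φ s) (χ s) i j) t v =
      (φ t * !![0, -2 * (v * pp κ ε t);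
        -2 * (conj v * ((m0 t / m1 t : ℝ) : ℂ) * conj (pp κ ε t)), 0] * (φ t)⁻¹) i j := by
    intro t ht v i j
    exact key.1 t (by rw [mem_ball_zero_iff]; exact ht) v i j
  have hnord : ∀ t : ℂ, ‖t‖ < 13 / 10 → ∀ (v : ℂ) (i j : Fin 2),
      fderiv ℝ (fun s => norM (φ s) i j) t v =
      (φ t * !![0, -2 * (v * pp κ ε t - conj v * ((m1 t / m0 t : ℝ) : ℂ) * conj (qq κ h ε t));
        2 * (v * qq κ h ε t - conj v * ((m0 t / m1 t : ℝ) : ℂ) * conj (pp κ ε t)), 0]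
        * (φ t)⁻¹) i j := by
    intro t ht v i j
    exact key.2 t (by rw [mem_ball_zero_iff]; exact ht) v i j
  have hentry : ∀ (A B : Matrix (Fin 2) (Fin 2) ℂ) (a b : ℂ) (i j : Fin 2),
      (A * !![0, a; b, 0] * B) i j = A i 1 * b * B 0 j + A i 0 * a * B 1 j := by
    intro A B a b i j
    simp [Matrix.mul_apply, Fin.sum_univ_two]
  refine ⟨fun t ht => ⟨hνpos t ht, hm0pos t ht, hm1pos t ht⟩, hsymsm, hnorsm, hinv, hsymd, hnord,
    ?_, ?_, ?_⟩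
  · intro t ht v
    have h1 := hsymd t ht v 0 1
    have e0 : X01 φ χ = fun s => symM (φ s) (χ s) 0 1 := rfl
    rw [e0, h1, hentry, hinv t ht]
    have n1 : ((nu κ ε t : ℝ) : ℂ) ≠ 0 := by exact_mod_cast (hνpos t ht).ne'
    have n2 : ((m0 t : ℝ) : ℂ) ≠ 0 := by exact_mod_cast (hm0pos t ht).ne'
    have n3 : ((m1 t : ℝ) : ℂ) ≠ 0 := by exact_mod_cast (hm1pos t ht).ne'
    simp only [Matrix.of_apply, Matrix.cons_val', Matrix.cons_val_zero, Matrix.cons_val_one,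
      Matrix.cons_val_fin_one, Complex.ofReal_mul, Complex.ofReal_div]
    field_simp
    ring
  · intro t ht v
    have h1 := hsymd t ht v 0 0
    have hd : DifferentiableAt ℝ (fun s => symM (φ s) (χ s) 0 0) t :=
      surf_deriv_diff (hsymsm 0 0) ht
    have e0 : X00 φ χ = fun s => Complex.reCLM (symM (φ s) (χ s) 0 0) := rfl
    have h2 : fderiv ℝ (X00 φ χ) t v = (fderiv ℝ (fun s => symM (φ s) (χ s) 0 0) t v).re := by
      rw [e0]
      have h3 := (Complex.reCLM.hasFDerivAt.comp t hd.hasFDerivAt).fderiv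
      have h4 : fderiv ℝ (fun s => Complex.reCLM (symM (φ s) (χ s) 0 0)) t =
        Complex.reCLM.comp (fderiv ℝ (fun s => symM (φ s) (χ s) 0 0) t) := h3
      rw [h4]
      rfl
    rw [h2, h1, hentry, hinv t ht]
    have n1 : ((nu κ ε t : ℝ) : ℂ) ≠ 0 := by exact_mod_cast (hνpos t ht).ne'
    have n2 : ((m0 t : ℝ) : ℂ) ≠ 0 := by exact_mod_cast (hm0pos t ht).ne'
    have n3 : ((m1 t : ℝ) : ℂ) ≠ 0 := by exact_mod_cast (hm1pos t ht).ne'
    simp only [Matrix.of_apply, Matrix.cons_val', Matrix.cons_val_zero, Matrix.cons_val_one,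
      Matrix.cons_val_fin_one]
    set z : ℂ := v * pp κ ε t * φ t 0 0 * conj (φ t 0 1) with hz
    have e3 : φ t 0 1 * (-2 * (conj v * ((m0 t / m1 t : ℝ) : ℂ) * conj (pp κ ε t))) *
        (conj (φ t 0 0) / ((nu κ ε t * m0 t : ℝ) : ℂ)) +
        φ t 0 0 * (-2 * (v * pp κ ε t)) * (conj (φ t 0 1) / ((nu κ ε t * m1 t : ℝ) : ℂ)) =
        ((-(2 / (nu κ ε t * m1 t)) : ℝ) : ℂ) * (z + conj z) := by
      rw [hz]
      simp only [Complex.ofReal_mul, Complex.ofReal_div, Complex.ofReal_neg, Complex.ofReal_ofNat,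
        map_mul, Complex.conj_conj]
      field_simp
      ring
    rw [e3, Complex.re_ofReal_mul, Complex.add_re, Complex.conj_re]
    ring
  · intro t ht
    obtain ⟨s1, s2⟩ := hF.sneg t ht
    have c1 : φ (conj t) = (φ t).map conj := by
      ext i j
      exact (hF.sconj t ht i j).1
    have c2 : χ (conj t) = (χ t).map conj := by
      ext i j
      exact (hF.sconj t ht i j).2
    refine ⟨?_, ?_, ?_, ?_⟩
    · unfold X00
      rw [c1, c2, surf_deriv_sym_conj]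
      simp
    · unfold X00
      rw [s1, s2, surf_deriv_sym_neg, surf_deriv_sg00]
    · unfold X01
      rw [c1, c2, surf_deriv_sym_conj]
      rfl
    · unfold X01
      rw [s1, s2, surf_deriv_sym_neg, surf_deriv_sg01]


end Pool.Agent.Helper87.VT.P2
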