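import Mathlib
import Pool.Agent.Helper87.VT.Defs
import Pool.Agent.Helper676.VT.J1

set_option autoImplicit false

open Set Metric Matrix
open scoped ContDiff ComplexConjugate

namespace Pool.Agent.Helper87.VT.P2





theorem j17084_ent (Φ Ψ : Matrix (Fin 2) (Fin 2) ℂ) (a b : ℂ) (i j : Fin 2) :
    (Φ * !![0, a; b, 0] * Ψ) i j = Φ i 1 * b * Ψ 0 j + Φ i 0 * a * Ψ 1 j := by
  simp [Matrix.mul_apply, Fin.sum_univ_two]

theorem j17084_entn (Φ Ψ : Matrix (Fin 2) (Fin 2) ℂ) (i j : Fin 2) :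
    (Φ * sg * Ψ) i j = Φ i 0 * Ψ 0 j - Φ i 1 * Ψ 1 j := by
  simp [Matrix.mul_apply, Fin.sum_univ_two, sg]
  ring

theorem j17084_re (z : ℂ) (h : conj z = z) : z = ((z.re : ℝ) : ℂ) := (Complex.conj_eq_iff_re.mp h).symm

/-- algebra of the frame -/
theorem j17084_alg (Φ : Matrix (Fin 2) (Fin 2) ℂ) (D0 D1 : ℝ) (h0 : 0 < D0) (h1 : 0 < D1)
    (hu : Φᴴ * Φ = !![(D0 : ℂ), 0; 0, (D1 : ℂ)])
    (hi : Φ⁻¹ = !![conj (Φ 0 0) / (D0 : ℂ), conj (Φ 1 0) / (D0 : ℂ); conj (Φ 0 1) / (D1 : ℂ), conj (Φ 1 1) / (D1 : ℂ)])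
    (a b : ℂ) (hb : b * D1 = conj a * D0) :
    conj ((Φ * !![0, a; b, 0] * Φ⁻¹) 0 0) = (Φ * !![0, a; b, 0] * Φ⁻¹) 0 0 ∧
    (Φ * !![0, a; b, 0] * Φ⁻¹) 1 0 = conj ((Φ * !![0, a; b, 0] * Φ⁻¹) 0 1) ∧
    (Φ * !![0, a; b, 0] * Φ⁻¹) 1 1 = - (Φ * !![0, a; b, 0] * Φ⁻¹) 0 0 ∧
    conj ((Φ * sg * Φ⁻¹) 0 0) = (Φ * sg * Φ⁻¹) 0 0 ∧
    (Φ * sg * Φ⁻¹) 1 0 = conj ((Φ * sg * Φ⁻¹) 0 1) ∧
    (Φ * sg * Φ⁻¹) 1 1 = - (Φ * sg * Φ⁻¹) 0 0 ∧
    (Φ * sg * Φ⁻¹) 0 0 * (Φ * sg * Φ⁻¹) 0 0 + (Φ * sg * Φ⁻¹) 0 1 * (Φ * sg * Φ⁻¹) 1 0 = 1 ∧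
    (Φ * !![0, a; b, 0] * Φ⁻¹) 0 0 * (Φ * sg * Φ⁻¹) 0 0 + (Φ * !![0, a; b, 0] * Φ⁻¹) 0 1 * (Φ * sg * Φ⁻¹) 1 0 +
      ((Φ * !![0, a; b, 0] * Φ⁻¹) 1 0 * (Φ * sg * Φ⁻¹) 0 1 + (Φ * !![0, a; b, 0] * Φ⁻¹) 1 1 * (Φ * sg * Φ⁻¹) 1 1) = 0 ∧
    ((Φ * !![0, a; b, 0] * Φ⁻¹) 0 0 = 0 → (Φ * !![0, a; b, 0] * Φ⁻¹) 0 1 = 0 → a = 0) := by
  have hD0 : (D0 : ℂ) ≠ 0 := by exact_mod_cast h0.ne'
  have hD1 : (D1 : ℂ) ≠ 0 := by exact_mod_cast h1.ne'
  have hdet : IsUnit Φ.det := by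
    rw [isUnit_iff_ne_zero]
    intro hz
    have := congrArg Matrix.det hu
    rw [Matrix.det_mul, hz, mul_zero, Matrix.det_fin_two_of, mul_zero, sub_zero] at this
    exact (mul_ne_zero hD0 hD1) this.symm
  have hr : Φ * Φ⁻¹ = 1 := Matrix.mul_nonsing_inv Φ hdet
  have hl : Φ⁻¹ * Φ = 1 := Matrix.nonsing_inv_mul Φ hdet
  have e00 := congrFun (congrFun hu 0) 0
  have e01 := congrFun (congrFun hu 0) 1
  have e10 := congrFun (congrFun hu 1) 0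
  have e11 := congrFun (congrFun hu 1) 1
  simp only [Matrix.mul_apply, Fin.sum_univ_two, Matrix.conjTranspose_apply, Matrix.of_apply, Matrix.cons_val', Matrix.cons_val_zero,
    Matrix.cons_val_one, Matrix.cons_val_fin_one, RCLike.star_def] at e00 e01 e10 e11
  have i00 : Φ⁻¹ 0 0 = conj (Φ 0 0) / (D0 : ℂ) := by rw [hi]; simp
  have i01 : Φ⁻¹ 0 1 = conj (Φ 1 0) / (D0 : ℂ) := by rw [hi]; simp
  have i10 : Φ⁻¹ 1 0 = conj (Φ 0 1) / (D1 : ℂ) := by rw [hi]; simp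
  have i11 : Φ⁻¹ 1 1 = conj (Φ 1 1) / (D1 : ℂ) := by rw [hi]; simp
  have hb' : b = conj a * D0 / D1 := by rw [eq_div_iff hD1]; exact hb
  set M := Φ * !![0, a; b, 0] * Φ⁻¹ with hM
  set n := Φ * sg * Φ⁻¹ with hn
  have m00 : M 0 0 = (Φ 0 1 * conj a * conj (Φ 0 0) + Φ 0 0 * a * conj (Φ 0 1)) / D1 := by
    rw [hM, j17084_ent, i00, i10, hb']; field_simp
  have m01 : M 0 1 = (Φ 0 1 * conj a * conj (Φ 1 0) + Φ 0 0 * a * conj (Φ 1 1)) / D1 := by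
    rw [hM, j17084_ent, i01, i11, hb']; field_simp
  have m10 : M 1 0 = (Φ 1 1 * conj a * conj (Φ 0 0) + Φ 1 0 * a * conj (Φ 0 1)) / D1 := by
    rw [hM, j17084_ent, i00, i10, hb']; field_simp
  have m11 : M 1 1 = (Φ 1 1 * conj a * conj (Φ 1 0) + Φ 1 0 * a * conj (Φ 1 1)) / D1 := by
    rw [hM, j17084_ent, i01, i11, hb']; field_simp
  have n00 : n 0 0 = Φ 0 0 * conj (Φ 0 0) / D0 - Φ 0 1 * conj (Φ 0 1) / D1 := by
    rw [hn, j17084_entn, i00, i10]; ring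
  have n01 : n 0 1 = Φ 0 0 * conj (Φ 1 0) / D0 - Φ 0 1 * conj (Φ 1 1) / D1 := by
    rw [hn, j17084_entn, i01, i11]; ring
  have n10 : n 1 0 = Φ 1 0 * conj (Φ 0 0) / D0 - Φ 1 1 * conj (Φ 0 1) / D1 := by
    rw [hn, j17084_entn, i00, i10]; ring
  have n11 : n 1 1 = Φ 1 0 * conj (Φ 1 0) / D0 - Φ 1 1 * conj (Φ 1 1) / D1 := by
    rw [hn, j17084_entn, i01, i11]; ring
  have hss : sg * sg = 1 := by
    ext i j; fin_cases i <;> fin_cases j <;> simp [sg, Matrix.mul_apply, Fin.sum_univ_two]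
  have hnn : n * n = 1 := by
    rw [hn]
    calc Φ * sg * Φ⁻¹ * (Φ * sg * Φ⁻¹) = Φ * (sg * (Φ⁻¹ * Φ) * sg) * Φ⁻¹ := by simp only [Matrix.mul_assoc]
      _ = 1 := by rw [hl, Matrix.mul_one, hss, Matrix.mul_one, hr]
  have htr : Matrix.trace (M * n) = 0 := by
    have : M * n = Φ * (!![0, a; b, 0] * sg) * Φ⁻¹ := by
      rw [hM, hn]
      calc Φ * !![0, a; b, 0] * Φ⁻¹ * (Φ * sg * Φ⁻¹) = Φ * (!![0, a; b, 0] * (Φ⁻¹ * Φ) * sg) * Φ⁻¹ := by
            simp only [Matrix.mul_assoc]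
        _ = _ := by rw [hl, Matrix.mul_one]
    rw [this, Matrix.trace_mul_comm, ← Matrix.mul_assoc, hl, Matrix.one_mul]
    simp [Matrix.trace, Fin.sum_univ_two, Matrix.mul_apply, sg]
  refine ⟨?_, ?_, ?_, ?_, ?_, ?_, ?_, ?_, ?_⟩
  · rw [m00]; simp only [map_div₀, map_add, map_mul, Complex.conj_conj, Complex.conj_ofReal]; ring
  · rw [m10, m01]; simp only [map_div₀, map_add, map_mul, Complex.conj_conj, Complex.conj_ofReal]; ring
  · rw [m11, m00, ← neg_div]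
    congr 1
    linear_combination conj a * e01 + a * e10
  · rw [n00]; simp only [map_div₀, map_sub, map_mul, Complex.conj_conj, Complex.conj_ofReal]; ring
  · rw [n10, n01]; simp only [map_div₀, map_sub, map_mul, Complex.conj_conj, Complex.conj_ofReal]; ring
  · rw [n11, n00]
    have k1 : (Φ 0 0 * conj (Φ 0 0) + Φ 1 0 * conj (Φ 1 0)) / (D0 : ℂ) = 1 := by
      rw [div_eq_one_iff_eq hD0]; linear_combination e00
    have k2 : (Φ 0 1 * conj (Φ 0 1) + Φ 1 1 * conj (Φ 1 1)) / (D1 : ℂ) = 1 := by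
      rw [div_eq_one_iff_eq hD1]; linear_combination e11
    linear_combination k1 - k2
  · have := congrFun (congrFun hnn 0) 0
    simpa [Matrix.mul_apply, Fin.sum_univ_two] using this
  · have := htr
    simpa [Matrix.trace, Fin.sum_univ_two, Matrix.mul_apply] using this
  · intro z1 z2
    have z3 : M 1 0 = 0 := by
      have : M 1 0 = conj (M 0 1) := by
        rw [m10, m01]; simp only [map_div₀, map_add, map_mul, Complex.conj_conj, Complex.conj_ofReal]; ring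
      rw [this, z2, map_zero]
    have z4 : M 1 1 = 0 := by
      have : M 1 1 = - M 0 0 := by
        rw [m11, m00, ← neg_div]
        congr 1
        linear_combination conj a * e01 + a * e10
      rw [this, z1, neg_zero]
    have hM0 : M = 0 := by
      ext i j; fin_cases i <;> fin_cases j <;> simp_all
    have : !![0, a; b, 0] = Φ⁻¹ * M * Φ := by
      rw [hM]
      calc !![0, a; b, 0] = (Φ⁻¹ * Φ) * !![0, a; b, 0] * (Φ⁻¹ * Φ) := by rw [hl, Matrix.one_mul, Matrix.mul_one]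
        _ = _ := by simp only [Matrix.mul_assoc]
    rw [hM0, Matrix.mul_zero, Matrix.zero_mul] at this
    have := congrFun (congrFun this 0) 1
    simpa using this

/-- JOB J2 (the only target): the surface is an immersion with constant mean curvature. -/
theorem surf_geom {ε η : ℝ} {κ h : ℂ → ℂ} {φ χ : ℂ → Matrix (Fin 2) (Fin 2) ℂ}
    {m0 m1 : ℂ → ℝ} (hF : Frame ε η κ h φ χ m0 m1) :
    ContDiffOn ℝ ∞ (pos φ χ) (ball 0 (13 / 10)) ∧
    ContDiffOn ℝ ∞ (nor φ) (ball 0 (13 / 10)) ∧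
    ∀ t ∈ ball (0 : ℂ) (13 / 10),
      ‖nor φ t‖ = 1 ∧
      (∀ v : ℂ, inner ℝ (fderiv ℝ (pos φ χ) t v) (nor φ t) = 0) ∧
      (∀ v : ℂ, fderiv ℝ (pos φ χ) t v = 0 → v = 0) ∧
      ∃ S : ℂ →L[ℝ] ℂ, (∀ v : ℂ, fderiv ℝ (nor φ) t v = fderiv ℝ (pos φ χ) t (S v)) ∧
        LinearMap.trace ℝ ℂ (S : ℂ →ₗ[ℝ] ℂ) = 2 := by
  obtain ⟨hpos3, hs1, hs2, hinv, hdS, hdN, -, -, -⟩ := surf_deriv hF
  have cS : ∀ i j, ContDiffOn ℝ ∞ (fun t : ℂ => symM (φ t) (χ t) i j) (ball (0 : ℂ) (13 / 10)) :=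
    hs1
  have cN : ∀ i j, ContDiffOn ℝ ∞ (fun t : ℂ => norM (φ t) i j) (ball (0 : ℂ) (13 / 10)) := hs2
  have cre : ∀ f : ℂ → ℂ, ContDiffOn ℝ ∞ f (ball (0 : ℂ) (13 / 10)) →
      ContDiffOn ℝ ∞ (fun t => (f t).re) (ball (0 : ℂ) (13 / 10)) := fun f hf =>
    Complex.reCLM.contDiff.comp_contDiffOn hf
  have cim : ∀ f : ℂ → ℂ, ContDiffOn ℝ ∞ f (ball (0 : ℂ) (13 / 10)) →
      ContDiffOn ℝ ∞ (fun t => (f t).im) (ball (0 : ℂ) (13 / 10)) := fun f hf =>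
    Complex.imCLM.contDiff.comp_contDiffOn hf
  have cpos : ContDiffOn ℝ ∞ (pos φ χ) (ball 0 (13 / 10)) := by
    rw [contDiffOn_euclidean]
    intro i
    fin_cases i
    · exact cre _ (cS 0 1)
    · exact cim _ (cS 0 1)
    · exact cre _ (cS 0 0)
  have cnor : ContDiffOn ℝ ∞ (nor φ) (ball 0 (13 / 10)) := by
    rw [contDiffOn_euclidean]
    intro i
    fin_cases i
    · exact cre _ (cN 0 1)
    · exact cim _ (cN 0 1)
    · exact cre _ (cN 0 0)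
  refine ⟨cpos, cnor, fun t ht => ?_⟩
  have hball : ball (0 : ℂ) (13 / 10) ∈ nhds t := isOpen_ball.mem_nhds ht
  have dpos : DifferentiableAt ℝ (pos φ χ) t := (cpos.contDiffAt hball).differentiableAt (by simp)
  have dnor : DifferentiableAt ℝ (nor φ) t := (cnor.contDiffAt hball).differentiableAt (by simp)
  have dS : ∀ i j, DifferentiableAt ℝ (fun t : ℂ => symM (φ t) (χ t) i j) t := fun i j =>
    ((cS i j).contDiffAt hball).differentiableAt (by simp)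
  have dN : ∀ i j, DifferentiableAt ℝ (fun t : ℂ => norM (φ t) i j) t := fun i j =>
    ((cN i j).contDiffAt hball).differentiableAt (by simp)
  have comp : ∀ (f : ℂ → EuclideanSpace ℝ (Fin 3)), DifferentiableAt ℝ f t → ∀ (i : Fin 3) (v : ℂ),
      (fderiv ℝ f t v) i = fderiv ℝ (fun s => f s i) t v := by
    intro f hf i v
    have h1 := ((EuclideanSpace.proj i : EuclideanSpace ℝ (Fin 3) →L[ℝ] ℝ).hasFDerivAt.comp t hf.hasFDerivAt).fderiv
    have h2 : fderiv ℝ (fun s => f s i) t = (EuclideanSpace.proj i : EuclideanSpace ℝ (Fin 3) →L[ℝ] ℝ).comp (fderiv ℝ f t) := h1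
    rw [h2]; rfl
  have fre : ∀ (f : ℂ → ℂ), DifferentiableAt ℝ f t → ∀ v : ℂ, fderiv ℝ (fun s => (f s).re) t v = (fderiv ℝ f t v).re := by
    intro f hf v
    have h1 := (Complex.reCLM.hasFDerivAt.comp t hf.hasFDerivAt).fderiv
    have h2 : fderiv ℝ (fun s => (f s).re) t = Complex.reCLM.comp (fderiv ℝ f t) := h1
    rw [h2]; rfl
  have fim : ∀ (f : ℂ → ℂ), DifferentiableAt ℝ f t → ∀ v : ℂ, fderiv ℝ (fun s => (f s).im) t v = (fderiv ℝ f t v).im := by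
    intro f hf v
    have h1 := (Complex.imCLM.hasFDerivAt.comp t hf.hasFDerivAt).fderiv
    have h2 : fderiv ℝ (fun s => (f s).im) t = Complex.imCLM.comp (fderiv ℝ f t) := h1
    rw [h2]; rfl
  have htn : ‖t‖ < 13 / 10 := by simpa using ht
  set ν := nu κ ε t with hν
  obtain ⟨hνpos, hm0, hm1⟩ := hpos3 t htn
  rw [← hν] at hνpos
  have hrho : rho κ t ≠ 0 := by
    intro h0
    obtain ⟨k1, k2⟩ := hF.kd.κ_close t (by linarith)
    have hη := hF.η_le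
    have k3 : (1 : ℂ) = -(κ t - 1) + t * deriv κ t := by
      unfold rho at h0
      linear_combination h0
    have k4 : (1 : ℝ) ≤ ‖κ t - 1‖ + ‖t‖ * ‖deriv κ t‖ := by
      calc (1 : ℝ) = ‖(1 : ℂ)‖ := by simp
        _ = ‖-(κ t - 1) + t * deriv κ t‖ := by rw [← k3]
        _ ≤ ‖-(κ t - 1)‖ + ‖t * deriv κ t‖ := norm_add_le _ _
        _ = _ := by rw [norm_neg, norm_mul]
    have k5 : ‖t‖ * ‖deriv κ t‖ ≤ (13 / 10) * (1 / 100) :=
      mul_le_mul htn.le (k2.trans hη) (norm_nonneg _) (by norm_num)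
    linarith
  have hνC : (ν : ℂ) ≠ 0 := by exact_mod_cast hνpos.ne'
  have hεC : (ε : ℂ) ≠ 0 := by exact_mod_cast hF.ε_pos.ne'
  have hpp : pp κ ε t ≠ 0 := by
    unfold pp
    exact div_ne_zero (mul_ne_zero hεC hrho) hνC
  have hm0C : (m0 t : ℂ) ≠ 0 := by exact_mod_cast hm0.ne'
  have hm1C : (m1 t : ℂ) ≠ 0 := by exact_mod_cast hm1.ne'
  have alg := fun (a b : ℂ) (hb : b * ((ν * m1 t : ℝ) : ℂ) = conj a * ((ν * m0 t : ℝ) : ℂ)) =>
    j17084_alg (φ t) (ν * m0 t) (ν * m1 t) (by positivity) (by positivity) (hF.unit t htn) (hinv t htn) a b hb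
  -- the matrix of the derivative
  have hab : ∀ v : ℂ, (-2 * (conj v * ((m0 t / m1 t : ℝ) : ℂ) * conj (pp κ ε t))) * ((ν * m1 t : ℝ) : ℂ) =
      conj (-2 * (v * pp κ ε t)) * ((ν * m0 t : ℝ) : ℂ) := by
    intro v
    push_cast
    simp only [map_mul, map_neg, map_ofNat]
    field_simp
  have P01 : ∀ v, fderiv ℝ (X01 φ χ) t v = (φ t * !![0, -2 * (v * pp κ ε t);
        -2 * (conj v * ((m0 t / m1 t : ℝ) : ℂ) * conj (pp κ ε t)), 0] * (φ t)⁻¹) 0 1 := fun v => hdS t htn v 0 1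
  have P00 : ∀ v, fderiv ℝ (X00 φ χ) t v = ((φ t * !![0, -2 * (v * pp κ ε t);
        -2 * (conj v * ((m0 t / m1 t : ℝ) : ℂ) * conj (pp κ ε t)), 0] * (φ t)⁻¹) 0 0).re := fun v => by
    rw [← hdS t htn v 0 0]
    exact fre _ (dS 0 0) v
  have pc0 : ∀ v, (fderiv ℝ (pos φ χ) t v) 0 = (fderiv ℝ (X01 φ χ) t v).re := fun v => by
    rw [comp _ dpos]; exact fre _ (dS 0 1) v
  have pc1 : ∀ v, (fderiv ℝ (pos φ χ) t v) 1 = (fderiv ℝ (X01 φ χ) t v).im := fun v => by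
    rw [comp _ dpos]; exact fim _ (dS 0 1) v
  have pc2 : ∀ v, (fderiv ℝ (pos φ χ) t v) 2 = fderiv ℝ (X00 φ χ) t v := fun v => by
    rw [comp _ dpos]; rfl
  have N01 : ∀ v, fderiv ℝ (n01 φ) t v = (φ t * !![0, -2 * (v * pp κ ε t - conj v * ((m1 t / m0 t : ℝ) : ℂ) * conj (qq κ h ε t));
        2 * (v * qq κ h ε t - conj v * ((m0 t / m1 t : ℝ) : ℂ) * conj (pp κ ε t)), 0]
        * (φ t)⁻¹) 0 1 := fun v => hdN t htn v 0 1
  have N00 : ∀ v, fderiv ℝ (n00 φ) t v = ((φ t * !![0, -2 * (v * pp κ ε t - conj v * ((m1 t / m0 t : ℝ) : ℂ) * conj (qq κ h ε t));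
        2 * (v * qq κ h ε t - conj v * ((m0 t / m1 t : ℝ) : ℂ) * conj (pp κ ε t)), 0]
        * (φ t)⁻¹) 0 0).re := fun v => by
    rw [← hdN t htn v 0 0]
    exact fre _ (dN 0 0) v
  have nc0 : ∀ v, (fderiv ℝ (nor φ) t v) 0 = (fderiv ℝ (n01 φ) t v).re := fun v => by
    rw [comp _ dnor]; exact fre _ (dN 0 1) v
  have nc1 : ∀ v, (fderiv ℝ (nor φ) t v) 1 = (fderiv ℝ (n01 φ) t v).im := fun v => by
    rw [comp _ dnor]; exact fim _ (dN 0 1) v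
  have nc2 : ∀ v, (fderiv ℝ (nor φ) t v) 2 = fderiv ℝ (n00 φ) t v := fun v => by
    rw [comp _ dnor]; rfl
  have nn0 : nor φ t 0 = ((φ t * sg * (φ t)⁻¹) 0 1).re := rfl
  have nn1 : nor φ t 1 = ((φ t * sg * (φ t)⁻¹) 0 1).im := rfl
  have nn2 : nor φ t 2 = ((φ t * sg * (φ t)⁻¹) 0 0).re := rfl
  refine ⟨?_, ?_, ?_, ?_⟩
  · -- unit normal
    obtain ⟨-, -, -, g4, g5, -, g7, -, -⟩ := alg 0 0 (by simp)
    rw [g5] at g7
    rw [j17084_re _ g4, Complex.mul_conj] at g7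
    have g8 : ((φ t * sg * (φ t)⁻¹) 0 0).re * ((φ t * sg * (φ t)⁻¹) 0 0).re +
        Complex.normSq ((φ t * sg * (φ t)⁻¹) 0 1) = 1 := by exact_mod_cast g7
    rw [EuclideanSpace.norm_eq, Fin.sum_univ_three, nn0, nn1, nn2]
    rw [Complex.normSq_apply] at g8
    rw [Real.sqrt_eq_one]
    simp only [Real.norm_eq_abs, sq_abs]
    linarith
  · -- orthogonality
    intro v
    obtain ⟨g1, g2, g3, g4, g5, g6, -, g8, -⟩ := alg _ _ (hab v)
    rw [PiLp.inner_apply, Fin.sum_univ_three, pc0, pc1, pc2, P01, P00, nn0, nn1, nn2]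
    set M := φ t * !![0, -2 * (v * pp κ ε t);
        -2 * (conj v * ((m0 t / m1 t : ℝ) : ℂ) * conj (pp κ ε t)), 0] * (φ t)⁻¹ with hM
    set n := φ t * sg * (φ t)⁻¹ with hn
    rw [g2, g3, g5, g6] at g8
    have g9 := congrArg Complex.re g8
    rw [j17084_re _ g1, j17084_re _ g4] at g9
    simp only [Complex.add_re, Complex.mul_re, Complex.neg_re, Complex.neg_im, Complex.ofReal_re, Complex.ofReal_im,
      Complex.conj_re, Complex.conj_im, Complex.zero_re] at g9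
    simp only [RCLike.inner_apply, conj_trivial]
    nlinarith
  · -- immersion
    intro v hv
    obtain ⟨g1, g2, g3, g4, g5, g6, -, -, g9⟩ := alg _ _ (hab v)
    have q0 : (fderiv ℝ (pos φ χ) t v) 0 = 0 := by rw [hv]; rfl
    have q1 : (fderiv ℝ (pos φ χ) t v) 1 = 0 := by rw [hv]; rfl
    have q2 : (fderiv ℝ (pos φ χ) t v) 2 = 0 := by rw [hv]; rfl
    rw [pc0, P01] at q0
    rw [pc1, P01] at q1
    rw [pc2, P00] at q2
    have z := g9 (by rw [j17084_re _ g1, q2]; rfl) (Complex.ext q0 q1)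
    have : v * pp κ ε t = 0 := by
      have h2 : (-2 : ℂ) ≠ 0 := by norm_num
      exact (mul_eq_zero.mp z).resolve_left h2
    exact (mul_eq_zero.mp this).resolve_right hpp
  · -- shape operator
    set c : ℂ := ((m1 t / m0 t : ℝ) : ℂ) * (conj (qq κ h ε t) / pp κ ε t) with hc
    let S : ℂ →L[ℝ] ℂ := ContinuousLinearMap.id ℝ ℂ - (ContinuousLinearMap.mul ℝ ℂ c).comp (Complex.conjCLE : ℂ →L[ℝ] ℂ)
    have hS : ∀ v, S v = v - c * conj v := fun v => rfl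
    have hcp : conj (pp κ ε t) ≠ 0 := (map_ne_zero _).mpr hpp
    refine ⟨S, fun v => ?_, ?_⟩
    · have hmat : !![0, -2 * (v * pp κ ε t - conj v * ((m1 t / m0 t : ℝ) : ℂ) * conj (qq κ h ε t));
        2 * (v * qq κ h ε t - conj v * ((m0 t / m1 t : ℝ) : ℂ) * conj (pp κ ε t)), 0] =
        !![0, -2 * (S v * pp κ ε t);
        -2 * (conj (S v) * ((m0 t / m1 t : ℝ) : ℂ) * conj (pp κ ε t)), 0] := by
        have e1 : S v * pp κ ε t = v * pp κ ε t - conj v * ((m1 t / m0 t : ℝ) : ℂ) * conj (qq κ h ε t) := by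
          rw [hS, hc]
          field_simp
        have e2 : conj (S v) * ((m0 t / m1 t : ℝ) : ℂ) * conj (pp κ ε t) =
            conj v * ((m0 t / m1 t : ℝ) : ℂ) * conj (pp κ ε t) - v * qq κ h ε t := by
          rw [hS, hc]
          simp only [map_sub, map_mul, map_div₀, Complex.conj_conj, Complex.conj_ofReal]
          push_cast
          field_simp
        rw [e1, e2]
        congr 2
        ring_nf
      have k01 : fderiv ℝ (n01 φ) t v = fderiv ℝ (X01 φ χ) t (S v) := by rw [N01, P01, hmat]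
      have k00 : fderiv ℝ (n00 φ) t v = fderiv ℝ (X00 φ χ) t (S v) := by rw [N00, P00, hmat]
      ext i
      fin_cases i
      · show (fderiv ℝ (nor φ) t v) 0 = (fderiv ℝ (pos φ χ) t (S v)) 0
        rw [nc0, pc0, k01]
      · show (fderiv ℝ (nor φ) t v) 1 = (fderiv ℝ (pos φ χ) t (S v)) 1
        rw [nc1, pc1, k01]
      · show (fderiv ℝ (nor φ) t v) 2 = (fderiv ℝ (pos φ χ) t (S v)) 2
        rw [nc2, pc2, k00]
    · rw [LinearMap.trace_eq_matrix_trace ℝ Complex.basisOneI, Matrix.trace, Fin.sum_univ_two]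
      simp only [Matrix.diag_apply, LinearMap.toMatrix_apply, Complex.coe_basisOneI, Matrix.cons_val_zero,
        Matrix.cons_val_one, Complex.coe_basisOneI_repr, ContinuousLinearMap.coe_coe, hS]
      simp
      ring




end Pool.Agent.Helper87.VT.P2
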