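import Mathlib
import Pool.Agent.Helper87.VT.Defs

set_option autoImplicit false

open Set Metric Matrix
open scoped ContDiff ComplexConjugate

namespace Pool.Agent.Helper87.VT.P2





theorem kap_bounds {η : ℝ} {κ h : ℂ → ℂ} (hη1 : η ≤ 1 / 100) (kd : KData η κ h) (t : ℂ)
    (ht : ‖t‖ < 13 / 10) : 99 / 100 ≤ ‖κ t‖ ∧ ‖κ t‖ ≤ 101 / 100 := by
  have h1 := (kd.κ_close t (by linarith)).1
  have h2 : ‖(1 : ℂ)‖ = 1 := by simp
  constructor
  · have h3 := norm_sub_norm_le (1 : ℂ) (1 - κ t)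
    rw [sub_sub_cancel, norm_sub_rev 1 (κ t), h2] at h3
    linarith
  · have h3 := norm_sub_norm_le (κ t) 1
    rw [h2] at h3
    linarith

theorem nu_pos' {ε η : ℝ} {κ h : ℂ → ℂ} (hε : 0 < ε) (hη1 : η ≤ 1 / 100) (kd : KData η κ h) (t : ℂ)
    (ht : ‖t‖ < 13 / 10) : 0 < nu κ ε t := by
  have h1 := (kap_bounds hη1 kd t ht).1
  unfold nu
  have h2 : 0 < ‖κ t‖ := by linarith
  have h3 : 0 ≤ ‖t‖ ^ 2 := sq_nonneg _
  positivity

theorem nu_bounds' {ε η : ℝ} {κ h : ℂ → ℂ} (hε : 0 < ε) (hη1 : η ≤ 1 / 100) (kd : KData η κ h)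
    (t : ℂ) (ht : ‖t‖ < 13 / 10) : (ε ^ 2 + ‖t‖ ^ 2) * (49 / 50) ≤ nu κ ε t ∧
      nu κ ε t ≤ (103 / 100) * (ε ^ 2 + ‖t‖ ^ 2) := by
  obtain ⟨h1, h2⟩ := kap_bounds hη1 kd t ht
  have h3 : 0 ≤ ‖t‖ ^ 2 := sq_nonneg _
  have h4 : 98 / 100 ≤ ‖κ t‖ ^ 2 := by nlinarith
  have h5 : ‖κ t‖ ^ 2 ≤ 103 / 100 := by nlinarith [norm_nonneg (κ t)]
  have h6 : 0 ≤ ε ^ 2 := sq_nonneg _
  have h7 := mul_le_mul_of_nonneg_left h4 h6
  have h8 := mul_le_mul_of_nonneg_left h5 h6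
  unfold nu
  constructor <;> nlinarith

theorem rho_bounds' {η : ℝ} {κ h : ℂ → ℂ} (hη1 : η ≤ 1 / 100) (kd : KData η κ h)
    (t : ℂ) (ht : ‖t‖ < 13 / 10) : 97 / 100 ≤ ‖rho κ t‖ ∧ ‖rho κ t‖ ≤ 103 / 100 := by
  obtain ⟨h1, h1'⟩ := kd.κ_close t (by linarith)
  have h2 : ‖(1 : ℂ)‖ = 1 := by simp
  have h3 : ‖rho κ t - 1‖ ≤ 23 / 1000 := by
    have e : rho κ t - 1 = (κ t - 1) - t * deriv κ t := by unfold rho; ring
    rw [e]
    refine (norm_sub_le _ _).trans ?_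
    rw [norm_mul]
    have h4 : ‖t‖ * ‖deriv κ t‖ ≤ 13 / 10 * (1 / 100) :=
      mul_le_mul ht.le (h1'.trans hη1) (norm_nonneg _) (by norm_num)
    linarith
  constructor
  · have h4 := norm_sub_norm_le (1 : ℂ) (1 - rho κ t)
    rw [sub_sub_cancel, norm_sub_rev 1 (rho κ t), h2] at h4
    linarith
  · have h4 := norm_sub_norm_le (rho κ t) 1
    rw [h2] at h4
    linarith

theorem nu_cast (κ : ℂ → ℂ) (ε : ℝ) (t : ℂ) :
    ((nu κ ε t : ℝ) : ℂ) = (ε : ℂ) ^ 2 * (κ t * conj (κ t)) + t * conj t := by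
  unfold nu
  rw [Complex.mul_conj', Complex.mul_conj']
  push_cast
  ring

theorem det_N0 (κ : ℂ → ℂ) (ε : ℝ) (t : ℂ) : (N0 κ ε t).det = ((nu κ ε t : ℝ) : ℂ) := by
  rw [nu_cast]
  unfold N0
  rw [Matrix.det_fin_two_of]
  ring

theorem norM_N0 (κ : ℂ → ℂ) (ε : ℝ) (t : ℂ) : norM (N0 κ ε t) =
    ((nu κ ε t : ℝ) : ℂ)⁻¹ • !![(ε : ℂ) ^ 2 * (κ t * conj (κ t)) - t * conj t,
      -2 * (ε : ℂ) * t * conj (κ t);
      -2 * (ε : ℂ) * conj t * κ t,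
      t * conj t - (ε : ℂ) ^ 2 * (κ t * conj (κ t))] := by
  unfold norM
  rw [Matrix.inv_def, Ring.inverse_eq_inv', det_N0, Matrix.mul_smul]
  congr 1
  unfold N0 sg
  rw [Matrix.adjugate_fin_two_of]
  ext i j
  fin_cases i <;> fin_cases j <;>
    simp [Matrix.mul_apply, Fin.sum_univ_two] <;> ring

/-- complex version of `n00` -/
noncomputable def g00 (κ : ℂ → ℂ) (ε : ℝ) (t : ℂ) : ℂ :=
  ((ε : ℂ) ^ 2 * (κ t * conj (κ t)) - t * conj t) / ((nu κ ε t : ℝ) : ℂ)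

theorem n01_eq (κ : ℂ → ℂ) (ε : ℝ) (t : ℂ) :
    n01 (N0 κ ε) t = -2 * (ε : ℂ) * t * conj (κ t) / ((nu κ ε t : ℝ) : ℂ) := by
  unfold n01
  rw [norM_N0]
  simp only [Matrix.smul_apply, smul_eq_mul, Matrix.of_apply, Matrix.cons_val', Matrix.cons_val_one,
    Matrix.cons_val_zero, Matrix.cons_val_fin_one]
  rw [div_eq_mul_inv]
  ring

theorem g00_real (κ : ℂ → ℂ) (ε : ℝ) (t : ℂ) :
    g00 κ ε t = (((ε ^ 2 * ‖κ t‖ ^ 2 - ‖t‖ ^ 2) / nu κ ε t : ℝ) : ℂ) := by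
  unfold g00
  rw [Complex.mul_conj', Complex.mul_conj']
  push_cast
  ring

theorem n00_eq' (κ : ℂ → ℂ) (ε : ℝ) (t : ℂ) : n00 (N0 κ ε) t = (g00 κ ε t).re := by
  unfold n00
  rw [norM_N0]
  simp only [Matrix.smul_apply, smul_eq_mul, Matrix.of_apply, Matrix.cons_val', Matrix.cons_val_one,
    Matrix.cons_val_zero, Matrix.cons_val_fin_one]
  unfold g00
  rw [div_eq_mul_inv]
  congr 1
  ring

theorem n00_eq (κ : ℂ → ℂ) (ε : ℝ) (t : ℂ) :
    n00 (N0 κ ε) t = (ε ^ 2 * ‖κ t‖ ^ 2 - ‖t‖ ^ 2) / nu κ ε t := by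
  rw [n00_eq', g00_real, Complex.ofReal_re]

theorem diffC {η : ℝ} {κ h : ℂ → ℂ} (kd : KData η κ h) (t : ℂ) (ht : ‖t‖ < 13 / 10) :
    DifferentiableAt ℂ κ t :=
  kd.κ_hol.differentiableAt (isOpen_ball.mem_nhds (by simp; linarith))

theorem differentiableAt_conj (t : ℂ) : DifferentiableAt ℝ (fun s : ℂ => conj s) t :=
  Complex.conjCLE.differentiableAt

theorem differentiableAt_kap {κ : ℂ → ℂ} {t : ℂ} (hd : DifferentiableAt ℂ κ t) :
    DifferentiableAt ℝ (fun s : ℂ => κ s) t := hd.restrictScalars ℝ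

theorem differentiableAt_kapc {κ : ℂ → ℂ} {t : ℂ} (hd : DifferentiableAt ℂ κ t) :
    DifferentiableAt ℝ (fun s : ℂ => conj (κ s)) t :=
  (differentiableAt_conj (κ t)).comp t (differentiableAt_kap hd)

theorem differentiableAt_nuc {κ : ℂ → ℂ} (ε : ℝ) {t : ℂ} (hd : DifferentiableAt ℂ κ t) :
    DifferentiableAt ℝ (fun s : ℂ => ((nu κ ε s : ℝ) : ℂ)) t := by
  have h : (fun s : ℂ => ((nu κ ε s : ℝ) : ℂ)) =
      fun s => (ε : ℂ) ^ 2 * (κ s * conj (κ s)) + s * conj s := funext fun s => nu_cast κ ε s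
  rw [h]
  have h1 : DifferentiableAt ℝ (fun s : ℂ => s) t := differentiableAt_id
  exact (((differentiableAt_kap hd).mul (differentiableAt_kapc hd)).const_mul _).add
    (h1.mul (differentiableAt_conj t))

theorem differentiableAt_n01 {κ : ℂ → ℂ} {ε : ℝ} {t : ℂ} (hd : DifferentiableAt ℂ κ t)
    (hp : 0 < nu κ ε t) : DifferentiableAt ℝ (n01 (N0 κ ε)) t := by
  have h : n01 (N0 κ ε) = fun s => -2 * (ε : ℂ) * s * conj (κ s) / ((nu κ ε s : ℝ) : ℂ) :=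
    funext fun s => n01_eq κ ε s
  rw [h]
  have h1 : DifferentiableAt ℝ (fun s : ℂ => s) t := differentiableAt_id
  have hne : ((nu κ ε t : ℝ) : ℂ) ≠ 0 := by exact_mod_cast hp.ne'
  simp only [div_eq_mul_inv]
  exact ((h1.const_mul _).mul (differentiableAt_kapc hd)).mul ((differentiableAt_nuc ε hd).inv hne)

theorem differentiableAt_g00 {κ : ℂ → ℂ} {ε : ℝ} {t : ℂ} (hd : DifferentiableAt ℂ κ t)
    (hp : 0 < nu κ ε t) : DifferentiableAt ℝ (g00 κ ε) t := by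
  unfold g00
  have h1 : DifferentiableAt ℝ (fun s : ℂ => s) t := differentiableAt_id
  have hne : ((nu κ ε t : ℝ) : ℂ) ≠ 0 := by exact_mod_cast hp.ne'
  simp only [div_eq_mul_inv]
  exact ((((differentiableAt_kap hd).mul (differentiableAt_kapc hd)).const_mul _).sub
    (h1.mul (differentiableAt_conj t))).mul ((differentiableAt_nuc ε hd).inv hne)

theorem n00_fun (κ : ℂ → ℂ) (ε : ℝ) : n00 (N0 κ ε) = fun s => Complex.reCLM (g00 κ ε s) := by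
  funext s
  rw [n00_eq']
  rfl

theorem differentiableAt_n00 {κ : ℂ → ℂ} {ε : ℝ} {t : ℂ} (hd : DifferentiableAt ℂ κ t)
    (hp : 0 < nu κ ε t) : DifferentiableAt ℝ (n00 (N0 κ ε)) t := by
  rw [n00_fun]
  exact Complex.reCLM.differentiableAt.comp t (differentiableAt_g00 hd hp)

theorem fderiv_n00 {κ : ℂ → ℂ} {ε : ℝ} {t : ℂ} (hd : DifferentiableAt ℂ κ t)
    (hp : 0 < nu κ ε t) (v : ℂ) :
    fderiv ℝ (n00 (N0 κ ε)) t v = (fderiv ℝ (g00 κ ε) t v).re := by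
  have h := (Complex.reCLM.hasFDerivAt (x := g00 κ ε t)).comp t
    (differentiableAt_g00 hd hp).hasFDerivAt
  rw [n00_fun]
  have h2 := h.fderiv
  have h3 : (fun s => Complex.reCLM (g00 κ ε s)) = (⇑Complex.reCLM ∘ g00 κ ε) := rfl
  rw [h3, h2]
  rfl

theorem line_t (t v : ℂ) : HasDerivAt (fun r : ℝ => t + r • v) v 0 := by
  have h : HasDerivAt (fun r : ℝ => r • v) ((1 : ℝ) • v) 0 := (hasDerivAt_id (0 : ℝ)).smul_const v
  rw [one_smul] at h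
  exact h.const_add t

theorem line_conj (t v : ℂ) : HasDerivAt (fun r : ℝ => conj (t + r • v)) (conj v) 0 := by
  have h : (fun r : ℝ => conj (t + r • v)) = fun r : ℝ => conj t + r • conj v := by
    funext r
    simp
  rw [h]
  exact line_t (conj t) (conj v)

theorem line_kap {κ : ℂ → ℂ} {t : ℂ} (hd : DifferentiableAt ℂ κ t) (v : ℂ) :
    HasDerivAt (fun r : ℝ => κ (t + r • v)) (deriv κ t * v) 0 := by
  have h0 : HasDerivAt κ (deriv κ t) (t + (0 : ℝ) • v) := by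
    rw [zero_smul, add_zero]; exact hd.hasDerivAt
  exact HasDerivAt.comp (0 : ℝ) h0 (line_t t v)

theorem line_kapc {κ : ℂ → ℂ} {t : ℂ} (hd : DifferentiableAt ℂ κ t) (v : ℂ) :
    HasDerivAt (fun r : ℝ => conj (κ (t + r • v))) (conj (deriv κ t) * conj v) 0 := by
  have h := (Complex.conjCLE.hasFDerivAt (x := κ (t + (0 : ℝ) • v))).comp_hasDerivAt 0
    (line_kap hd v)
  refine h.congr_deriv ?_
  simp

theorem line_nu {κ : ℂ → ℂ} (ε : ℝ) {t : ℂ} (hd : DifferentiableAt ℂ κ t) (v : ℂ) :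
    HasDerivAt (fun r : ℝ => ((nu κ ε (t + r • v) : ℝ) : ℂ))
      ((ε : ℂ) ^ 2 * (deriv κ t * v * conj (κ t) + κ t * (conj (deriv κ t) * conj v))
        + (v * conj t + t * conj v)) 0 := by
  have h : (fun r : ℝ => ((nu κ ε (t + r • v) : ℝ) : ℂ)) =
      fun r : ℝ => (ε : ℂ) ^ 2 * (((fun r : ℝ => κ (t + r • v)) *
        (fun r : ℝ => conj (κ (t + r • v)))) r) + (((fun r : ℝ => t + r • v) *
        (fun r : ℝ => conj (t + r • v))) r) := funext fun r => by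
    simp only [Pi.mul_apply]
    exact nu_cast κ ε _
  rw [h]
  refine ((((line_kap hd v).mul (line_kapc hd v)).const_mul ((ε : ℂ) ^ 2)).add
    ((line_t t v).mul (line_conj t v))).congr_deriv ?_
  simp

theorem fderiv_n01 {κ : ℂ → ℂ} {ε : ℝ} {t : ℂ} (hd : DifferentiableAt ℂ κ t)
    (hp : 0 < nu κ ε t) (v : ℂ) :
    fderiv ℝ (n01 (N0 κ ε)) t v = -(2 / (nu κ ε t : ℂ)) *
          (v * pp κ ε t * N0 κ ε t 0 0 * conj (N0 κ ε t 1 1)
            + conj v * conj (pp κ ε t) * N0 κ ε t 0 1 * conj (N0 κ ε t 1 0)) := by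
  have hne : ((nu κ ε t : ℝ) : ℂ) ≠ 0 := by exact_mod_cast hp.ne'
  have h1 : HasDerivAt (fun r : ℝ => n01 (N0 κ ε) (t + r • v)) (fderiv ℝ (n01 (N0 κ ε)) t v) 0 :=
    (differentiableAt_n01 hd hp).hasFDerivAt.hasLineDerivAt v
  have hne' : ((nu κ ε (t + (0 : ℝ) • v) : ℝ) : ℂ) ≠ 0 := by simpa using hne
  have h2 := (((line_t t v).mul (line_kapc hd v)).const_mul (-2 * (ε : ℂ))).mul
    ((line_nu ε hd v).inv hne')
  have h3 : (fun r : ℝ => n01 (N0 κ ε) (t + r • v)) =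
      ((fun r : ℝ => (-2 * (ε : ℂ)) * ((fun r : ℝ => t + r • v) *
        (fun r : ℝ => conj (κ (t + r • v)))) r) *
        (fun r : ℝ => ((nu κ ε (t + r • v) : ℝ) : ℂ))⁻¹) := by
    funext r
    simp only [Pi.mul_apply, Pi.inv_apply]
    rw [n01_eq, div_eq_mul_inv]
    ring
  rw [h3] at h1
  rw [h1.unique h2]
  have hrc : conj (rho κ t) = conj (κ t) - conj t * conj (deriv κ t) := by unfold rho; simp
  have hppc : conj (pp κ ε t) = (ε : ℂ) * conj (rho κ t) / ((nu κ ε t : ℝ) : ℂ) := by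
    unfold pp
    rw [map_div₀, map_mul, Complex.conj_ofReal, Complex.conj_ofReal]
  have e00 : N0 κ ε t 0 0 = (ε : ℂ) * conj (κ t) := rfl
  have e01 : N0 κ ε t 0 1 = t := rfl
  have e10 : conj (N0 κ ε t 1 0) = - t := by
    change conj (- conj t) = - t
    simp
  have e11 : conj (N0 κ ε t 1 1) = (ε : ℂ) * conj (κ t) := by
    change conj ((ε : ℂ) * κ t) = _
    rw [map_mul, Complex.conj_ofReal]
  rw [hppc, e00, e01, e10, e11, hrc]
  unfold pp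
  simp only [zero_smul, add_zero, Pi.mul_apply, Pi.inv_apply]
  have hnu := nu_cast κ ε t
  have hr : rho κ t = κ t - t * deriv κ t := rfl
  rw [hr]
  generalize ((nu κ ε t : ℝ) : ℂ) = N at hne hnu ⊢
  generalize conj (deriv κ t) = kdb at hnu ⊢
  generalize (deriv κ t) = kd at hnu ⊢
  generalize conj (κ t) = kb at hnu ⊢
  generalize (κ t) = k at hnu ⊢
  generalize conj t = tb at hnu ⊢
  generalize conj v = vb at hnu ⊢
  field_simp
  rw [hnu]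
  ring

theorem fderiv_g00 {κ : ℂ → ℂ} {ε : ℝ} {t : ℂ} (hd : DifferentiableAt ℂ κ t)
    (hp : 0 < nu κ ε t) (v : ℂ) :
    fderiv ℝ (g00 κ ε) t v = ((-(4 / nu κ ε t) *
          (v * pp κ ε t * N0 κ ε t 0 0 * conj (N0 κ ε t 0 1)).re : ℝ) : ℂ) := by
  have hne : ((nu κ ε t : ℝ) : ℂ) ≠ 0 := by exact_mod_cast hp.ne'
  have h1 : HasDerivAt (fun r : ℝ => g00 κ ε (t + r • v)) (fderiv ℝ (g00 κ ε) t v) 0 :=
    (differentiableAt_g00 hd hp).hasFDerivAt.hasLineDerivAt v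
  have hne' : ((nu κ ε (t + (0 : ℝ) • v) : ℝ) : ℂ) ≠ 0 := by simpa using hne
  have h2 := ((((line_kap hd v).mul (line_kapc hd v)).const_mul ((ε : ℂ) ^ 2)).sub
    ((line_t t v).mul (line_conj t v))).mul ((line_nu ε hd v).inv hne')
  have h3 : (fun r : ℝ => g00 κ ε (t + r • v)) =
      (((fun r : ℝ => (ε : ℂ) ^ 2 * (((fun r : ℝ => κ (t + r • v)) *
        (fun r : ℝ => conj (κ (t + r • v)))) r)) - ((fun r : ℝ => t + r • v) *
        (fun r : ℝ => conj (t + r • v)))) *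
        (fun r : ℝ => ((nu κ ε (t + r • v) : ℝ) : ℂ))⁻¹) := by
    funext r
    simp only [Pi.mul_apply, Pi.inv_apply, Pi.sub_apply]
    rfl
  rw [h3] at h1
  rw [h1.unique h2]
  have hrc : conj (rho κ t) = conj (κ t) - conj t * conj (deriv κ t) := by unfold rho; simp
  have hppc : conj (pp κ ε t) = (ε : ℂ) * conj (rho κ t) / ((nu κ ε t : ℝ) : ℂ) := by
    unfold pp
    rw [map_div₀, map_mul, Complex.conj_ofReal, Complex.conj_ofReal]
  have e00 : N0 κ ε t 0 0 = (ε : ℂ) * conj (κ t) := rfl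
  have e01 : N0 κ ε t 0 1 = t := rfl
  have hre : (((v * pp κ ε t * N0 κ ε t 0 0 * conj (N0 κ ε t 0 1)).re : ℝ) : ℂ) =
      (v * pp κ ε t * ((ε : ℂ) * conj (κ t)) * conj t
        + conj v * conj (pp κ ε t) * ((ε : ℂ) * κ t) * t) / 2 := by
    rw [Complex.re_eq_add_conj, e00, e01]
    simp only [map_mul, Complex.conj_ofReal, Complex.conj_conj]
  rw [Complex.ofReal_mul, hre, hppc, hrc]
  push_cast
  unfold pp
  simp only [zero_smul, add_zero, Pi.mul_apply, Pi.inv_apply, Pi.sub_apply]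
  have hnu := nu_cast κ ε t
  have hr : rho κ t = κ t - t * deriv κ t := rfl
  rw [hr]
  generalize ((nu κ ε t : ℝ) : ℂ) = N at hne hnu ⊢
  generalize conj (deriv κ t) = kdb at hnu ⊢
  generalize (deriv κ t) = kd at hnu ⊢
  generalize conj (κ t) = kb at hnu ⊢
  generalize (κ t) = k at hnu ⊢
  generalize conj t = tb at hnu ⊢
  generalize conj v = vb at hnu ⊢
  field_simp
  rw [hnu]
  ring

theorem differentiableAt_nor {κ : ℂ → ℂ} {ε : ℝ} {t : ℂ} (hd : DifferentiableAt ℂ κ t)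
    (hp : 0 < nu κ ε t) :
    DifferentiableAt ℝ (nor (N0 κ ε)) t := by
  rw [differentiableAt_euclidean]
  intro i
  fin_cases i
  · have h : (fun x => nor (N0 κ ε) x ((fun i => i) ⟨0, by decide⟩)) =
      fun s => Complex.reCLM (n01 (N0 κ ε) s) := rfl
    rw [h]
    exact Complex.reCLM.differentiableAt.comp t (differentiableAt_n01 hd hp)
  · have h : (fun x => nor (N0 κ ε) x ((fun i => i) ⟨1, by decide⟩)) =
      fun s => Complex.imCLM (n01 (N0 κ ε) s) := rfl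
    rw [h]
    exact Complex.imCLM.differentiableAt.comp t (differentiableAt_n01 hd hp)
  · have h : (fun x => nor (N0 κ ε) x ((fun i => i) ⟨2, by decide⟩)) =
      fun s => n00 (N0 κ ε) s := rfl
    rw [h]
    exact differentiableAt_n00 hd hp

theorem norm_nor_one (κ : ℂ → ℂ) (ε : ℝ) (t : ℂ) (hp : 0 < nu κ ε t) :
    ‖nor (N0 κ ε) t‖ = 1 := by
  have h1 : ‖nor (N0 κ ε) t‖ ^ 2 = 1 := by
    rw [EuclideanSpace.norm_sq_eq, Fin.sum_univ_three]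
    have c0 : (nor (N0 κ ε) t) 0 = (n01 (N0 κ ε) t).re := rfl
    have c1 : (nor (N0 κ ε) t) 1 = (n01 (N0 κ ε) t).im := rfl
    have c2 : (nor (N0 κ ε) t) 2 = n00 (N0 κ ε) t := rfl
    rw [c0, c1, c2]
    simp only [Real.norm_eq_abs, sq_abs]
    have e2 : (n01 (N0 κ ε) t).re ^ 2 + (n01 (N0 κ ε) t).im ^ 2 = ‖n01 (N0 κ ε) t‖ ^ 2 := by
      rw [← Complex.normSq_eq_norm_sq, Complex.normSq_apply]
      ring
    rw [e2]
    have key : ((‖n01 (N0 κ ε) t‖ ^ 2 + (n00 (N0 κ ε) t) ^ 2 : ℝ) : ℂ) = ((1 : ℝ) : ℂ) := by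
      have hnt : ((nu κ ε t : ℝ) : ℂ) ≠ 0 := by exact_mod_cast hp.ne'
      have g2 : ((n00 (N0 κ ε) t : ℝ) : ℂ) = g00 κ ε t := by rw [n00_eq, ← g00_real]
      push_cast
      rw [← Complex.mul_conj', g2, n01_eq]
      unfold g00
      simp only [map_mul, map_div₀, map_neg, Complex.conj_ofReal, Complex.conj_conj, map_ofNat]
      have hnu2 := nu_cast κ ε t
      generalize ((nu κ ε t : ℝ) : ℂ) = M at hnt hnu2 ⊢
      generalize conj (κ t) = bb at hnu2 ⊢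
      generalize (κ t) = b at hnu2 ⊢
      generalize conj t = tb at hnu2 ⊢
      field_simp
      rw [hnu2]
      ring
    exact_mod_cast key
  have h2 : 0 ≤ ‖nor (N0 κ ε) t‖ := norm_nonneg _
  nlinarith

theorem chord (κ : ℂ → ℂ) {ε : ℝ} (hε : 0 < ε) (s t : ℂ) (hs : 0 < nu κ ε s)
    (ht : 0 < nu κ ε t) :
    ‖nor (N0 κ ε) s - nor (N0 κ ε) t‖ = 2 * ε * ‖s * κ t - t * κ s‖ /
        (Real.sqrt (nu κ ε s) * Real.sqrt (nu κ ε t)) := by
  have hR : 0 ≤ 2 * ε * ‖s * κ t - t * κ s‖ /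
        (Real.sqrt (nu κ ε s) * Real.sqrt (nu κ ε t)) := by positivity
  refine (sq_eq_sq₀ (norm_nonneg _) hR).mp ?_
  have hR2 : (2 * ε * ‖s * κ t - t * κ s‖ /
        (Real.sqrt (nu κ ε s) * Real.sqrt (nu κ ε t))) ^ 2 =
      4 * ε ^ 2 * ‖s * κ t - t * κ s‖ ^ 2 / (nu κ ε s * nu κ ε t) := by
    rw [div_pow, mul_pow, mul_pow, mul_pow (Real.sqrt _),
      Real.sq_sqrt hs.le, Real.sq_sqrt ht.le]
    ring
  rw [hR2, EuclideanSpace.norm_sq_eq, Fin.sum_univ_three]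
  have c0 : (nor (N0 κ ε) s - nor (N0 κ ε) t) 0 = (n01 (N0 κ ε) s - n01 (N0 κ ε) t).re := rfl
  have c1 : (nor (N0 κ ε) s - nor (N0 κ ε) t) 1 = (n01 (N0 κ ε) s - n01 (N0 κ ε) t).im := rfl
  have c2 : (nor (N0 κ ε) s - nor (N0 κ ε) t) 2 = n00 (N0 κ ε) s - n00 (N0 κ ε) t := rfl
  rw [c0, c1, c2]
  simp only [Real.norm_eq_abs, sq_abs]
  have e2 : (n01 (N0 κ ε) s - n01 (N0 κ ε) t).re ^ 2 + (n01 (N0 κ ε) s - n01 (N0 κ ε) t).im ^ 2 =
      ‖n01 (N0 κ ε) s - n01 (N0 κ ε) t‖ ^ 2 := by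
    rw [← Complex.normSq_eq_norm_sq, Complex.normSq_apply]
    ring
  rw [e2]
  have key : ((‖n01 (N0 κ ε) s - n01 (N0 κ ε) t‖ ^ 2 +
        (n00 (N0 κ ε) s - n00 (N0 κ ε) t) ^ 2 : ℝ) : ℂ) =
      ((4 * ε ^ 2 * ‖s * κ t - t * κ s‖ ^ 2 / (nu κ ε s * nu κ ε t) : ℝ) : ℂ) := by
    have hns : ((nu κ ε s : ℝ) : ℂ) ≠ 0 := by exact_mod_cast hs.ne'
    have hnt : ((nu κ ε t : ℝ) : ℂ) ≠ 0 := by exact_mod_cast ht.ne'
    have g1 : ((n00 (N0 κ ε) s : ℝ) : ℂ) = g00 κ ε s := by rw [n00_eq, ← g00_real]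
    have g2 : ((n00 (N0 κ ε) t : ℝ) : ℂ) = g00 κ ε t := by rw [n00_eq, ← g00_real]
    push_cast
    rw [← Complex.mul_conj', ← Complex.mul_conj', g1, g2, n01_eq, n01_eq]
    unfold g00
    simp only [map_sub, map_mul, map_div₀, map_neg, Complex.conj_ofReal, Complex.conj_conj,
      map_ofNat]
    have hnu1 := nu_cast κ ε s
    have hnu2 := nu_cast κ ε t
    generalize ((nu κ ε s : ℝ) : ℂ) = N at hns hnu1 ⊢
    generalize ((nu κ ε t : ℝ) : ℂ) = M at hnt hnu2 ⊢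
    generalize conj (κ s) = ab at hnu1 ⊢
    generalize conj (κ t) = bb at hnu2 ⊢
    generalize (κ s) = a at hnu1 ⊢
    generalize (κ t) = b at hnu2 ⊢
    generalize conj t = tb at hnu2 ⊢
    generalize conj s = sb at hnu1 ⊢
    field_simp
    rw [hnu1, hnu2]
    ring
  exact_mod_cast key

theorem cross_lower {η : ℝ} {κ h : ℂ → ℂ} (hη1 : η ≤ 1 / 100) (kd : KData η κ h) (s t : ℂ)
    (hs : ‖s‖ < 13 / 10) (ht : ‖t‖ < 13 / 10) :
    (95 / 100) * ‖s - t‖ ≤ ‖s * κ t - t * κ s‖ := by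
  have h1 : ‖κ t - κ s‖ ≤ η * ‖t - s‖ := by
    refine Convex.norm_image_sub_le_of_norm_deriv_le (𝕜 := ℂ) (f := κ) (s := ball 0 (3 / 2))
      (fun x hx => kd.κ_hol.differentiableAt (isOpen_ball.mem_nhds hx))
      (fun x hx => (kd.κ_close x (by simpa using hx)).2) (convex_ball 0 (3 / 2)) ?_ ?_
    · simp; linarith
    · simp; linarith
  have h2 := (kap_bounds hη1 kd t ht).1
  have e : s * κ t - t * κ s = (s - t) * κ t + t * (κ t - κ s) := by ring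
  rw [e]
  have h3 := norm_sub_norm_le ((s - t) * κ t) (-(t * (κ t - κ s)))
  rw [sub_neg_eq_add, norm_neg, norm_mul, norm_mul] at h3
  rw [norm_sub_rev t s] at h1
  have h4 : ‖t‖ * ‖κ t - κ s‖ ≤ 13 / 10 * (1 / 100 * ‖s - t‖) := by
    refine mul_le_mul ht.le (h1.trans ?_) (norm_nonneg _) (by norm_num)
    exact mul_le_mul_of_nonneg_right hη1 (norm_nonneg _)
  have h5 : ‖s - t‖ * (99 / 100) ≤ ‖s - t‖ * ‖κ t‖ :=
    mul_le_mul_of_nonneg_left h2 (norm_nonneg _)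
  have h6 := norm_nonneg (s - t)
  linarith

/-- JOB J3 (the only target): the undeformed sphere. -/
theorem sphere_facts {ε η : ℝ} {κ h : ℂ → ℂ} (hε : 0 < ε) (hε2 : ε ≤ 1 / 2) (hη : 0 < η)
    (hη1 : η ≤ 1 / 100) (kd : KData η κ h) :
    (∀ t : ℂ, ‖t‖ < 13 / 10 → 0 < nu κ ε t ∧ (ε ^ 2 + ‖t‖ ^ 2) * (49 / 50) ≤ nu κ ε t ∧
      nu κ ε t ≤ (103 / 100) * (ε ^ 2 + ‖t‖ ^ 2) ∧ 97 / 100 ≤ ‖rho κ t‖ ∧ ‖rho κ t‖ ≤ 103 / 100) ∧
    (∀ t : ℂ, ‖t‖ < 13 / 10 →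
      n01 (N0 κ ε) t = -(2 * (ε : ℂ) * t * conj (κ t)) / ((nu κ ε t : ℝ) : ℂ) ∧
      n00 (N0 κ ε) t = 2 * ε ^ 2 * ‖κ t‖ ^ 2 / nu κ ε t - 1 ∧ ‖nor (N0 κ ε) t‖ = 1) ∧
    (∀ t : ℂ, ‖t‖ < 13 / 10 → DifferentiableAt ℝ (nor (N0 κ ε)) t ∧
      DifferentiableAt ℝ (n01 (N0 κ ε)) t ∧ DifferentiableAt ℝ (n00 (N0 κ ε)) t ∧
      ∀ v : ℂ, fderiv ℝ (n01 (N0 κ ε)) t v = -(2 / (nu κ ε t : ℂ)) *
          (v * pp κ ε t * N0 κ ε t 0 0 * conj (N0 κ ε t 1 1)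
            + conj v * conj (pp κ ε t) * N0 κ ε t 0 1 * conj (N0 κ ε t 1 0)) ∧
        fderiv ℝ (n00 (N0 κ ε)) t v = -(4 / nu κ ε t) *
          (v * pp κ ε t * N0 κ ε t 0 0 * conj (N0 κ ε t 0 1)).re) ∧
    (∀ s t : ℂ, ‖s‖ < 13 / 10 → ‖t‖ < 13 / 10 →
      (19 / 10) * ε * ‖s - t‖ / (Real.sqrt (nu κ ε s) * Real.sqrt (nu κ ε t)) ≤
        ‖nor (N0 κ ε) s - nor (N0 κ ε) t‖) := by
  refine ⟨?_, ?_, ?_, ?_⟩
  · intro t ht
    have hb := nu_bounds' hε hη1 kd t ht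
    exact ⟨nu_pos' hε hη1 kd t ht, hb.1, hb.2, (rho_bounds' hη1 kd t ht).1,
      (rho_bounds' hη1 kd t ht).2⟩
  · intro t ht
    have hp := nu_pos' hε hη1 kd t ht
    refine ⟨?_, ?_, ?_⟩
    · rw [n01_eq]
      ring
    · rw [n00_eq]
      have h1 : nu κ ε t ≠ 0 := hp.ne'
      have h2 : ‖t‖ ^ 2 = nu κ ε t - ε ^ 2 * ‖κ t‖ ^ 2 := by unfold nu; ring
      rw [h2]
      field_simp
      ring
    · exact norm_nor_one κ ε t hp
  · intro t ht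
    have hd := diffC kd t ht
    have hp := nu_pos' hε hη1 kd t ht
    refine ⟨differentiableAt_nor hd hp, differentiableAt_n01 hd hp, differentiableAt_n00 hd hp, ?_⟩
    intro v
    refine ⟨fderiv_n01 hd hp v, ?_⟩
    rw [fderiv_n00 hd hp, fderiv_g00 hd hp, Complex.ofReal_re]
  · intro s t hs ht
    have hps := nu_pos' hε hη1 kd s hs
    have hpt := nu_pos' hε hη1 kd t ht
    rw [chord κ hε s t hps hpt]
    have h1 := cross_lower hη1 kd s t hs ht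
    have h2 : 0 < Real.sqrt (nu κ ε s) * Real.sqrt (nu κ ε t) :=
      mul_pos (Real.sqrt_pos.mpr hps) (Real.sqrt_pos.mpr hpt)
    refine div_le_div_of_nonneg_right ?_ h2.le
    have h3 : 2 * ε * ((95 / 100) * ‖s - t‖) ≤ 2 * ε * ‖s * κ t - t * κ s‖ :=
      mul_le_mul_of_nonneg_left h1 (by linarith)
    linarith

end Pool.Agent.Helper87.VT.P2
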