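import Mathlib
import Pool.Agent.Helper87.VT.Defs
import Pool.Agent.Helper676.VT.J1
import Pool.Agent.Helper676.VT.J3

set_option autoImplicit false

open Set Metric Matrix
open scoped ContDiff ComplexConjugate

namespace Pool.Agent.Helper87.VT.P2






/-- the linear map `(z, r) ↦ (re z, im z, r)` -/
noncomputable def db_LL3 : ℂ × ℝ →L[ℝ] EuclideanSpace ℝ (Fin 3) :=
  LinearMap.toContinuousLinearMap
    { toFun := fun p => !₂[p.1.re, p.1.im, p.2]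
      map_add' := fun p q => by
        ext i
        fin_cases i <;> simp
      map_smul' := fun c p => by
        ext i
        fin_cases i <;> simp }

theorem db_LL3_apply (z : ℂ) (r : ℝ) : db_LL3 (z, r) = !₂[z.re, z.im, r] := rfl

theorem db_LL3_norm (z : ℂ) (r : ℝ) : ‖db_LL3 (z, r)‖ ≤ ‖z‖ + |r| := by
  rw [db_LL3_apply, EuclideanSpace.norm_eq, Fin.sum_univ_three]
  apply Real.sqrt_le_iff.2
  refine ⟨by positivity, ?_⟩
  have h1 : ‖z‖ ^ 2 = z.re ^ 2 + z.im ^ 2 := by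
    rw [← Complex.normSq_eq_norm_sq, Complex.normSq_apply]; ring
  simp only [Real.norm_eq_abs, sq_abs]
  show z.re ^ 2 + z.im ^ 2 + r ^ 2 ≤ (‖z‖ + |r|) ^ 2
  have h2 := mul_nonneg (norm_nonneg z) (abs_nonneg r)
  nlinarith [sq_abs r]

theorem db_est_prod (ν C ε m : ℝ) (a b A B : ℂ) (hν : 0 < ν) (hC : 0 < C) (hε : 0 < ε)
    (hε2 : ε ≤ 1 / 2) (hm : 1 / 2 < m) (hm1 : |m - 1| ≤ C * ε) (hA : ‖A‖ ≤ Real.sqrt ν)
    (hB : ‖B‖ ≤ Real.sqrt ν) (ha : ‖a - A‖ ≤ C * ε * Real.sqrt ν)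
    (hb : ‖b - B‖ ≤ C * ε * Real.sqrt ν) :
    ‖a * conj b / (m : ℂ) - A * conj B‖ ≤ (6 * C + C ^ 2) * ε * ν := by
  have hm0 : (m : ℂ) ≠ 0 := by
    have : m ≠ 0 := by linarith
    exact_mod_cast this
  have hs := Real.sq_sqrt hν.le
  have hs0 := Real.sqrt_nonneg ν
  set r := Real.sqrt ν with hr
  have e1 : a * conj b / (m : ℂ) - A * conj B =
      ((a - A) * conj b + A * conj (b - B) + A * conj B * ((1 - m : ℝ) : ℂ)) / (m : ℂ) := by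
    rw [map_sub]
    push_cast
    field_simp
    ring
  have hb' : ‖b‖ ≤ (1 + C * ε) * r := by
    have h1 : ‖b‖ ≤ ‖B‖ + ‖b - B‖ := by
      calc ‖b‖ = ‖B + (b - B)‖ := by congr 1; ring
        _ ≤ _ := norm_add_le _ _
    linarith
  rw [e1, norm_div, Complex.norm_real, Real.norm_of_nonneg (by linarith : (0:ℝ) ≤ m),
    div_le_iff₀ (by linarith)]
  have h1 : ‖(a - A) * conj b + A * conj (b - B) + A * conj B * ((1 - m : ℝ) : ℂ)‖ ≤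
      ‖a - A‖ * ‖b‖ + ‖A‖ * ‖b - B‖ + ‖A‖ * ‖B‖ * |m - 1| := by
    refine (norm_add_le _ _).trans (add_le_add ((norm_add_le _ _).trans (add_le_add ?_ ?_)) ?_)
    · rw [norm_mul, Complex.norm_conj]
    · rw [norm_mul, Complex.norm_conj]
    · rw [norm_mul, norm_mul, Complex.norm_conj, Complex.norm_real, Real.norm_eq_abs,
        abs_sub_comm]
  have hCε : 0 ≤ C * ε := by positivity
  have h2 : ‖a - A‖ * ‖b‖ ≤ (C * ε * r) * ((1 + C * ε) * r) :=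
    mul_le_mul ha hb' (norm_nonneg _) (by positivity)
  have h3 : ‖A‖ * ‖b - B‖ ≤ r * (C * ε * r) := mul_le_mul hA hb (norm_nonneg _) hs0
  have h4 : ‖A‖ * ‖B‖ * |m - 1| ≤ (r * r) * (C * ε) :=
    mul_le_mul (mul_le_mul hA hB (norm_nonneg _) hs0) hm1 (abs_nonneg _) (by positivity)
  have h5 : (C * ε * r) * ((1 + C * ε) * r) + r * (C * ε * r) + (r * r) * (C * ε) =
      (3 * (C * ε) + (C * ε) ^ 2) * ν := by
    rw [← hs]; ring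
  have h6 : (3 * (C * ε) + (C * ε) ^ 2) * ν ≤ (6 * C + C ^ 2) * ε * ν * (1 / 2) := by
    have : (3 * (C * ε) + (C * ε) ^ 2) ≤ (6 * C + C ^ 2) * ε * (1 / 2) := by
      have h7 : C ^ 2 * (ε * (1 / 2 - ε)) ≥ 0 := by
        apply mul_nonneg (by positivity)
        exact mul_nonneg hε.le (by linarith)
      nlinarith
    nlinarith
  have h8 : 0 ≤ (6 * C + C ^ 2) * ε * ν := by positivity
  nlinarith

theorem db_pp_bound (κ : ℂ → ℂ) (ε : ℝ) (hε : 0 < ε) (t : ℂ)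
    (hlow : (ε ^ 2 + ‖t‖ ^ 2) * (49 / 50) ≤ nu κ ε t) (hrho : ‖rho κ t‖ ≤ 103 / 100) :
    ‖pp κ ε t‖ ≤ 2 * ε / (ε ^ 2 + ‖t‖ ^ 2) := by
  have h0 : 0 < ε ^ 2 + ‖t‖ ^ 2 := by positivity
  have hν : 0 < nu κ ε t := lt_of_lt_of_le (by positivity) hlow
  unfold pp
  rw [norm_div, norm_mul, Complex.norm_real, Complex.norm_real, Real.norm_of_nonneg hε.le,
    Real.norm_of_nonneg hν.le]
  rw [div_le_div_iff₀ hν h0]
  calc ε * ‖rho κ t‖ * (ε ^ 2 + ‖t‖ ^ 2) ≤ ε * (103 / 100) * (ε ^ 2 + ‖t‖ ^ 2) := by gcongr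
    _ ≤ 2 * ε * nu κ ε t := by nlinarith

theorem db_diffAt (f : ℂ → ℂ) (hf : ContDiffOn ℝ ∞ f (ball 0 (13 / 10))) (t : ℂ)
    (ht : ‖t‖ < 13 / 10) : DifferentiableAt ℝ f t :=
  (hf.contDiffAt (isOpen_ball.mem_nhds (mem_ball_zero_iff.2 ht))).differentiableAt (by simp)

theorem db_N0 (κ : ℂ → ℂ) (ε : ℝ) (hε : 0 < ε) (t : ℂ) :
    ∀ i j, ‖N0 κ ε t i j‖ ≤ Real.sqrt (nu κ ε t) := by
  have hk : ‖(ε : ℂ) * κ t‖ ≤ Real.sqrt (nu κ ε t) := by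
    apply Real.le_sqrt_of_sq_le
    rw [norm_mul, mul_pow, Complex.norm_real, Real.norm_of_nonneg hε.le]
    unfold nu
    have := sq_nonneg ‖t‖
    linarith
  have hk' : ‖(ε : ℂ) * conj (κ t)‖ ≤ Real.sqrt (nu κ ε t) := by
    rw [norm_mul, Complex.norm_conj, ← norm_mul]
    exact hk
  have htn : ‖t‖ ≤ Real.sqrt (nu κ ε t) := by
    apply Real.le_sqrt_of_sq_le
    unfold nu
    have : 0 ≤ ε ^ 2 * ‖κ t‖ ^ 2 := by positivity
    linarith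
  intro i j
  fin_cases i <;> fin_cases j
  · exact hk'
  · exact htn
  · show ‖- conj t‖ ≤ _
    rw [norm_neg, Complex.norm_conj]
    exact htn
  · exact hk

/-- the normals are close -/
theorem db_nor {ε η : ℝ} {κ h : ℂ → ℂ} {φ χ : ℂ → Matrix (Fin 2) (Fin 2) ℂ}
    {m0 m1 : ℂ → ℝ} (hF : Frame ε η κ h φ χ m0 m1) (t : ℂ) (ht : ‖t‖ ≤ 6 / 5) :
    ‖nor φ t - nor (N0 κ ε) t‖ ≤ 1000 * η * ε := by
  have ht' : ‖t‖ < 13 / 10 := by linarith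
  obtain ⟨hs0, hs1, hs2, hs3, hs4, hs5, hs6, hs7, hs8⟩ := surf_deriv hF
  have hε := hF.ε_pos
  have hε2 := hF.ε_le
  have hη := hF.η_pos
  have hη1 := hF.η_le
  obtain ⟨hf1, hf2, hf3, hf4⟩ := sphere_facts hε hε2 hη hη1 hF.kd
  obtain ⟨hν, hlow, hup, hr1, hr2⟩ := hf1 t ht'
  obtain ⟨g01, g00, -⟩ := hf2 t ht'
  obtain ⟨-, hm0p, hm1p⟩ := hs0 t ht'
  have hcl := hF.close t ht'
  have hb0 := hF.bm0 t ht'
  have hb1 := hF.bm1 t ht'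
  have hNa := db_N0 κ ε hε t
  have hηε : η * ε ≤ 1 / 200 := by nlinarith
  have hm0a : 1 / 2 < m0 t := by
    have := (abs_le.1 hb0).1
    linarith
  have hm1a : 1 / 2 < m1 t := by
    have := (abs_le.1 hb1).1
    linarith
  have E1 := db_est_prod (nu κ ε t) η ε (m0 t) _ _ _ _ hν hη hε hε2 hm0a hb0 (hNa 0 0) (hNa 1 0)
    (hcl 0 0) (hcl 1 0)
  have E2 := db_est_prod (nu κ ε t) η ε (m1 t) _ _ _ _ hν hη hε hε2 hm1a hb1 (hNa 0 1) (hNa 1 1)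
    (hcl 0 1) (hcl 1 1)
  have E3 := db_est_prod (nu κ ε t) η ε (m0 t) _ _ _ _ hν hη hε hε2 hm0a hb0 (hNa 0 0) (hNa 0 0)
    (hcl 0 0) (hcl 0 0)
  have E4 := db_est_prod (nu κ ε t) η ε (m1 t) _ _ _ _ hν hη hε hε2 hm1a hb1 (hNa 0 1) (hNa 0 1)
    (hcl 0 1) (hcl 0 1)
  have hK : (6 * η + η ^ 2) * ε * nu κ ε t ≤ 7 * η * ε * nu κ ε t := by
    have h1 : 6 * η + η ^ 2 ≤ 7 * η := by nlinarith
    have h2 : 0 ≤ ε * nu κ ε t := by positivity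
    nlinarith
  have E1' := E1.trans hK
  have E2' := E2.trans hK
  have E3' := E3.trans hK
  have E4' := E4.trans hK
  have hm00 : ((m0 t : ℝ) : ℂ) ≠ 0 := by exact_mod_cast hm0p.ne'
  have hm10 : ((m1 t : ℝ) : ℂ) ≠ 0 := by exact_mod_cast hm1p.ne'
  have hν0 : ((nu κ ε t : ℝ) : ℂ) ≠ 0 := by exact_mod_cast hν.ne'
  have hnor : ∀ j, norM (φ t) 0 j = φ t 0 0 * (φ t)⁻¹ 0 j - φ t 0 1 * (φ t)⁻¹ 1 j := by
    intro j
    unfold norM sg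
    simp [Matrix.mul_apply, Fin.sum_univ_two]
    ring
  have h01 : n01 φ t - n01 (N0 κ ε) t = (1 / ((nu κ ε t : ℝ) : ℂ)) *
      ((φ t 0 0 * conj (φ t 1 0) / ((m0 t : ℝ) : ℂ) - N0 κ ε t 0 0 * conj (N0 κ ε t 1 0)) -
       (φ t 0 1 * conj (φ t 1 1) / ((m1 t : ℝ) : ℂ) - N0 κ ε t 0 1 * conj (N0 κ ε t 1 1))) := by
    rw [g01]
    unfold n01
    rw [hnor, hs3 t ht']
    have e1 : N0 κ ε t 0 0 = (ε : ℂ) * conj (κ t) := rfl
    have e2 : N0 κ ε t 0 1 = t := rfl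
    have e3 : N0 κ ε t 1 0 = - conj t := rfl
    have e4 : N0 κ ε t 1 1 = (ε : ℂ) * κ t := rfl
    rw [e1, e2, e3, e4]
    simp only [map_neg, map_mul, Complex.conj_conj, Complex.conj_ofReal, Matrix.of_apply,
      Matrix.cons_val_zero, Matrix.cons_val_one, Matrix.cons_val', Matrix.cons_val_fin_one]
    push_cast
    field_simp
    ring
  have h00 : (((n00 φ t - n00 (N0 κ ε) t : ℝ)) : ℂ) = (1 / ((nu κ ε t : ℝ) : ℂ)) *
      ((φ t 0 0 * conj (φ t 0 0) / ((m0 t : ℝ) : ℂ) - N0 κ ε t 0 0 * conj (N0 κ ε t 0 0)) -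
       (φ t 0 1 * conj (φ t 0 1) / ((m1 t : ℝ) : ℂ) - N0 κ ε t 0 1 * conj (N0 κ ε t 0 1))) := by
    have e0 : norM (φ t) 0 0 = ((‖φ t 0 0‖ ^ 2 / (nu κ ε t * m0 t) -
        ‖φ t 0 1‖ ^ 2 / (nu κ ε t * m1 t) : ℝ) : ℂ) := by
      rw [hnor, hs3 t ht']
      simp only [Matrix.of_apply,
        Matrix.cons_val_zero, Matrix.cons_val_one, Matrix.cons_val', Matrix.cons_val_fin_one]
      rw [← mul_div_assoc, ← mul_div_assoc, Complex.mul_conj, Complex.mul_conj,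
        Complex.normSq_eq_norm_sq, Complex.normSq_eq_norm_sq]
      push_cast
      ring
    have e5 : n00 φ t = ‖φ t 0 0‖ ^ 2 / (nu κ ε t * m0 t) -
        ‖φ t 0 1‖ ^ 2 / (nu κ ε t * m1 t) := by
      unfold n00
      rw [e0, Complex.ofReal_re]
    rw [e5, g00]
    have e1 : N0 κ ε t 0 0 = (ε : ℂ) * conj (κ t) := rfl
    have e2 : N0 κ ε t 0 1 = t := rfl
    rw [e1, e2, Complex.mul_conj, Complex.mul_conj, Complex.mul_conj, Complex.mul_conj,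
      Complex.normSq_eq_norm_sq, Complex.normSq_eq_norm_sq, Complex.normSq_eq_norm_sq,
      Complex.normSq_eq_norm_sq, norm_mul, Complex.norm_conj, Complex.norm_real,
      Real.norm_of_nonneg hε.le]
    have e6 : nu κ ε t - 2 * (ε ^ 2 * ‖κ t‖ ^ 2) = ‖t‖ ^ 2 - (ε * ‖κ t‖) ^ 2 := by
      unfold nu
      ring
    have e7 : ‖φ t 0 0‖ ^ 2 / (nu κ ε t * m0 t) - ‖φ t 0 1‖ ^ 2 / (nu κ ε t * m1 t) -
        (2 * ε ^ 2 * ‖κ t‖ ^ 2 / nu κ ε t - 1) = (1 / nu κ ε t) *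
        ((‖φ t 0 0‖ ^ 2 / m0 t - (ε * ‖κ t‖) ^ 2) - (‖φ t 0 1‖ ^ 2 / m1 t - ‖t‖ ^ 2)) := by
      have : (‖φ t 0 0‖ ^ 2 / m0 t - (ε * ‖κ t‖) ^ 2) - (‖φ t 0 1‖ ^ 2 / m1 t - ‖t‖ ^ 2) =
          ‖φ t 0 0‖ ^ 2 / m0 t - ‖φ t 0 1‖ ^ 2 / m1 t + (nu κ ε t - 2 * (ε ^ 2 * ‖κ t‖ ^ 2)) := by
        rw [e6]
        ring
      rw [this]
      field_simp
      ring
    rw [e7]
    push_cast
    ring
  have b01 : ‖n01 φ t - n01 (N0 κ ε) t‖ ≤ 14 * η * ε := by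
    rw [h01, norm_mul, norm_div, norm_one, Complex.norm_real, Real.norm_of_nonneg hν.le]
    have h1 := (norm_sub_le (φ t 0 0 * conj (φ t 1 0) / ((m0 t : ℝ) : ℂ) -
      N0 κ ε t 0 0 * conj (N0 κ ε t 1 0)) (φ t 0 1 * conj (φ t 1 1) / ((m1 t : ℝ) : ℂ) -
      N0 κ ε t 0 1 * conj (N0 κ ε t 1 1))).trans (add_le_add E1' E2')
    calc 1 / nu κ ε t * _ ≤ 1 / nu κ ε t * (7 * η * ε * nu κ ε t + 7 * η * ε * nu κ ε t) :=
          mul_le_mul_of_nonneg_left h1 (by positivity)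
      _ = 14 * η * ε := by
          field_simp
          ring
  have b00 : |n00 φ t - n00 (N0 κ ε) t| ≤ 14 * η * ε := by
    rw [← Real.norm_eq_abs, ← Complex.norm_real, h00, norm_mul, norm_div, norm_one,
      Complex.norm_real, Real.norm_of_nonneg hν.le]
    have h1 := (norm_sub_le (φ t 0 0 * conj (φ t 0 0) / ((m0 t : ℝ) : ℂ) -
      N0 κ ε t 0 0 * conj (N0 κ ε t 0 0)) (φ t 0 1 * conj (φ t 0 1) / ((m1 t : ℝ) : ℂ) -
      N0 κ ε t 0 1 * conj (N0 κ ε t 0 1))).trans (add_le_add E3' E4')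
    calc 1 / nu κ ε t * _ ≤ 1 / nu κ ε t * (7 * η * ε * nu κ ε t + 7 * η * ε * nu κ ε t) :=
          mul_le_mul_of_nonneg_left h1 (by positivity)
      _ = 14 * η * ε := by
          field_simp
          ring
  have hd : nor φ t - nor (N0 κ ε) t =
      db_LL3 (n01 φ t - n01 (N0 κ ε) t, n00 φ t - n00 (N0 κ ε) t) := by
    rw [db_LL3_apply]
    unfold nor
    ext i
    fin_cases i <;> simp
  rw [hd]
  refine (db_LL3_norm _ _).trans ?_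
  have : 0 ≤ η * ε := by positivity
  linarith

/-- derivative bounds -/
theorem db_der {ε η : ℝ} {κ h : ℂ → ℂ} {φ χ : ℂ → Matrix (Fin 2) (Fin 2) ℂ}
    {m0 m1 : ℂ → ℝ} (hF : Frame ε η κ h φ χ m0 m1) (t : ℂ) (ht : ‖t‖ ≤ 6 / 5) :
    DifferentiableAt ℝ (fun s => pos φ χ s - nor (N0 κ ε) s) t ∧
      ‖fderiv ℝ (fun s => pos φ χ s - nor (N0 κ ε) s) t‖ ≤
        1000 * η * ε ^ 2 / (ε ^ 2 + ‖t‖ ^ 2) ∧
      DifferentiableAt ℝ (fun s => X00 φ χ s - n00 (N0 κ ε) s) t ∧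
      ‖fderiv ℝ (fun s => X00 φ χ s - n00 (N0 κ ε) s) t‖ ≤
        1000 * η * ε ^ 2 / (ε ^ 2 + ‖t‖ ^ 2) := by
  have ht' : ‖t‖ < 13 / 10 := by linarith
  obtain ⟨hs0, hs1, hs2, hs3, hs4, hs5, hs6, hs7, hs8⟩ := surf_deriv hF
  have hε := hF.ε_pos
  have hε2 := hF.ε_le
  have hη := hF.η_pos
  have hη1 := hF.η_le
  obtain ⟨hf1, hf2, hf3, hf4⟩ := sphere_facts hε hε2 hη hη1 hF.kd
  obtain ⟨hν, hlow, hup, hr1, hr2⟩ := hf1 t ht'
  obtain ⟨-, hdn01, hdn00, hfn⟩ := hf3 t ht'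
  obtain ⟨-, hm0p, hm1p⟩ := hs0 t ht'
  have hdX01 : DifferentiableAt ℝ (X01 φ χ) t := db_diffAt _ (hs1 0 1) t ht'
  have hdX00 : DifferentiableAt ℝ (X00 φ χ) t := by
    have h1 := db_diffAt _ (hs1 0 0) t ht'
    exact (Complex.reCLM.differentiableAt).comp t h1
  have hY : HasFDerivAt (fun s => pos φ χ s - nor (N0 κ ε) s)
      (db_LL3.comp ((fderiv ℝ (X01 φ χ) t - fderiv ℝ (n01 (N0 κ ε)) t).prod
        (fderiv ℝ (X00 φ χ) t - fderiv ℝ (n00 (N0 κ ε)) t))) t := by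
    have h1 : HasFDerivAt
        (fun s => ((X01 φ χ s - n01 (N0 κ ε) s, X00 φ χ s - n00 (N0 κ ε) s) : ℂ × ℝ))
        ((fderiv ℝ (X01 φ χ) t - fderiv ℝ (n01 (N0 κ ε)) t).prod
        (fderiv ℝ (X00 φ χ) t - fderiv ℝ (n00 (N0 κ ε)) t)) t :=
      (hdX01.hasFDerivAt.sub hdn01.hasFDerivAt).prodMk (hdX00.hasFDerivAt.sub hdn00.hasFDerivAt)
    have h2 := db_LL3.hasFDerivAt.comp t h1
    have h3 : (fun s => pos φ χ s - nor (N0 κ ε) s) =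
        (⇑db_LL3 ∘ fun s => ((X01 φ χ s - n01 (N0 κ ε) s, X00 φ χ s - n00 (N0 κ ε) s) : ℂ × ℝ)) := by
      funext s
      show pos φ χ s - nor (N0 κ ε) s =
        db_LL3 (X01 φ χ s - n01 (N0 κ ε) s, X00 φ χ s - n00 (N0 κ ε) s)
      rw [db_LL3_apply]
      unfold pos nor
      ext i
      fin_cases i <;> simp
    rw [h3]
    exact h2
  have hY2 : HasFDerivAt (fun s => X00 φ χ s - n00 (N0 κ ε) s)
      (fderiv ℝ (X00 φ χ) t - fderiv ℝ (n00 (N0 κ ε)) t) t :=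
    hdX00.hasFDerivAt.sub hdn00.hasFDerivAt
  -- bounds of the entries
  have hcl := hF.close t ht'
  have hm1c := hF.bm1 t ht'
  have hNa := db_N0 κ ε hε t
  have hηε : η * ε ≤ 1 / 200 := by nlinarith
  have hm1a : 1 / 2 < m1 t := by
    have := (abs_le.1 hm1c).1
    linarith
  have E1 := db_est_prod (nu κ ε t) η ε (m1 t) _ _ _ _ hν hη hε hε2 hm1a hm1c (hNa 0 0) (hNa 1 1)
    (hcl 0 0) (hcl 1 1)
  have E2 := db_est_prod (nu κ ε t) η ε (m1 t) _ _ _ _ hν hη hε hε2 hm1a hm1c (hNa 0 1) (hNa 1 0)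
    (hcl 0 1) (hcl 1 0)
  have E3 := db_est_prod (nu κ ε t) η ε (m1 t) _ _ _ _ hν hη hε hε2 hm1a hm1c (hNa 0 0) (hNa 0 1)
    (hcl 0 0) (hcl 0 1)
  have hp := db_pp_bound κ ε hε t hlow hr2
  have h0 : 0 < ε ^ 2 + ‖t‖ ^ 2 := by positivity
  obtain ⟨K, hK⟩ : ∃ K : ℝ, K = 6 * η + η ^ 2 := ⟨_, rfl⟩
  have hK0 : 0 < K := by rw [hK]; positivity
  have hK7 : K ≤ 7 * η := by rw [hK]; nlinarith
  rw [← hK] at E1 E2 E3
  have hm10 : ((m1 t : ℝ) : ℂ) ≠ 0 := by exact_mod_cast hm1p.ne'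
  have hν0 : ((nu κ ε t : ℝ) : ℂ) ≠ 0 := by exact_mod_cast hν.ne'
  have hKp : K * ε * ‖pp κ ε t‖ ≤ 14 * η * ε ^ 2 / (ε ^ 2 + ‖t‖ ^ 2) := by
    calc K * ε * ‖pp κ ε t‖ ≤ (7 * η) * ε * (2 * ε / (ε ^ 2 + ‖t‖ ^ 2)) := by gcongr
      _ = _ := by ring
  have hv1 : ∀ v : ℂ, ‖fderiv ℝ (X01 φ χ) t v - fderiv ℝ (n01 (N0 κ ε)) t v‖ ≤
      4 * (K * ε * ‖pp κ ε t‖) * ‖v‖ := by
    intro v
    rw [hs6 t ht' v, (hfn v).1]
    have e1 : -(2 / ((nu κ ε t * m1 t : ℝ) : ℂ)) *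
        (v * pp κ ε t * φ t 0 0 * conj (φ t 1 1)
          + conj v * conj (pp κ ε t) * φ t 0 1 * conj (φ t 1 0)) -
        -(2 / (nu κ ε t : ℂ)) *
          (v * pp κ ε t * N0 κ ε t 0 0 * conj (N0 κ ε t 1 1)
            + conj v * conj (pp κ ε t) * N0 κ ε t 0 1 * conj (N0 κ ε t 1 0)) =
        -(2 / (nu κ ε t : ℂ)) * (v * pp κ ε t * (φ t 0 0 * conj (φ t 1 1) / (m1 t : ℂ) -
          N0 κ ε t 0 0 * conj (N0 κ ε t 1 1)) + conj v * conj (pp κ ε t) *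
          (φ t 0 1 * conj (φ t 1 0) / (m1 t : ℂ) - N0 κ ε t 0 1 * conj (N0 κ ε t 1 0))) := by
      push_cast
      field_simp
      ring
    rw [e1, norm_mul, norm_neg, norm_div, Complex.norm_real, Real.norm_of_nonneg hν.le]
    have e2 : ‖(2 : ℂ)‖ = 2 := by simp
    rw [e2]
    have e3 : ‖v * pp κ ε t * (φ t 0 0 * conj (φ t 1 1) / (m1 t : ℂ) -
          N0 κ ε t 0 0 * conj (N0 κ ε t 1 1)) + conj v * conj (pp κ ε t) *
          (φ t 0 1 * conj (φ t 1 0) / (m1 t : ℂ) - N0 κ ε t 0 1 * conj (N0 κ ε t 1 0))‖ ≤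
        ‖v‖ * ‖pp κ ε t‖ * (K * ε * nu κ ε t) + ‖v‖ * ‖pp κ ε t‖ * (K * ε * nu κ ε t) := by
      refine (norm_add_le _ _).trans (add_le_add ?_ ?_)
      · rw [norm_mul, norm_mul]
        exact mul_le_mul_of_nonneg_left E1 (by positivity)
      · rw [norm_mul, norm_mul, Complex.norm_conj, Complex.norm_conj]
        exact mul_le_mul_of_nonneg_left E2 (by positivity)
    calc 2 / nu κ ε t * _ ≤ 2 / nu κ ε t * (‖v‖ * ‖pp κ ε t‖ * (K * ε * nu κ ε t) +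
          ‖v‖ * ‖pp κ ε t‖ * (K * ε * nu κ ε t)) :=
          mul_le_mul_of_nonneg_left e3 (by positivity)
      _ = 4 * (K * ε * ‖pp κ ε t‖) * ‖v‖ := by
          field_simp
          ring
  have hv2 : ∀ v : ℂ, |fderiv ℝ (X00 φ χ) t v - fderiv ℝ (n00 (N0 κ ε)) t v| ≤
      4 * (K * ε * ‖pp κ ε t‖) * ‖v‖ := by
    intro v
    rw [hs7 t ht' v, (hfn v).2]
    have e1 : -(4 / (nu κ ε t * m1 t)) *
        (v * pp κ ε t * φ t 0 0 * conj (φ t 0 1)).re -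
        -(4 / nu κ ε t) * (v * pp κ ε t * N0 κ ε t 0 0 * conj (N0 κ ε t 0 1)).re =
        -(4 / nu κ ε t) * (v * pp κ ε t * (φ t 0 0 * conj (φ t 0 1) / (m1 t : ℂ) -
          N0 κ ε t 0 0 * conj (N0 κ ε t 0 1))).re := by
      have e2 : v * pp κ ε t * (φ t 0 0 * conj (φ t 0 1) / (m1 t : ℂ) -
          N0 κ ε t 0 0 * conj (N0 κ ε t 0 1)) =
          (((m1 t)⁻¹ : ℝ) : ℂ) * (v * pp κ ε t * φ t 0 0 * conj (φ t 0 1)) -
            v * pp κ ε t * N0 κ ε t 0 0 * conj (N0 κ ε t 0 1) := by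
        push_cast
        field_simp
      rw [e2, Complex.sub_re, Complex.re_ofReal_mul]
      have : m1 t ≠ 0 := hm1p.ne'
      field_simp
      ring
    rw [e1, abs_mul, abs_neg, abs_of_pos (by positivity : 0 < 4 / nu κ ε t)]
    have e3 : |(v * pp κ ε t * (φ t 0 0 * conj (φ t 0 1) / (m1 t : ℂ) -
          N0 κ ε t 0 0 * conj (N0 κ ε t 0 1))).re| ≤ ‖v‖ * ‖pp κ ε t‖ * (K * ε * nu κ ε t) := by
      refine (Complex.abs_re_le_norm _).trans ?_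
      rw [norm_mul, norm_mul]
      exact mul_le_mul_of_nonneg_left E3 (by positivity)
    calc 4 / nu κ ε t * _ ≤ 4 / nu κ ε t * (‖v‖ * ‖pp κ ε t‖ * (K * ε * nu κ ε t)) :=
          mul_le_mul_of_nonneg_left e3 (by positivity)
      _ = 4 * (K * ε * ‖pp κ ε t‖) * ‖v‖ := by
          field_simp
  have h9 : 8 * (K * ε * ‖pp κ ε t‖) ≤ 1000 * η * ε ^ 2 / (ε ^ 2 + ‖t‖ ^ 2) := by
    calc 8 * (K * ε * ‖pp κ ε t‖) ≤ 8 * (14 * η * ε ^ 2 / (ε ^ 2 + ‖t‖ ^ 2)) :=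
          mul_le_mul_of_nonneg_left hKp (by norm_num)
      _ = (112 * η * ε ^ 2) / (ε ^ 2 + ‖t‖ ^ 2) := by ring
      _ ≤ 1000 * η * ε ^ 2 / (ε ^ 2 + ‖t‖ ^ 2) := by
          apply div_le_div_of_nonneg_right _ h0.le
          have : 0 ≤ η * ε ^ 2 := by positivity
          linarith
  have h10 : 0 ≤ K * ε * ‖pp κ ε t‖ := by positivity
  refine ⟨hY.differentiableAt, ?_, hY2.differentiableAt, ?_⟩
  · rw [hY.fderiv]
    apply ContinuousLinearMap.opNorm_le_bound _ (by positivity)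
    intro v
    have hv3 := db_LL3_norm (fderiv ℝ (X01 φ χ) t v - fderiv ℝ (n01 (N0 κ ε)) t v)
      (fderiv ℝ (X00 φ χ) t v - fderiv ℝ (n00 (N0 κ ε)) t v)
    have hv4 : ‖(db_LL3.comp ((fderiv ℝ (X01 φ χ) t - fderiv ℝ (n01 (N0 κ ε)) t).prod
          (fderiv ℝ (X00 φ χ) t - fderiv ℝ (n00 (N0 κ ε)) t))) v‖ ≤
        8 * (K * ε * ‖pp κ ε t‖) * ‖v‖ := by
      refine hv3.trans ?_
      have := hv1 v
      have := hv2 v
      linarith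
    refine hv4.trans ?_
    exact mul_le_mul_of_nonneg_right h9 (norm_nonneg _)
  · rw [hY2.fderiv]
    apply ContinuousLinearMap.opNorm_le_bound _ (by positivity)
    intro v
    have h11 : ‖(fderiv ℝ (X00 φ χ) t - fderiv ℝ (n00 (N0 κ ε)) t) v‖ ≤
        4 * (K * ε * ‖pp κ ε t‖) * ‖v‖ := hv2 v
    refine h11.trans (mul_le_mul_of_nonneg_right ?_ (norm_nonneg _))
    linarith

/-- JOB J4 (the only target): closeness to the sphere, with an absolute constant. -/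
theorem diff_bound : ∃ C3 : ℝ, 0 < C3 ∧ ∀ (ε η : ℝ) (κ h : ℂ → ℂ)
    (φ χ : ℂ → Matrix (Fin 2) (Fin 2) ℂ) (m0 m1 : ℂ → ℝ), Frame ε η κ h φ χ m0 m1 →
    ∀ t : ℂ, ‖t‖ ≤ 6 / 5 →
      DifferentiableAt ℝ (fun s => pos φ χ s - nor (N0 κ ε) s) t ∧
      ‖fderiv ℝ (fun s => pos φ χ s - nor (N0 κ ε) s) t‖ ≤ C3 * η * ε ^ 2 / (ε ^ 2 + ‖t‖ ^ 2) ∧
      DifferentiableAt ℝ (fun s => X00 φ χ s - n00 (N0 κ ε) s) t ∧
      ‖fderiv ℝ (fun s => X00 φ χ s - n00 (N0 κ ε) s) t‖ ≤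
        C3 * η * ε ^ 2 / (ε ^ 2 + ‖t‖ ^ 2) ∧
      ‖nor φ t - nor (N0 κ ε) t‖ ≤ C3 * η * ε := by
  refine ⟨1000, by norm_num, ?_⟩
  intro ε η κ h φ χ m0 m1 hF t ht
  obtain ⟨h1, h2, h3, h4⟩ := db_der hF t ht
  exact ⟨h1, h2, h3, h4, db_nor hF t ht⟩

end Pool.Agent.Helper87.VT.P2
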