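import Mathlib
import Pool.Agent.Helper87.VT.Defs
import Pool.Agent.Helper676.VT.J3
import Pool.Agent.Helper87.CMC.ChordH1

set_option autoImplicit false

open Set Metric Matrix
open scoped ContDiff ComplexConjugate

namespace Pool.Agent.Helper87.VT.P2

open Pool.Agent.Helper87.CMC (chord_arc)






/-- JOB J5 (the only target): injectivity. -/
theorem surf_inj {ε η C3 : ℝ} {κ h : ℂ → ℂ} {φ χ : ℂ → Matrix (Fin 2) (Fin 2) ℂ}
    {m0 m1 : ℂ → ℝ} (hF : Frame ε η κ h φ χ m0 m1) (hC3 : 0 < C3) (hη : C3 * η ≤ 1 / 10)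
    (hdiff : ∀ t : ℂ, ‖t‖ ≤ 6 / 5 →
      DifferentiableAt ℝ (fun s => pos φ χ s - nor (N0 κ ε) s) t ∧
      ‖fderiv ℝ (fun s => pos φ χ s - nor (N0 κ ε) s) t‖ ≤ C3 * η * ε ^ 2 / (ε ^ 2 + ‖t‖ ^ 2)) :
    InjOn (pos φ χ) (closedBall 0 (6 / 5)) := by
  have hε := hF.ε_pos
  have hη0 := hF.η_pos
  obtain ⟨hs1, -, -, hs4⟩ := sphere_facts hε hF.ε_le hη0 hF.η_le hF.kd
  have hc : 0 ≤ C3 * η * ε ^ 2 := by positivity
  have key := chord_arc ε (6 / 5) (C3 * η * ε ^ 2) hε hc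
    (fun s => pos φ χ s - nor (N0 κ ε) s)
    (fun t ht => (hdiff t (by simpa using ht)).1) (fun t ht => (hdiff t (by simpa using ht)).2)
  intro s hs t ht hst
  by_contra hne
  have hs' : ‖s‖ ≤ 6 / 5 := by simpa using hs
  have ht' : ‖t‖ ≤ 6 / 5 := by simpa using ht
  have k1 := key s hs t ht
  have k2 := hs4 s t (by linarith) (by linarith)
  have e1 : pos φ χ s - nor (N0 κ ε) s - (pos φ χ t - nor (N0 κ ε) t)
      = -(nor (N0 κ ε) s - nor (N0 κ ε) t) := by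
    rw [hst]; abel
  simp only [e1, norm_neg] at k1
  have k3 := k2.trans k1
  obtain ⟨ns, -, ns2, -, -⟩ := hs1 s (by linarith)
  obtain ⟨nt, -, nt2, -, -⟩ := hs1 t (by linarith)
  have hd : 0 < ‖s - t‖ := norm_pos_iff.2 (sub_ne_zero.2 hne)
  set a := Real.sqrt (ε ^ 2 + ‖s‖ ^ 2) with ha
  set b := Real.sqrt (ε ^ 2 + ‖t‖ ^ 2) with hb
  have hap : 0 < a := Real.sqrt_pos.2 (by positivity)
  have hbp : 0 < b := Real.sqrt_pos.2 (by positivity)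
  have hprod : Real.sqrt (nu κ ε s) * Real.sqrt (nu κ ε t) ≤ (103 / 100) * (a * b) := by
    rw [← Real.sqrt_mul ns.le, ha, hb, ← Real.sqrt_mul (by positivity)]
    have e2 : (103 / 100 : ℝ) * Real.sqrt ((ε ^ 2 + ‖s‖ ^ 2) * (ε ^ 2 + ‖t‖ ^ 2))
        = Real.sqrt (((103 / 100) * (ε ^ 2 + ‖s‖ ^ 2)) * ((103 / 100) * (ε ^ 2 + ‖t‖ ^ 2))) := by
      have e3 : ((103 / 100) * (ε ^ 2 + ‖s‖ ^ 2)) * ((103 / 100) * (ε ^ 2 + ‖t‖ ^ 2))
          = (103 / 100 : ℝ) ^ 2 * ((ε ^ 2 + ‖s‖ ^ 2) * (ε ^ 2 + ‖t‖ ^ 2)) := by ring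
      rw [e3, Real.sqrt_mul (show (0:ℝ) ≤ (103 / 100 : ℝ) ^ 2 by positivity), Real.sqrt_sq (show (0:ℝ) ≤ (103 / 100 : ℝ) by norm_num)]
    rw [e2]
    apply Real.sqrt_le_sqrt
    exact mul_le_mul ns2 nt2 nt.le (by positivity)
  have hnp : 0 < Real.sqrt (nu κ ε s) * Real.sqrt (nu κ ε t) :=
    mul_pos (Real.sqrt_pos.2 ns) (Real.sqrt_pos.2 nt)
  have k4 : (19 / 10) * ε * ‖s - t‖ / ((103 / 100) * (a * b))
      ≤ (19 / 10) * ε * ‖s - t‖ / (Real.sqrt (nu κ ε s) * Real.sqrt (nu κ ε t)) := by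
    apply div_le_div_of_nonneg_left (by positivity) hnp hprod
  have k5 := k4.trans k3
  rw [div_le_div_iff₀ (by positivity) (by positivity)] at k5
  have hab : 0 < a * b * ‖s - t‖ := by positivity
  have k6 : (19 / 10) * ε ≤ Real.pi * (C3 * η * ε ^ 2) * (103 / 100) := by
    by_contra hcon
    push Not at hcon
    have := mul_lt_mul_of_pos_right hcon hab
    nlinarith
  have hpi := Real.pi_le_four
  have hpp := Real.pi_pos
  have k7 : C3 * η * ε ^ 2 ≤ ε / 20 := by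
    have h1 : C3 * η * ε ^ 2 ≤ 1 / 10 * ε ^ 2 := by gcongr
    have h2 : ε ^ 2 ≤ ε * (1 / 2) := by nlinarith [hF.ε_le]
    linarith
  have k8 : Real.pi * (C3 * η * ε ^ 2) ≤ 4 * (ε / 20) := by
    apply mul_le_mul hpi k7 hc (by norm_num)
  nlinarith

end Pool.Agent.Helper87.VT.P2
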