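import Mathlib

set_option autoImplicit false

namespace Pool.Agent.Helper676.VT

open Metric MeasureTheory

theorem vol_lower_ball (r : ℝ) (hr : 0 ≤ r) : (volume : Measure ℂ).real (closedBall (0 : ℂ) r) = Real.pi * r ^ 2 := by
  rw [measureReal_def, Complex.volume_closedBall, ENNReal.toReal_mul, ENNReal.toReal_pow,
    ENNReal.toReal_ofReal hr]
  rw [mul_comm]
  rfl

/-- JOB G3: lower bound of the volume integral. -/
theorem vol_lower (c5 C2 C4 : ℝ) (h5 : 0 < c5) (h2 : 0 < C2) (h4 : 0 < C4) :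
    ∃ ε1 : ℝ, 0 < ε1 ∧ ∀ ε : ℝ, 0 < ε → ε < ε1 → ∀ a lam : ℂ → ℝ,
      ContinuousOn (fun t : ℂ => a t * lam t) (closedBall (0 : ℂ) 1) →
      (∀ t : ℂ, ‖t‖ ≤ 1 → ε ^ 2 / (ε ^ 2 + ‖t‖ ^ 2) - C2 * ε ≤ a t) →
      (∀ t : ℂ, ‖t‖ ≤ 1 → c5 * (ε ^ 2 / (ε ^ 2 + ‖t‖ ^ 2) ^ 2) ≤ lam t ∧
        lam t ≤ C4 * (ε ^ 2 / (ε ^ 2 + ‖t‖ ^ 2) ^ 2)) →
      c5 * Real.pi / 32 ≤ ∫ t in closedBall (0 : ℂ) 1, a t * lam t := by
  refine ⟨min 1 (min (1 / (4 * C2)) (c5 / (32 * C2 ^ 3 * C4))), by positivity, ?_⟩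
  intro ε hε hε1 a lam hcont ha hlam
  have e1 : ε < 1 := lt_of_lt_of_le hε1 (min_le_left _ _)
  have e2 : ε < 1 / (4 * C2) := lt_of_lt_of_le hε1 ((min_le_right _ _).trans (min_le_left _ _))
  have e3 : ε < c5 / (32 * C2 ^ 3 * C4) := lt_of_lt_of_le hε1 ((min_le_right _ _).trans (min_le_right _ _))
  have e2' : C2 * ε ≤ 1 / 4 := by
    rw [lt_div_iff₀ (by positivity)] at e2
    linarith
  have e3' : C2 ^ 3 * C4 * ε ≤ c5 / 32 := by
    rw [lt_div_iff₀ (by positivity)] at e3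
    linarith
  have hid : ∀ t : ℂ, ε ^ 2 / (ε ^ 2 + ‖t‖ ^ 2) ^ 2 = (ε ^ 2 / (ε ^ 2 + ‖t‖ ^ 2)) ^ 2 / ε ^ 2 := by
    intro t
    have : 0 < ε ^ 2 + ‖t‖ ^ 2 := by positivity
    field_simp
  have hlow : ∀ t ∈ closedBall (0 : ℂ) 1,
      (closedBall (0 : ℂ) ε).indicator (fun _ => c5 / (16 * ε ^ 2)) t - C2 ^ 3 * C4 * ε ≤ a t * lam t := by
    intro t ht
    have ht1 : ‖t‖ ≤ 1 := by simpa using ht
    have hat := ha t ht1
    obtain ⟨hl1, hl2⟩ := hlam t ht1
    rw [hid t] at hl1 hl2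
    obtain ⟨s, hs⟩ : ∃ s, s = ε ^ 2 / (ε ^ 2 + ‖t‖ ^ 2) := ⟨_, rfl⟩
    have hspos : 0 < s := by rw [hs]; positivity
    rw [← hs] at hat hl1 hl2
    have hlampos : 0 ≤ lam t := le_trans (by positivity) hl1
    have hCp : 0 ≤ C2 ^ 3 * C4 * ε := by positivity
    by_cases hte : t ∈ closedBall (0 : ℂ) ε
    · rw [Set.indicator_of_mem hte]
      have hte' : ‖t‖ ≤ ε := by simpa using hte
      have hs2 : 1 / 2 ≤ s := by
        rw [hs, le_div_iff₀ (by positivity)]
        have : ‖t‖ ^ 2 ≤ ε ^ 2 := pow_le_pow_left₀ (norm_nonneg _) hte' 2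
        linarith
      have ha4 : 1 / 4 ≤ a t := by linarith
      have hl4 : c5 / (4 * ε ^ 2) ≤ lam t := by
        refine le_trans ?_ hl1
        have : c5 / (4 * ε ^ 2) = c5 * ((1 / 2) ^ 2 / ε ^ 2) := by ring
        rw [this]
        apply mul_le_mul_of_nonneg_left _ h5.le
        apply div_le_div_of_nonneg_right _ (by positivity)
        exact pow_le_pow_left₀ (by norm_num) hs2 2
      have : (1 / 4) * (c5 / (4 * ε ^ 2)) ≤ a t * lam t :=
        mul_le_mul ha4 hl4 (by positivity) (by linarith)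
      have e : (1 / 4) * (c5 / (4 * ε ^ 2)) = c5 / (16 * ε ^ 2) := by ring
      linarith
    · rw [Set.indicator_of_notMem hte]
      by_cases h0 : 0 ≤ a t
      · have := mul_nonneg h0 hlampos
        linarith
      · push Not at h0
        have hs3 : s < C2 * ε := by linarith
        have hl5 : lam t ≤ C4 * C2 ^ 2 := by
          refine hl2.trans ?_
          apply mul_le_mul_of_nonneg_left _ h4.le
          rw [div_le_iff₀ (by positivity)]
          calc s ^ 2 ≤ (C2 * ε) ^ 2 := pow_le_pow_left₀ hspos.le hs3.le 2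
            _ = C2 ^ 2 * ε ^ 2 := by ring
        have ha5 : -(a t) ≤ C2 * ε := by linarith
        have : (-(a t)) * lam t ≤ (C2 * ε) * (C4 * C2 ^ 2) :=
          mul_le_mul ha5 hl5 hlampos (by positivity)
        nlinarith
  have hint : IntegrableOn (fun t : ℂ => a t * lam t) (closedBall (0 : ℂ) 1) :=
    hcont.integrableOn_compact (isCompact_closedBall _ _)
  have hi1 : Integrable ((closedBall (0 : ℂ) ε).indicator (fun _ => c5 / (16 * ε ^ 2)))
      (volume.restrict (closedBall (0 : ℂ) 1)) := by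
    rw [integrable_indicator_iff measurableSet_closedBall]
    have : IsFiniteMeasure (volume.restrict (closedBall (0 : ℂ) 1)) :=
      ⟨by rw [Measure.restrict_apply_univ]; exact measure_closedBall_lt_top⟩
    exact (integrable_const _).integrableOn
  have hi2 : Integrable (fun _ : ℂ => C2 ^ 3 * C4 * ε) (volume.restrict (closedBall (0 : ℂ) 1)) := by
    have : IsFiniteMeasure (volume.restrict (closedBall (0 : ℂ) 1)) :=
      ⟨by rw [Measure.restrict_apply_univ]; exact measure_closedBall_lt_top⟩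
    exact integrable_const _
  have hi3 : Integrable (fun t => (closedBall (0 : ℂ) ε).indicator (fun _ => c5 / (16 * ε ^ 2)) t - C2 ^ 3 * C4 * ε)
      (volume.restrict (closedBall (0 : ℂ) 1)) := hi1.sub hi2
  have hmono := setIntegral_mono_on hi3 hint measurableSet_closedBall hlow
  refine le_trans ?_ hmono
  rw [integral_sub hi1 hi2, integral_indicator_const _ measurableSet_closedBall, integral_const,
    measureReal_restrict_apply measurableSet_closedBall, measureReal_restrict_apply MeasurableSet.univ,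
    Set.univ_inter, Set.inter_eq_left.mpr (closedBall_subset_closedBall e1.le),
    vol_lower_ball ε hε.le, vol_lower_ball 1 zero_le_one, smul_eq_mul, smul_eq_mul]
  have e : Real.pi * ε ^ 2 * (c5 / (16 * ε ^ 2)) = Real.pi * c5 / 16 := by
    field_simp
  rw [e]
  have := Real.pi_pos
  nlinarith

end Pool.Agent.Helper676.VT
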