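import Mathlib
import Pool.Agent.Helper87.VT.Defs
import Pool.Agent.Helper676.VT.J1

set_option autoImplicit false

open Set Metric Matrix
open scoped ContDiff ComplexConjugate

namespace Pool.Agent.Helper87.VT.P2





theorem J6_alg1 (a b c d p ab bb cb db pb A0 A1 : ℂ) (hA0 : A0 ≠ 0) (hA1 : A1 ≠ 0)
    (h1 : ab * a + cb * c = A0) (h2 : bb * b + db * d = A1) (h3 : ab * b + cb * d = 0)
    (h4 : bb * a + db * c = 0) :
    Complex.I * ((-(4 / A1) * ((p * a * bb + pb * ab * b) / 2)) *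
        (-(2 / A1) * (Complex.I * p * a * db - Complex.I * pb * b * cb)) -
      (-(4 / A1) * ((Complex.I * p * a * bb - Complex.I * pb * ab * b) / 2)) *
        (-(2 / A1) * (p * a * db + pb * b * cb))) =
    4 * (p * pb) * (A0 / A1) * (a * cb / A0 - b * db / A1) := by
  have e1 : Complex.I * ((-(4 / A1) * ((p * a * bb + pb * ab * b) / 2)) *
        (-(2 / A1) * (Complex.I * p * a * db - Complex.I * pb * b * cb)) -
      (-(4 / A1) * ((Complex.I * p * a * bb - Complex.I * pb * ab * b) / 2)) *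
        (-(2 / A1) * (p * a * db + pb * b * cb))) =
      (8 * (p * pb) * (b * bb * a * cb - a * ab * b * db)) / A1 ^ 2 := by
    field_simp
    linear_combination (8 * (p * pb) * (b * bb * a * cb - a * ab * b * db)) * (-1 : ℂ) * Complex.I_sq
  have e2 : 4 * (p * pb) * (A0 / A1) * (a * cb / A0 - b * db / A1) =
      (4 * (p * pb) * (A1 * (a * cb) - A0 * (b * db))) / A1 ^ 2 := by
    field_simp
  rw [e1, e2]
  congr 1
  rw [← h1, ← h2]
  linear_combination (4 * (p * pb)) * ((b * cb) * h4 - (a * db) * h3)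

theorem J6_alg2 (a b c d p ab bb cb db pb A0 A1 : ℂ) (hA0 : A0 ≠ 0) (hA1 : A1 ≠ 0)
    (h1 : ab * a + cb * c = A0) (h2 : bb * b + db * d = A1) :
    (-(2 / A1) * (pb * ab * d + p * bb * c)) *
        (-(2 / A1) * (Complex.I * p * a * db - Complex.I * pb * b * cb)) -
      (-(2 / A1) * (p * a * db + pb * b * cb)) *
        (-(2 / A1) * (-Complex.I * pb * ab * d + Complex.I * p * bb * c)) =
    2 * Complex.I * (4 * (p * pb) * (A0 / A1) * (a * ab / A0 - b * bb / A1)) := by
  have e2 : 2 * Complex.I * (4 * (p * pb) * (A0 / A1) * (a * ab / A0 - b * bb / A1)) =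
      (8 * Complex.I * (p * pb) * (A1 * (a * ab) - A0 * (b * bb))) / A1 ^ 2 := by
    field_simp
    ring
  have e1 : (-(2 / A1) * (pb * ab * d + p * bb * c)) *
        (-(2 / A1) * (Complex.I * p * a * db - Complex.I * pb * b * cb)) -
      (-(2 / A1) * (p * a * db + pb * b * cb)) *
        (-(2 / A1) * (-Complex.I * pb * ab * d + Complex.I * p * bb * c)) =
      (8 * Complex.I * (p * pb) * (a * ab * d * db - b * bb * c * cb)) / A1 ^ 2 := by
    field_simp
    ring
  rw [e1, e2]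
  congr 1
  rw [← h1, ← h2]
  ring

theorem J6_comp {Ψ : ℂ → EuclideanSpace ℝ (Fin 3)} {t : ℂ} (hd : DifferentiableAt ℝ Ψ t)
    (i : Fin 3) {f : ℂ → ℝ} (hf : ∀ s, Ψ s i = f s) (v : ℂ) :
    (fderiv ℝ Ψ t v) i = fderiv ℝ f t v := by
  have h1 : HasFDerivAt (fun s => Ψ s i)
      ((EuclideanSpace.proj i : EuclideanSpace ℝ (Fin 3) →L[ℝ] ℝ) ∘L fderiv ℝ Ψ t) t :=
    (EuclideanSpace.proj i : EuclideanSpace ℝ (Fin 3) →L[ℝ] ℝ).hasFDerivAt.comp t hd.hasFDerivAt
  have h2 : (fun s => Ψ s i) = f := funext hf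
  rw [h2] at h1
  rw [h1.fderiv]
  rfl

/-- JOB J6 (the only target): the oriented area element. -/
theorem det_formula {ε η : ℝ} {κ h : ℂ → ℂ} {φ χ : ℂ → Matrix (Fin 2) (Fin 2) ℂ}
    {m0 m1 : ℂ → ℝ} (hF : Frame ε η κ h φ χ m0 m1) (t : ℂ) (ht : ‖t‖ < 13 / 10)
    (w : EuclideanSpace ℝ (Fin 3)) :
    Matrix.det (Matrix.of ![(w : Fin 3 → ℝ), (fderiv ℝ (pos φ χ) t 1 : Fin 3 → ℝ),
      (fderiv ℝ (pos φ χ) t Complex.I : Fin 3 → ℝ)]) =
      4 * ‖pp κ ε t‖ ^ 2 * (m0 t / m1 t) * inner ℝ w (nor φ t) := by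
  obtain ⟨hpos, hsm, -, hinv, -, -, hX01, hX00, -⟩ := surf_deriv hF
  obtain ⟨hN, hm0, hm1⟩ := hpos t ht
  have hball : ball (0 : ℂ) (13 / 10) ∈ nhds t :=
    isOpen_ball.mem_nhds (mem_ball_zero_iff.mpr ht)
  have hd : ∀ i j, DifferentiableAt ℝ (fun s => symM (φ s) (χ s) i j) t := fun i j =>
    ((hsm i j).contDiffAt hball).differentiableAt (by simp)
  have hd01 : DifferentiableAt ℝ (X01 φ χ) t := hd 0 1
  have hd00 : DifferentiableAt ℝ (X00 φ χ) t :=
    Complex.reCLM.differentiableAt.comp t (hd 0 0)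
  have hdre : ∀ v, fderiv ℝ (fun s => (X01 φ χ s).re) t v = (fderiv ℝ (X01 φ χ) t v).re := by
    intro v
    have h := Complex.reCLM.hasFDerivAt.comp t hd01.hasFDerivAt
    have h2 := h.fderiv
    have h3 : (⇑Complex.reCLM ∘ X01 φ χ) = (fun s => (X01 φ χ s).re) := rfl
    rw [h3] at h2
    rw [h2]
    rfl
  have hdim : ∀ v, fderiv ℝ (fun s => (X01 φ χ s).im) t v = (fderiv ℝ (X01 φ χ) t v).im := by
    intro v
    have h := Complex.imCLM.hasFDerivAt.comp t hd01.hasFDerivAt
    have h2 := h.fderiv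
    have h3 : (⇑Complex.imCLM ∘ X01 φ χ) = (fun s => (X01 φ χ s).im) := rfl
    rw [h3] at h2
    rw [h2]
    rfl
  have hdp : DifferentiableAt ℝ (pos φ χ) t := by
    rw [differentiableAt_euclidean]
    intro i
    fin_cases i
    · exact Complex.reCLM.differentiableAt.comp t hd01
    · exact Complex.imCLM.differentiableAt.comp t hd01
    · exact hd00
  have c0 : ∀ v, (fderiv ℝ (pos φ χ) t v) 0 = (fderiv ℝ (X01 φ χ) t v).re := fun v => by
    rw [← hdre]
    exact J6_comp hdp 0 (fun _ => rfl) v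
  have c1 : ∀ v, (fderiv ℝ (pos φ χ) t v) 1 = (fderiv ℝ (X01 φ χ) t v).im := fun v => by
    rw [← hdim]
    exact J6_comp hdp 1 (fun _ => rfl) v
  have c2 : ∀ v, (fderiv ℝ (pos φ χ) t v) 2 = fderiv ℝ (X00 φ χ) t v := fun v =>
    J6_comp hdp 2 (fun _ => rfl) v
  -- unitarity
  have hu := hF.unit t ht
  have u00 := congrFun (congrFun hu 0) 0
  have u11 := congrFun (congrFun hu 1) 1
  have u01 := congrFun (congrFun hu 0) 1
  have u10 := congrFun (congrFun hu 1) 0
  simp only [Matrix.mul_apply, Fin.sum_univ_two, Matrix.conjTranspose_apply, Matrix.of_apply,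
    Matrix.cons_val', Matrix.cons_val_zero, Matrix.cons_val_one, Matrix.cons_val_fin_one]
    at u00 u11 u01 u10
  set a := φ t 0 0 with ha
  set b := φ t 0 1 with hb
  set c := φ t 1 0 with hc
  set d := φ t 1 1 with hd'
  set p := pp κ ε t with hp
  set A0 : ℝ := nu κ ε t * m0 t with hA0
  set A1 : ℝ := nu κ ε t * m1 t with hA1
  have hA0p : 0 < A0 := mul_pos hN hm0
  have hA1p : 0 < A1 := mul_pos hN hm1
  have hA0c : (A0 : ℂ) ≠ 0 := by exact_mod_cast hA0p.ne'
  have hA1c : (A1 : ℂ) ≠ 0 := by exact_mod_cast hA1p.ne'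
  have hratio : m0 t / m1 t = A0 / A1 := by
    rw [hA0, hA1]
    field_simp
  -- values
  have hP1 := hX01 t ht 1
  have hPI := hX01 t ht Complex.I
  have hz1 := hX00 t ht 1
  have hzI := hX00 t ht Complex.I
  rw [← ha, ← hb, ← hc, ← hd', ← hp, ← hA1] at hP1 hPI
  rw [← ha, ← hb, ← hp, ← hA1] at hz1 hzI
  set P1 := fderiv ℝ (X01 φ χ) t 1 with hP1d
  set PI := fderiv ℝ (X01 φ χ) t Complex.I with hPId
  set z1 := fderiv ℝ (X00 φ χ) t 1 with hz1d
  set zI := fderiv ℝ (X00 φ χ) t Complex.I with hzId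
  have hn01 : n01 φ t = a * conj c / (A0 : ℂ) - b * conj d / (A1 : ℂ) := by
    unfold n01 norM
    rw [hinv t ht]
    simp only [sg, Matrix.mul_apply, Fin.sum_univ_two, Matrix.of_apply,
      Matrix.cons_val', Matrix.cons_val_zero, Matrix.cons_val_one, Matrix.cons_val_fin_one]
    rw [← ha, ← hb, ← hc, ← hd', ← hA0, ← hA1]
    ring
  have hn00 : ((n00 φ t : ℝ) : ℂ) = a * conj a / (A0 : ℂ) - b * conj b / (A1 : ℂ) := by
    have h1 : norM (φ t) 0 0 = a * conj a / (A0 : ℂ) - b * conj b / (A1 : ℂ) := by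
      unfold norM
      rw [hinv t ht]
      simp only [sg, Matrix.mul_apply, Fin.sum_univ_two, Matrix.of_apply,
        Matrix.cons_val', Matrix.cons_val_zero, Matrix.cons_val_one, Matrix.cons_val_fin_one]
      rw [← ha, ← hb, ← hA0, ← hA1]
      ring
    unfold n00
    rw [h1, Complex.mul_conj, Complex.mul_conj]
    rw [← Complex.ofReal_div, ← Complex.ofReal_div, ← Complex.ofReal_sub, Complex.ofReal_re]
  have hz1c : (z1 : ℂ) = -(4 / (A1 : ℂ)) * ((p * a * conj b + conj p * conj a * b) / 2) := by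
    rw [hz1]
    rw [Complex.ofReal_mul, Complex.re_eq_add_conj]
    push_cast
    simp only [map_mul, map_one, Complex.conj_conj]
    ring
  have hzIc : (zI : ℂ) = -(4 / (A1 : ℂ)) *
      ((Complex.I * p * a * conj b - Complex.I * conj p * conj a * b) / 2) := by
    rw [hzI]
    rw [Complex.ofReal_mul, Complex.re_eq_add_conj]
    push_cast
    simp only [map_mul, map_one, Complex.conj_conj, Complex.conj_I]
    ring
  have hP1c : P1 = -(2 / (A1 : ℂ)) * (p * a * conj d + conj p * b * conj c) := by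
    rw [hP1]
    simp only [map_one]
    ring
  have hPIc : PI = -(2 / (A1 : ℂ)) *
      (Complex.I * p * a * conj d - Complex.I * conj p * b * conj c) := by
    rw [hPI]
    simp only [Complex.conj_I]
    ring
  set K : ℝ := 4 * ‖p‖ ^ 2 * (m0 t / m1 t) with hK
  have hKc : (K : ℂ) = 4 * (p * conj p) * ((A0 : ℂ) / (A1 : ℂ)) := by
    rw [hK, hratio, Complex.mul_conj']
    push_cast
    ring
  have u00' : conj a * a + conj c * c = (A0 : ℂ) := u00
  have u11' : conj b * b + conj d * d = (A1 : ℂ) := u11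
  have u01' : conj a * b + conj c * d = 0 := u01
  have u10' : conj b * a + conj d * c = 0 := u10
  have key1 : Complex.I * ((z1 : ℂ) * PI - (zI : ℂ) * P1) = (K : ℂ) * n01 φ t := by
    rw [hz1c, hzIc, hP1c, hPIc, hKc, hn01]
    exact J6_alg1 a b c d p (conj a) (conj b) (conj c) (conj d) (conj p) A0 A1 hA0c hA1c
      u00' u11' u01' u10'
  have key2 : conj P1 * PI - P1 * conj PI = 2 * Complex.I * ((K : ℂ) * ((n00 φ t : ℝ) : ℂ)) := by
    rw [hKc, hn00, hP1c, hPIc]
    have h := J6_alg2 a b c d p (conj a) (conj b) (conj c) (conj d) (conj p) A0 A1 hA0c hA1c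
      u00' u11'
    have h2 : (starRingEnd ℂ) 2 = 2 := map_ofNat _ 2
    simp only [map_mul, map_neg, map_div₀, map_add, map_sub, Complex.conj_conj, Complex.conj_I,
      Complex.conj_ofReal, h2]
    rw [← h]
    ring
  have k0 : P1.im * zI - z1 * PI.im = K * (n01 φ t).re := by
    have h := congrArg Complex.re key1
    simp only [Complex.mul_re, Complex.mul_im, Complex.sub_re, Complex.sub_im, Complex.I_re,
      Complex.I_im, Complex.ofReal_re, Complex.ofReal_im] at h
    linarith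
  have k1 : z1 * PI.re - P1.re * zI = K * (n01 φ t).im := by
    have h := congrArg Complex.im key1
    simp only [Complex.mul_re, Complex.mul_im, Complex.sub_re, Complex.sub_im, Complex.I_re,
      Complex.I_im, Complex.ofReal_re, Complex.ofReal_im] at h
    linarith
  have k2 : P1.re * PI.im - P1.im * PI.re = K * n00 φ t := by
    have h := congrArg Complex.im key2
    simp only [Complex.mul_re, Complex.mul_im, Complex.sub_re, Complex.sub_im, Complex.I_re,
      Complex.I_im, Complex.ofReal_re, Complex.ofReal_im, Complex.conj_re, Complex.conj_im,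
      Complex.re_ofNat, Complex.im_ofNat] at h
    linarith
  rw [Matrix.det_fin_three]
  simp only [Matrix.of_apply, Matrix.cons_val_zero, Matrix.cons_val_one, Matrix.cons_val,
    c0, c1, c2, ← hP1d, ← hPId, ← hz1d, ← hzId]
  have hin : inner ℝ w (nor φ t) = w 0 * (n01 φ t).re + w 1 * (n01 φ t).im + w 2 * n00 φ t := by
    have e0 : nor φ t 0 = (n01 φ t).re := rfl
    have e1 : nor φ t 1 = (n01 φ t).im := rfl
    have e2 : nor φ t 2 = n00 φ t := rfl
    rw [PiLp.inner_apply, Fin.sum_univ_three, e0, e1, e2]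
    simp only [RCLike.inner_apply, conj_trivial]
    ring
  rw [hin]
  linear_combination (w 0) * k0 + (w 1) * k1 + (w 2) * k2

end Pool.Agent.Helper87.VT.P2
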