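import Mathlib
import Pool.Agent.Helper87.VT.Defs
import Pool.Agent.Helper676.VT.J1
import Pool.Agent.Helper676.VT.J2
import Pool.Agent.Helper676.VT.J3
import Pool.Agent.Helper676.VT.J6
import Pool.Agent.Helper676.VT.G3
import Pool.Agent.Helper87.CMC.ChordH1

set_option autoImplicit false

open Set Metric Matrix MeasureTheory
open scoped ContDiff ComplexConjugate

namespace Pool.Agent.Helper87.VT.P2

open Pool.Agent.Helper87.CMC (chord_arc)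
open Pool.Agent.Helper676.VT (vol_lower)









theorem J7_norm_sq (a b c : ℝ) : ‖(!₂[a, b, c] : EuclideanSpace ℝ (Fin 3))‖ ^ 2 = a ^ 2 + b ^ 2 + c ^ 2 := by
  rw [EuclideanSpace.norm_sq_eq]
  simp [Fin.sum_univ_three]

theorem J7_lam {ε η : ℝ} {κ h : ℂ → ℂ} {φ χ : ℂ → Matrix (Fin 2) (Fin 2) ℂ}
    {m0 m1 : ℂ → ℝ} (hF : Frame ε η κ h φ χ m0 m1) (t : ℂ) (ht : ‖t‖ ≤ 1) :
    3 * (ε ^ 2 / (ε ^ 2 + ‖t‖ ^ 2) ^ 2) ≤ 4 * ‖pp κ ε t‖ ^ 2 * (m0 t / m1 t) ∧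
      4 * ‖pp κ ε t‖ ^ 2 * (m0 t / m1 t) ≤ 6 * (ε ^ 2 / (ε ^ 2 + ‖t‖ ^ 2) ^ 2) := by
  have hε := hF.ε_pos
  have ht' : ‖t‖ < 13 / 10 := by linarith
  obtain ⟨hnu, hnu1, hnu2, hr1, hr2⟩ :=
    (sphere_facts hε hF.ε_le hF.η_pos hF.η_le hF.kd).1 t ht'
  have hηε : η * ε ≤ 1 / 200 := by nlinarith [hF.η_le, hF.ε_le, hF.η_pos]
  have h0 := abs_le.mp (hF.bm0 t ht')
  have h1 := abs_le.mp (hF.bm1 t ht')
  have hm1 : 0 < m1 t := by linarith [h1.1]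
  have hS : 0 < ε ^ 2 + ‖t‖ ^ 2 := by positivity
  have hpp : ‖pp κ ε t‖ = ε * ‖rho κ t‖ / nu κ ε t := by
    unfold pp
    rw [norm_div, norm_mul, Complex.norm_real, Complex.norm_real, Real.norm_of_nonneg hε.le,
      Real.norm_of_nonneg hnu.le]
  have hq1 : 49 / 50 ≤ m0 t / m1 t := by
    rw [le_div_iff₀ hm1]
    linarith [h0.1, h1.2]
  have hq2 : m0 t / m1 t ≤ 51 / 50 := by
    rw [div_le_iff₀ hm1]
    linarith [h0.2, h1.1]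
  have hA1 : 94 / 100 * (ε / (ε ^ 2 + ‖t‖ ^ 2)) ≤ ‖pp κ ε t‖ := by
    rw [hpp, mul_div_assoc', div_le_div_iff₀ hS hnu]
    have h2 : 94 / 100 * nu κ ε t ≤ ‖rho κ t‖ * (ε ^ 2 + ‖t‖ ^ 2) := by nlinarith
    nlinarith
  have hA2 : ‖pp κ ε t‖ ≤ 106 / 100 * (ε / (ε ^ 2 + ‖t‖ ^ 2)) := by
    rw [hpp, mul_div_assoc', div_le_div_iff₀ hnu hS]
    have h2 : ‖rho κ t‖ * (ε ^ 2 + ‖t‖ ^ 2) ≤ 106 / 100 * nu κ ε t := by nlinarith
    nlinarith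
  have hB : 0 < ε / (ε ^ 2 + ‖t‖ ^ 2) := by positivity
  rw [← div_pow]
  generalize ε / (ε ^ 2 + ‖t‖ ^ 2) = B at *
  generalize ‖pp κ ε t‖ = A at *
  generalize m0 t / m1 t = q at *
  have hA3 : (94 / 100 * B) ^ 2 ≤ A ^ 2 := pow_le_pow_left₀ (by positivity) hA1 2
  have hA4 : A ^ 2 ≤ (106 / 100 * B) ^ 2 := pow_le_pow_left₀ (by linarith) hA2 2
  have hA5 : 0 ≤ A ^ 2 := sq_nonneg A
  constructor
  · have h3 : A ^ 2 * (49 / 50) ≤ A ^ 2 * q := mul_le_mul_of_nonneg_left hq1 hA5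
    nlinarith [sq_nonneg B]
  · have h3 : A ^ 2 * q ≤ A ^ 2 * (51 / 50) := mul_le_mul_of_nonneg_left hq2 hA5
    nlinarith [sq_nonneg B]

theorem J7_kap {η : ℝ} {κ h : ℂ → ℂ} (hη : η ≤ 1 / 100) (kd : KData η κ h) (t : ℂ)
    (ht : ‖t‖ < 3 / 2) : 99 / 100 ≤ ‖κ t‖ ∧ ‖κ t‖ ≤ 101 / 100 := by
  have h1 := (kd.κ_close t ht).1
  have h2 : ‖κ t‖ ≤ ‖κ t - 1‖ + ‖(1 : ℂ)‖ := by
    simpa using norm_add_le (κ t - 1) 1
  have h3 : ‖(1 : ℂ)‖ ≤ ‖κ t‖ + ‖κ t - 1‖ := by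
    have h4 := norm_sub_le (κ t) (κ t - 1)
    rwa [sub_sub_cancel] at h4
  rw [norm_one] at h2 h3
  constructor <;> linarith

theorem J7_a {ε η δ C3 : ℝ} {κ h : ℂ → ℂ} {φ χ : ℂ → Matrix (Fin 2) (Fin 2) ℂ}
    {m0 m1 : ℂ → ℝ} (hC3 : 0 < C3) (hδ0 : 0 < δ) (hδ : δ < 1 / 2)
    (hF : Frame ε η κ h φ χ m0 m1) (hB : BC ε δ φ χ)
    (hY : ∀ t : ℂ, ‖t‖ ≤ 6 / 5 →
      DifferentiableAt ℝ (fun s => pos φ χ s - nor (N0 κ ε) s) t ∧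
      ‖fderiv ℝ (fun s => pos φ χ s - nor (N0 κ ε) s) t‖ ≤ C3 * η * ε ^ 2 / (ε ^ 2 + ‖t‖ ^ 2) ∧
      ‖nor φ t - nor (N0 κ ε) t‖ ≤ C3 * η * ε) (t : ℂ) (ht : ‖t‖ ≤ 1) :
    ε ^ 2 / (ε ^ 2 + ‖t‖ ^ 2) - (10 + C3) * ε
      ≤ inner ℝ (pos φ χ t - !₂[0, 0, X00 φ χ 1]) (nor φ t) := by
  have hε := hF.ε_pos
  have hε2 := hF.ε_le
  have hη := hF.η_pos
  have hη1 := hF.η_le
  have ht' : ‖t‖ < 13 / 10 := by linarith
  have h1' : ‖(1 : ℂ)‖ < 13 / 10 := by rw [norm_one]; norm_num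
  have hSF := sphere_facts hε hε2 hη hη1 hF.kd
  obtain ⟨hnu, hnu1, hnu2, -, -⟩ := hSF.1 t ht'
  obtain ⟨-, hn00, hn0⟩ := hSF.2.1 t ht'
  obtain ⟨gnu, gnu1, gnu2, -, -⟩ := hSF.1 1 h1'
  obtain ⟨gn01, gn00, gn0⟩ := hSF.2.1 1 h1'
  obtain ⟨k1, k2⟩ := J7_kap hη1 hF.kd t (by linarith)
  obtain ⟨l1, l2⟩ := J7_kap hη1 hF.kd 1 (by linarith)
  have hnorm := ((surf_geom hF).2.2 t (by rw [mem_ball_zero_iff]; exact ht')).1
  have hS : 0 < ε ^ 2 + ‖t‖ ^ 2 := by positivity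
  -- the vertical vector
  obtain ⟨e, he⟩ : ∃ e : EuclideanSpace ℝ (Fin 3), e = !₂[0, 0, 1] := ⟨_, rfl⟩
  have hen : ‖e‖ = 1 := by
    have h2 : ‖e‖ ^ 2 = 1 := by rw [he, J7_norm_sq]; norm_num
    have h3 := norm_nonneg e
    nlinarith
  have hne : inner ℝ (nor (N0 κ ε) t + e) (nor (N0 κ ε) t) = 1 + n00 (N0 κ ε) t := by
    rw [inner_add_left, real_inner_self_eq_norm_sq, hn0, he]
    simp [nor, PiLp.inner_apply, Fin.sum_univ_three]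
  have h1n : ε ^ 2 / (ε ^ 2 + ‖t‖ ^ 2) ≤ 1 + n00 (N0 κ ε) t := by
    rw [hn00, add_sub_cancel, div_le_div_iff₀ hS hnu]
    have h2 : (98 / 100 : ℝ) ≤ ‖κ t‖ ^ 2 := by nlinarith
    have h3 : nu κ ε t ≤ 2 * ‖κ t‖ ^ 2 * (ε ^ 2 + ‖t‖ ^ 2) := by nlinarith
    have h4 : 0 < ε ^ 2 := by positivity
    nlinarith
  have hnn : ‖nor φ t - nor (N0 κ ε) t‖ ≤ C3 * η * ε := (hY t (by linarith)).2.2
  -- distance of the base point
  have hp1 : ‖pos φ χ 1 - !₂[0, 0, X00 φ χ 1]‖ ≤ 3 * ε := by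
    have h2 : pos φ χ 1 - !₂[0, 0, X00 φ χ 1] = !₂[(X01 φ χ 1).re, (X01 φ χ 1).im, 0] := by
      ext i
      fin_cases i <;> simp [pos]
    have h3 := hB.ellipse 0
    rw [Complex.ofReal_zero, zero_mul, Complex.exp_zero] at h3
    have h4 : ‖pos φ χ 1 - !₂[0, 0, X00 φ χ 1]‖ ^ 2 ≤ 8 * ε ^ 2 := by
      rw [h2, J7_norm_sq]
      nlinarith [sq_nonneg (X01 φ χ 1).re, sq_nonneg (X01 φ χ 1).im]
    have h5 := norm_nonneg (pos φ χ 1 - !₂[0, 0, X00 φ χ 1])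
    nlinarith
  have hn1 : ‖nor (N0 κ ε) 1 + e‖ ≤ 4 * ε := by
    have h2 : nor (N0 κ ε) 1 + e
        = !₂[(n01 (N0 κ ε) 1).re, (n01 (N0 κ ε) 1).im, n00 (N0 κ ε) 1 + 1] := by
      rw [he]
      ext i
      fin_cases i <;> simp [nor]
    have g0 : (98 / 100 : ℝ) ≤ nu κ ε 1 := by
      rw [norm_one] at gnu1
      nlinarith [sq_nonneg ε]
    have h3 : ‖n01 (N0 κ ε) 1‖ ≤ 3 * ε := by
      rw [gn01, norm_div, Complex.norm_real, Real.norm_of_nonneg gnu.le, div_le_iff₀ gnu, norm_neg,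
        mul_one, norm_mul, norm_mul, RCLike.norm_conj, Complex.norm_real, Real.norm_of_nonneg hε.le]
      have h4 : ‖(2 : ℂ)‖ = 2 := by simp
      rw [h4]
      nlinarith
    have h5 : n00 (N0 κ ε) 1 + 1 ≤ 2 * ε := by
      rw [gn00, sub_add_cancel, div_le_iff₀ gnu]
      have h6 : ‖κ 1‖ ^ 2 ≤ 103 / 100 := by nlinarith
      have h7 : ε ^ 2 ≤ ε * (1 / 2) := by nlinarith
      have h8 : 2 * ε ^ 2 * ‖κ 1‖ ^ 2 ≤ 2 * ε ^ 2 * (103 / 100) :=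
        mul_le_mul_of_nonneg_left h6 (by positivity)
      nlinarith
    have h5' : 0 ≤ n00 (N0 κ ε) 1 + 1 := by
      rw [gn00, sub_add_cancel]
      positivity
    have h9 : ‖n01 (N0 κ ε) 1‖ ^ 2 = (n01 (N0 κ ε) 1).re ^ 2 + (n01 (N0 κ ε) 1).im ^ 2 := by
      rw [Complex.sq_norm, Complex.normSq_apply]
      ring
    have h10 : ‖nor (N0 κ ε) 1 + e‖ ^ 2 ≤ 16 * ε ^ 2 := by
      rw [h2, J7_norm_sq, ← h9]
      have h11 : ‖n01 (N0 κ ε) 1‖ ^ 2 ≤ (3 * ε) ^ 2 := pow_le_pow_left₀ (norm_nonneg _) h3 2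
      have h12 : (n00 (N0 κ ε) 1 + 1) ^ 2 ≤ (2 * ε) ^ 2 := pow_le_pow_left₀ h5' h5 2
      nlinarith
    have h13 := norm_nonneg (nor (N0 κ ε) 1 + e)
    nlinarith
  have hch : ‖(pos φ χ t - nor (N0 κ ε) t) - (pos φ χ 1 - nor (N0 κ ε) 1)‖ ≤ 1 / 10 * C3 * ε := by
    have h2 := chord_arc ε (6 / 5) (C3 * η * ε ^ 2) hε (by positivity)
      (fun s => pos φ χ s - nor (N0 κ ε) s)
      (fun s hs => (hY s (by simpa using hs)).1) (fun s hs => (hY s (by simpa using hs)).2.1)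
      t (by rw [mem_closedBall_zero_iff]; linarith) 1
      (by rw [mem_closedBall_zero_iff, norm_one]; norm_num)
    refine h2.trans ?_
    have hs1 : ε ≤ Real.sqrt (ε ^ 2 + ‖t‖ ^ 2) := by
      apply Real.le_sqrt_of_sq_le
      nlinarith [sq_nonneg ‖t‖]
    have hs2 : 1 ≤ Real.sqrt (ε ^ 2 + ‖(1 : ℂ)‖ ^ 2) := by
      apply Real.le_sqrt_of_sq_le
      rw [norm_one]
      nlinarith [sq_nonneg ε]
    have hs3 : ε ≤ Real.sqrt (ε ^ 2 + ‖t‖ ^ 2) * Real.sqrt (ε ^ 2 + ‖(1 : ℂ)‖ ^ 2) := by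
      nlinarith
    have hs4 : 0 < Real.sqrt (ε ^ 2 + ‖t‖ ^ 2) * Real.sqrt (ε ^ 2 + ‖(1 : ℂ)‖ ^ 2) :=
      lt_of_lt_of_le hε hs3
    rw [div_le_iff₀ hs4]
    have hd : ‖t - 1‖ ≤ 2 := by
      have h3 := norm_sub_le t 1
      rw [norm_one] at h3
      linarith
    have hpi : Real.pi ≤ 4 := Real.pi_le_four
    have hpi0 := Real.pi_pos
    have h3 : Real.pi * (C3 * η * ε ^ 2) * ‖t - 1‖ ≤ 4 * (C3 * (1 / 100) * ε ^ 2) * 2 := by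
      have h4 : C3 * η * ε ^ 2 ≤ C3 * (1 / 100) * ε ^ 2 := by
        apply mul_le_mul_of_nonneg_right _ (by positivity)
        exact mul_le_mul_of_nonneg_left hη1 hC3.le
      have h5 : 0 ≤ C3 * η * ε ^ 2 := by positivity
      apply mul_le_mul _ hd (norm_nonneg _) (by positivity)
      exact mul_le_mul hpi h4 h5 (by norm_num)
    refine h3.trans ?_
    have h6 : 1 / 10 * C3 * ε * ε ≤ 1 / 10 * C3 * ε
        * (Real.sqrt (ε ^ 2 + ‖t‖ ^ 2) * Real.sqrt (ε ^ 2 + ‖(1 : ℂ)‖ ^ 2)) :=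
      mul_le_mul_of_nonneg_left hs3 (by positivity)
    have h7 : 0 ≤ C3 * ε ^ 2 := by positivity
    nlinarith
  have hw : ‖(pos φ χ t - !₂[0, 0, X00 φ χ 1]) - (nor (N0 κ ε) t + e)‖
      ≤ (7 + 1 / 10 * C3) * ε := by
    have h2 : (pos φ χ t - !₂[0, 0, X00 φ χ 1]) - (nor (N0 κ ε) t + e)
        = ((pos φ χ t - nor (N0 κ ε) t) - (pos φ χ 1 - nor (N0 κ ε) 1))
          + (pos φ χ 1 - !₂[0, 0, X00 φ χ 1]) - (nor (N0 κ ε) 1 + e) := by abel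
    rw [h2]
    refine (norm_sub_le _ _).trans ?_
    have h3 := norm_add_le ((pos φ χ t - nor (N0 κ ε) t) - (pos φ χ 1 - nor (N0 κ ε) 1))
      (pos φ χ 1 - !₂[0, 0, X00 φ χ 1])
    linarith
  have hid : inner ℝ (pos φ χ t - !₂[0, 0, X00 φ χ 1]) (nor φ t)
      = inner ℝ (nor (N0 κ ε) t + e) (nor (N0 κ ε) t)
        + inner ℝ (nor (N0 κ ε) t + e) (nor φ t - nor (N0 κ ε) t)
        + inner ℝ ((pos φ χ t - !₂[0, 0, X00 φ χ 1]) - (nor (N0 κ ε) t + e)) (nor φ t) := by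
    rw [inner_sub_right, inner_sub_left (pos φ χ t - !₂[0, 0, X00 φ χ 1])]
    ring
  rw [hid, hne]
  have hi1 := abs_le.mp (abs_real_inner_le_norm (nor (N0 κ ε) t + e) (nor φ t - nor (N0 κ ε) t))
  have hi2 := abs_le.mp (abs_real_inner_le_norm
    ((pos φ χ t - !₂[0, 0, X00 φ χ 1]) - (nor (N0 κ ε) t + e)) (nor φ t))
  rw [hnorm, mul_one] at hi2
  have hne2 : ‖nor (N0 κ ε) t + e‖ ≤ 2 := by
    have h2 := norm_add_le (nor (N0 κ ε) t) e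
    linarith
  have hi3 : ‖nor (N0 κ ε) t + e‖ * ‖nor φ t - nor (N0 κ ε) t‖ ≤ 2 * (C3 * η * ε) :=
    mul_le_mul hne2 hnn (norm_nonneg _) (by norm_num)
  have hi4 : C3 * η * ε ≤ C3 * (1 / 100) * ε := by
    apply mul_le_mul_of_nonneg_right _ hε.le
    exact mul_le_mul_of_nonneg_left hη1 hC3.le
  have hi5 : 0 < C3 * ε := by positivity
  nlinarith [hi1.1, hi2.1]

theorem J7_cont {ε η : ℝ} {κ h : ℂ → ℂ} {φ χ : ℂ → Matrix (Fin 2) (Fin 2) ℂ}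
    {m0 m1 : ℂ → ℝ} (hF : Frame ε η κ h φ χ m0 m1) (w : EuclideanSpace ℝ (Fin 3)) :
    ContinuousOn (fun t : ℂ => inner ℝ (pos φ χ t - w) (nor φ t)
      * (4 * ‖pp κ ε t‖ ^ 2 * (m0 t / m1 t))) (closedBall (0 : ℂ) 1) := by
  have hsub : closedBall (0 : ℂ) 1 ⊆ ball (0 : ℂ) (13 / 10) :=
    closedBall_subset_ball (by norm_num)
  have hsub2 : closedBall (0 : ℂ) 1 ⊆ ball (0 : ℂ) (3 / 2) :=
    closedBall_subset_ball (by norm_num)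
  have hpos : ContinuousOn (pos φ χ) (closedBall (0 : ℂ) 1) :=
    (surf_geom hF).1.continuousOn.mono hsub
  have hnor : ContinuousOn (nor φ) (closedBall (0 : ℂ) 1) :=
    (surf_geom hF).2.1.continuousOn.mono hsub
  have hm0 : ContinuousOn m0 (closedBall (0 : ℂ) 1) := hF.smm0.continuousOn.mono hsub
  have hm1 : ContinuousOn m1 (closedBall (0 : ℂ) 1) := hF.smm1.continuousOn.mono hsub
  have hκ : ContinuousOn κ (closedBall (0 : ℂ) 1) := hF.kd.κ_hol.continuousOn.mono hsub2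
  have hdκ : ContinuousOn (deriv κ) (closedBall (0 : ℂ) 1) :=
    (hF.kd.κ_hol.deriv isOpen_ball).continuousOn.mono hsub2
  have hlt : ∀ t ∈ closedBall (0 : ℂ) 1, ‖t‖ < 13 / 10 := by
    intro t ht
    rw [mem_closedBall_zero_iff] at ht
    linarith
  have hnu : ContinuousOn (nu κ ε) (closedBall (0 : ℂ) 1) := by
    unfold nu
    exact (continuousOn_const.mul (hκ.norm.pow 2)).add (continuous_norm.continuousOn.pow 2)
  have hrho : ContinuousOn (rho κ) (closedBall (0 : ℂ) 1) := by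
    unfold rho
    exact hκ.sub (continuousOn_id.mul hdκ)
  have hpp : ContinuousOn (pp κ ε) (closedBall (0 : ℂ) 1) := by
    unfold pp
    refine (continuousOn_const.mul hrho).div (Complex.continuous_ofReal.comp_continuousOn hnu) ?_
    intro t ht
    have h1 := ((surf_deriv hF).1 t (hlt t ht)).1
    exact_mod_cast h1.ne'
  have hq : ContinuousOn (fun t => m0 t / m1 t) (closedBall (0 : ℂ) 1) :=
    hm0.div hm1 (fun t ht => ((surf_deriv hF).1 t (hlt t ht)).2.2.ne')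
  exact (ContinuousOn.inner (𝕜 := ℝ) (hpos.sub continuousOn_const) hnor).mul
    ((continuousOn_const.mul (hpp.norm.pow 2)).mul hq)

/-- JOB J7 (the only target): lower bound of the volume integral of the unscaled surface. -/
theorem volume_lower (C3 : ℝ) (hC3 : 0 < C3) : ∃ e0 c : ℝ, 0 < e0 ∧ 0 < c ∧
    ∀ (ε η δ : ℝ) (κ h : ℂ → ℂ) (φ χ : ℂ → Matrix (Fin 2) (Fin 2) ℂ) (m0 m1 : ℂ → ℝ),
    ε < e0 → 0 < δ → δ < 1 / 2 → Frame ε η κ h φ χ m0 m1 → BC ε δ φ χ →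
    (∀ t : ℂ, ‖t‖ ≤ 6 / 5 →
      DifferentiableAt ℝ (fun s => pos φ χ s - nor (N0 κ ε) s) t ∧
      ‖fderiv ℝ (fun s => pos φ χ s - nor (N0 κ ε) s) t‖ ≤ C3 * η * ε ^ 2 / (ε ^ 2 + ‖t‖ ^ 2) ∧
      ‖nor φ t - nor (N0 κ ε) t‖ ≤ C3 * η * ε) →
    c ≤ ∫ t in closedBall (0 : ℂ) 1, Matrix.det (Matrix.of
      ![((pos φ χ t - !₂[0, 0, X00 φ χ 1] : EuclideanSpace ℝ (Fin 3)) : Fin 3 → ℝ),
        (fderiv ℝ (pos φ χ) t 1 : Fin 3 → ℝ), (fderiv ℝ (pos φ χ) t Complex.I : Fin 3 → ℝ)]) := by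
  obtain ⟨ε1, hε1, hvol⟩ := vol_lower 3 (10 + C3) 6 (by norm_num) (by positivity) (by norm_num)
  refine ⟨ε1, 3 * Real.pi / 32, hε1, by positivity, ?_⟩
  intro ε η δ κ h φ χ m0 m1 hεe hδ0 hδ hF hB hY
  have h1 := hvol ε hF.ε_pos hεe
    (fun t => inner ℝ (pos φ χ t - !₂[0, 0, X00 φ χ 1]) (nor φ t))
    (fun t => 4 * ‖pp κ ε t‖ ^ 2 * (m0 t / m1 t)) (J7_cont hF _)
    (fun t ht => J7_a hC3 hδ0 hδ hF hB hY t ht) (fun t ht => J7_lam hF t ht)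
  refine h1.trans (le_of_eq ?_)
  apply setIntegral_congr_fun measurableSet_closedBall
  intro t ht
  rw [mem_closedBall_zero_iff] at ht
  show _ = Matrix.det _
  rw [det_formula hF t (by linarith)]
  ring

end Pool.Agent.Helper87.VT.P2
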