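import Mathlib

set_option autoImplicit false

namespace Pool.Agent.Helper676.VT

open scoped ComplexConjugate

/-- JOB G1: a continuous symmetric curve on an ellipse covers the ellipse. -/
theorem ellipse_onto (δ : ℝ) (hδ : |δ| < 1) (Z : ℝ → ℂ) (hc : Continuous Z)
    (hE : ∀ θ, (1 - δ) * (Z θ).re ^ 2 + (1 + δ) * (Z θ).im ^ 2 = 1)
    (h1 : ∀ θ, Z (-θ) = conj (Z θ)) (h2 : ∀ θ, Z (Real.pi - θ) = - conj (Z θ)) :
    ∀ w : ℂ, (1 - δ) * w.re ^ 2 + (1 + δ) * w.im ^ 2 = 1 → ∃ θ : ℝ, Z θ = w := by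
  intro w hw
  obtain ⟨hδ1, hδ2⟩ := abs_lt.1 hδ
  have hp : 0 < 1 - δ := by linarith
  have hq : 0 < 1 + δ := by linarith
  have z0 : (Z 0).im = 0 := by
    have := congrArg Complex.im (h1 0)
    rw [neg_zero, Complex.conj_im] at this
    linarith
  have z1 : (Z (Real.pi / 2)).re = 0 := by
    have := congrArg Complex.re (h2 (Real.pi / 2))
    rw [Complex.neg_re, Complex.conj_re] at this
    have e : Real.pi - Real.pi / 2 = Real.pi / 2 := by ring
    rw [e] at this
    linarith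
  have hcont : ContinuousOn (fun θ => (Z θ).re ^ 2) (Set.Icc 0 (Real.pi / 2)) :=
    ((Complex.continuous_re.comp hc).pow 2).continuousOn
  have hivt := intermediate_value_Icc' (by positivity : (0 : ℝ) ≤ Real.pi / 2) hcont
  have hmem : w.re ^ 2 ∈ Set.Icc ((Z (Real.pi / 2)).re ^ 2) ((Z 0).re ^ 2) := by
    refine ⟨?_, ?_⟩
    · show (Z (Real.pi / 2)).re ^ 2 ≤ w.re ^ 2
      rw [z1]
      have := sq_nonneg w.re
      nlinarith
    · have e0 := hE 0
      rw [z0] at e0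
      have : (1 - δ) * w.re ^ 2 ≤ (1 - δ) * (Z 0).re ^ 2 := by
        have : 0 ≤ (1 + δ) * w.im ^ 2 := by positivity
        linarith
      exact le_of_mul_le_mul_left this hp
  obtain ⟨θ, _, hθ⟩ := hivt hmem
  have hre : (Z θ).re ^ 2 = w.re ^ 2 := hθ
  have him : (Z θ).im ^ 2 = w.im ^ 2 := by
    have e1 := hE θ
    rw [hre] at e1
    have : (1 + δ) * (Z θ).im ^ 2 = (1 + δ) * w.im ^ 2 := by linarith
    exact mul_left_cancel₀ hq.ne' this
  have h3 : Z (Real.pi + θ) = - Z θ := by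
    have := h2 (-θ)
    rw [h1, sub_neg_eq_add, Complex.conj_conj] at this
    exact this
  rcases sq_eq_sq_iff_eq_or_eq_neg.1 hre with hr | hr <;>
    rcases sq_eq_sq_iff_eq_or_eq_neg.1 him with hi | hi
  · exact ⟨θ, Complex.ext hr hi⟩
  · refine ⟨-θ, ?_⟩
    rw [h1]
    apply Complex.ext
    · rw [Complex.conj_re, hr]
    · rw [Complex.conj_im, hi, neg_neg]
  · refine ⟨Real.pi - θ, ?_⟩
    rw [h2]
    apply Complex.ext
    · rw [Complex.neg_re, Complex.conj_re, hr, neg_neg]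
    · rw [Complex.neg_im, Complex.conj_im, hi, neg_neg]
  · refine ⟨Real.pi + θ, ?_⟩
    rw [h3]
    apply Complex.ext
    · rw [Complex.neg_re, hr, neg_neg]
    · rw [Complex.neg_im, hi, neg_neg]

end Pool.Agent.Helper676.VT
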