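import Mathlib
import Pool.Agent.Helper87.VT.Defs
import Pool.Agent.Helper676.VT.J1
import Pool.Agent.Helper676.VT.G1

set_option autoImplicit false

open Set Metric Matrix
open scoped ContDiff ComplexConjugate

namespace Pool.Agent.Helper87.VT.P2

open Pool.Agent.Helper676.VT (ellipse_onto)





/-- JOB J8 (the only target): the boundary circle is mapped onto the ellipse. -/
theorem boundary_image {ε η δ : ℝ} {κ h : ℂ → ℂ} {φ χ : ℂ → Matrix (Fin 2) (Fin 2) ℂ}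
    {m0 m1 : ℂ → ℝ} (hF : Frame ε η κ h φ χ m0 m1) (hB : BC ε δ φ χ) (hδ : 0 < δ)
    (hδ1 : δ < 1 / 2) :
    (fun t => (1 / (2 * ε)) • (pos φ χ t - !₂[0, 0, X00 φ χ 1])) '' (sphere (0 : ℂ) 1) =
      {x : EuclideanSpace ℝ (Fin 3) | x 2 = 0 ∧ (1 - δ) * x 0 ^ 2 + (1 + δ) * x 1 ^ 2 = 1} := by
  have hε : 0 < ε := hF.ε_pos
  have h2ε : 2 * ε ≠ 0 := by positivity
  obtain ⟨_, hsm, _, _, _, _, _, _, hsy⟩ := surf_deriv hF
  have hnorm : ∀ θ : ℝ, ‖Complex.exp (θ * Complex.I)‖ = 1 := Complex.norm_exp_ofReal_mul_I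
  have hlt : ∀ θ : ℝ, ‖Complex.exp (θ * Complex.I)‖ < 13 / 10 := by
    intro θ; rw [hnorm]; norm_num
  obtain ⟨Z, hZ⟩ : ∃ Z : ℝ → ℂ, ∀ θ, Z θ = X01 φ χ (Complex.exp (θ * Complex.I)) /
      ((2 * ε : ℝ) : ℂ) := ⟨_, fun _ => rfl⟩
  have hre : ∀ θ, (Z θ).re = (X01 φ χ (Complex.exp (θ * Complex.I))).re / (2 * ε) := by
    intro θ; rw [hZ, Complex.div_ofReal_re]
  have him : ∀ θ, (Z θ).im = (X01 φ χ (Complex.exp (θ * Complex.I))).im / (2 * ε) := by
    intro θ; rw [hZ, Complex.div_ofReal_im]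
  have hc : Continuous Z := by
    have h1 : ContinuousOn (X01 φ χ) (ball 0 (13 / 10)) := (hsm 0 1).continuousOn
    have h2 : Continuous (fun θ : ℝ => Complex.exp (θ * Complex.I)) := by fun_prop
    have h3 : Continuous (fun θ : ℝ => X01 φ χ (Complex.exp (θ * Complex.I))) :=
      h1.comp_continuous h2 fun θ => by
        rw [mem_ball_zero_iff]; exact hlt θ
    have h4 := h3.div_const ((2 * ε : ℝ) : ℂ)
    exact h4.congr fun θ => (hZ θ).symm
  have hE : ∀ θ, (1 - δ) * (Z θ).re ^ 2 + (1 + δ) * (Z θ).im ^ 2 = 1 := by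
    intro θ
    rw [hre, him]
    have := hB.ellipse θ
    field_simp
    linarith
  have hconj : ∀ θ : ℝ, Complex.exp (((-θ : ℝ) : ℂ) * Complex.I) =
      conj (Complex.exp (θ * Complex.I)) := by
    intro θ
    rw [← Complex.exp_conj, map_mul, Complex.conj_ofReal, Complex.conj_I, Complex.ofReal_neg]
    congr 1
    ring
  have h1 : ∀ θ, Z (-θ) = conj (Z θ) := by
    intro θ
    rw [hZ, hZ, hconj, (hsy _ (hlt θ)).2.2.1, map_div₀, Complex.conj_ofReal]
  have h2 : ∀ θ, Z (Real.pi - θ) = - conj (Z θ) := by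
    intro θ
    have e : Complex.exp (((Real.pi - θ : ℝ) : ℂ) * Complex.I) =
        - conj (Complex.exp (θ * Complex.I)) := by
      rw [← hconj]
      have : ((Real.pi - θ : ℝ) : ℂ) * Complex.I = (Real.pi : ℂ) * Complex.I +
          ((-θ : ℝ) : ℂ) * Complex.I := by
        push_cast; ring
      rw [this, Complex.exp_add, Complex.exp_pi_mul_I]
      ring
    have hn : ‖conj (Complex.exp (θ * Complex.I))‖ < 13 / 10 := by
      rw [Complex.norm_conj]; exact hlt θ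
    rw [hZ, hZ, e, (hsy _ hn).2.2.2, (hsy _ (hlt θ)).2.2.1, map_div₀, Complex.conj_ofReal, neg_div]
  have honto := ellipse_onto δ (by rw [abs_of_pos hδ]; linarith) Z hc hE h1 h2
  have hcoord : ∀ t : ℂ, ∀ y : EuclideanSpace ℝ (Fin 3),
      y = (1 / (2 * ε)) • (pos φ χ t - !₂[0, 0, X00 φ χ 1]) ↔
      (y 0 = (X01 φ χ t).re / (2 * ε) ∧ y 1 = (X01 φ χ t).im / (2 * ε) ∧
        y 2 = (X00 φ χ t - X00 φ χ 1) / (2 * ε)) := by
    intro t y
    have e0 : ((1 / (2 * ε)) • (pos φ χ t - !₂[0, 0, X00 φ χ 1])) 0 =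
        (X01 φ χ t).re / (2 * ε) := by
      rw [PiLp.smul_apply, PiLp.sub_apply, smul_eq_mul, one_div_mul_eq_div]
      simp [pos]
    have e1 : ((1 / (2 * ε)) • (pos φ χ t - !₂[0, 0, X00 φ χ 1])) 1 =
        (X01 φ χ t).im / (2 * ε) := by
      rw [PiLp.smul_apply, PiLp.sub_apply, smul_eq_mul, one_div_mul_eq_div]
      simp [pos]
    have e2 : ((1 / (2 * ε)) • (pos φ χ t - !₂[0, 0, X00 φ χ 1])) 2 =
        (X00 φ χ t - X00 φ χ 1) / (2 * ε) := by
      rw [PiLp.smul_apply, PiLp.sub_apply, smul_eq_mul, one_div_mul_eq_div]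
      simp [pos]
    constructor
    · rintro rfl
      exact ⟨e0, e1, e2⟩
    · rintro ⟨f0, f1, f2⟩
      ext i
      fin_cases i
      · exact f0.trans e0.symm
      · exact f1.trans e1.symm
      · exact f2.trans e2.symm
  ext x
  constructor
  · rintro ⟨t, ht, rfl⟩
    rw [mem_sphere_zero_iff_norm] at ht
    have ht' : t = Complex.exp ((Complex.arg t : ℂ) * Complex.I) := by
      have := Complex.norm_mul_exp_arg_mul_I t
      rw [ht, Complex.ofReal_one, one_mul] at this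
      exact this.symm
    obtain ⟨f0, f1, f2⟩ := (hcoord t _).mp rfl
    have hX : X00 φ χ t = X00 φ χ 1 := by
      rw [ht']; exact hB.height _
    have hell := hE (Complex.arg t)
    rw [hre, him, ← ht'] at hell
    refine ⟨?_, ?_⟩
    · exact f2.trans (by rw [hX, sub_self, zero_div])
    · show (1 - δ) * ((1 / (2 * ε)) • (pos φ χ t - !₂[0, 0, X00 φ χ 1])) 0 ^ 2 +
        (1 + δ) * ((1 / (2 * ε)) • (pos φ χ t - !₂[0, 0, X00 φ χ 1])) 1 ^ 2 = 1
      rw [f0, f1]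
      exact hell
  · rintro ⟨hx2, hx⟩
    obtain ⟨θ, hθ⟩ := honto ⟨x 0, x 1⟩ hx
    refine ⟨Complex.exp (θ * Complex.I), ?_, ?_⟩
    · rw [mem_sphere_zero_iff_norm]; exact hnorm θ
    · refine ((hcoord _ x).mpr ⟨?_, ?_, ?_⟩).symm
      · rw [← hre, hθ]
      · rw [← him, hθ]
      · rw [hx2, hB.height, sub_self, zero_div]

end Pool.Agent.Helper87.VT.P2
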