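import Mathlib

set_option autoImplicit false

namespace Pool.Agent.Helper676.VT

open Metric

/-- JOB G2: the height is larger than its boundary value. -/
theorem one_sided (ε η C hgt : ℝ) (hε : 0 < ε) (hε1 : ε ≤ 1) (hη : 0 ≤ η) (hη1 : η ≤ 1 / 20)
    (hC : 0 ≤ C) (hCη : C * η ≤ 1 / 20) (κ : ℂ → ℂ)
    (hκ1 : ∀ t : ℂ, ‖t‖ ≤ 1 → ‖κ t - 1‖ ≤ η)
    (hκ2 : ∀ s t : ℂ, ‖s‖ ≤ 1 → ‖t‖ ≤ 1 → ‖κ s - κ t‖ ≤ η * ‖s - t‖)
    (f : ℂ → ℝ)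
    (hf : ∀ t : ℂ, ‖t‖ ≤ 1 → DifferentiableAt ℝ
      (fun s : ℂ => f s - 2 * ε ^ 2 * ‖κ s‖ ^ 2 / (ε ^ 2 * ‖κ s‖ ^ 2 + ‖s‖ ^ 2)) t)
    (hD : ∀ t : ℂ, ‖t‖ ≤ 1 → ‖fderiv ℝ
      (fun s : ℂ => f s - 2 * ε ^ 2 * ‖κ s‖ ^ 2 / (ε ^ 2 * ‖κ s‖ ^ 2 + ‖s‖ ^ 2)) t‖ ≤
        C * η * ε ^ 2 / (ε ^ 2 + ‖t‖ ^ 2))
    (hb : ∀ t : ℂ, ‖t‖ = 1 → f t = hgt) :
    ∀ t : ℂ, ‖t‖ < 1 → hgt < f t := by
  intro t ht
  set r := ‖t‖ with hr
  have hr0 : 0 ≤ r := norm_nonneg t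
  obtain ⟨e, he1, hte⟩ : ∃ e : ℂ, ‖e‖ = 1 ∧ t = (r : ℂ) * e := by
    rcases eq_or_ne t 0 with h0 | h0
    · refine ⟨1, by simp, ?_⟩
      rw [hr, h0]
      simp
    · have hn : ‖t‖ ≠ 0 := norm_ne_zero_iff.mpr h0
      refine ⟨t / (‖t‖ : ℂ), ?_, ?_⟩
      · rw [norm_div, Complex.norm_real, norm_norm, div_self hn]
      · rw [hr]
        have : ((‖t‖ : ℝ) : ℂ) ≠ 0 := by exact_mod_cast hn
        field_simp
  have hte2 : ‖t - e‖ = 1 - r := by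
    have h1 : t - e = ((r - 1 : ℝ) : ℂ) * e := by
      conv_lhs => rw [hte]
      push_cast
      ring
    rw [h1, norm_mul, he1, mul_one, Complex.norm_real, Real.norm_eq_abs, abs_of_nonpos (by linarith)]
    ring
  have hseg : ∀ x ∈ segment ℝ t e, r ≤ ‖x‖ ∧ ‖x‖ ≤ 1 := by
    rintro x ⟨a, b, ha, hb', hab, rfl⟩
    have h1 : a • t + b • e = ((a * r + b : ℝ) : ℂ) * e := by
      conv_lhs => rw [hte]
      simp only [Complex.real_smul]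
      push_cast
      ring
    rw [h1, norm_mul, he1, mul_one, Complex.norm_real, Real.norm_eq_abs,
      abs_of_nonneg (by positivity)]
    constructor
    · nlinarith
    · nlinarith
  have hε2 : 0 < ε ^ 2 := by positivity
  have hden : 0 < ε ^ 2 + r ^ 2 := by positivity
  set F : ℂ → ℝ := fun s : ℂ => f s - 2 * ε ^ 2 * ‖κ s‖ ^ 2 / (ε ^ 2 * ‖κ s‖ ^ 2 + ‖s‖ ^ 2) with hF
  have hmv : ‖F t - F e‖ ≤ C * η * ε ^ 2 / (ε ^ 2 + r ^ 2) * ‖t - e‖ := by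
    apply Convex.norm_image_sub_le_of_norm_fderiv_le (𝕜 := ℝ) (s := segment ℝ t e) (f := F)
    · intro x hx
      exact hf x (hseg x hx).2
    · intro x hx
      refine (hD x (hseg x hx).2).trans ?_
      have h1 := (hseg x hx).1
      have h2 : 0 ≤ C * η * ε ^ 2 := by positivity
      apply div_le_div_of_nonneg_left h2 hden
      nlinarith
    · exact convex_segment t e
    · exact right_mem_segment ℝ t e
    · exact left_mem_segment ℝ t e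
  rw [hte2] at hmv
  set a := ‖κ t‖ with ha
  set b := ‖κ e‖ with hb'
  have hka := hκ1 t ht.le
  have hkb := hκ1 e he1.le
  have hkab := hκ2 t e ht.le he1.le
  rw [hte2] at hkab
  have ha1 : |a - 1| ≤ η := by
    have := abs_norm_sub_norm_le (κ t) 1
    rw [norm_one] at this
    exact this.trans hka
  have hb1 : |b - 1| ≤ η := by
    have := abs_norm_sub_norm_le (κ e) 1
    rw [norm_one] at this
    exact this.trans hkb
  have hab1 : |a - b| ≤ η * (1 - r) := (abs_norm_sub_norm_le (κ t) (κ e)).trans hkab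
  have ha2 := abs_le.mp ha1
  have hb2 := abs_le.mp hb1
  have hab2 := abs_le.mp hab1
  have hr1 : 0 < 1 - r := by linarith
  have hapos : (19 / 20 : ℝ) ≤ a := by linarith [ha2.1]
  have hale : a ≤ 21 / 20 := by linarith [ha2.2]
  have hbpos : (19 / 20 : ℝ) ≤ b := by linarith [hb2.1]
  have hble : b ≤ 21 / 20 := by linarith [hb2.2]
  have hdiff : (9 / 10 : ℝ) * (1 - r) ≤ a - r * b := by
    have h1 : r * (a - b) ≥ r * (-(η * (1 - r))) := mul_le_mul_of_nonneg_left hab2.1 hr0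
    have h2 : η * (1 - r) ≤ 1 / 20 * (1 - r) := mul_le_mul_of_nonneg_right hη1 hr1.le
    have h3 : 0 ≤ η * (1 - r) := mul_nonneg hη hr1.le
    have h4 : r * (η * (1 - r)) ≤ η * (1 - r) := by nlinarith
    have h5 : (19 / 20 : ℝ) * (1 - r) ≤ a * (1 - r) := mul_le_mul_of_nonneg_right hapos hr1.le
    nlinarith
  have hsq : (17 / 20 : ℝ) * (1 - r) ≤ a ^ 2 - r ^ 2 * b ^ 2 := by
    have h1 : a ^ 2 - r ^ 2 * b ^ 2 = (a - r * b) * (a + r * b) := by ring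
    have h2 : (19 / 20 : ℝ) ≤ a + r * b := by
      have : 0 ≤ r * b := mul_nonneg hr0 (by linarith)
      linarith
    have h3 : (9 / 10 : ℝ) * (1 - r) * (19 / 20) ≤ (a - r * b) * (a + r * b) :=
      mul_le_mul hdiff h2 (by norm_num) (le_trans (by positivity) hdiff)
    rw [h1]
    linarith
  have hd1 : 0 < ε ^ 2 * a ^ 2 + r ^ 2 := by
    have : 0 < a := by linarith
    positivity
  have hd2 : 0 < ε ^ 2 * b ^ 2 + 1 := by positivity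
  have hA : ε ^ 2 * a ^ 2 + r ^ 2 ≤ 6 / 5 * (ε ^ 2 + r ^ 2) := by
    have h1 : a ^ 2 ≤ 6 / 5 := by nlinarith
    nlinarith [sq_nonneg r]
  have hB : ε ^ 2 * b ^ 2 + 1 ≤ 11 / 5 := by
    have h1 : b ^ 2 ≤ 6 / 5 := by nlinarith
    have h2 : ε ^ 2 ≤ 1 := by nlinarith
    nlinarith
  have hprod : (ε ^ 2 * a ^ 2 + r ^ 2) * (ε ^ 2 * b ^ 2 + 1) ≤ 66 / 25 * (ε ^ 2 + r ^ 2) := by
    have h1 := mul_le_mul hA hB hd2.le (by positivity)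
    linarith
  have hg : 2 * ε ^ 2 * a ^ 2 / (ε ^ 2 * a ^ 2 + r ^ 2) - 2 * ε ^ 2 * b ^ 2 / (ε ^ 2 * b ^ 2 + 1) =
      2 * ε ^ 2 * (a ^ 2 - r ^ 2 * b ^ 2) / ((ε ^ 2 * a ^ 2 + r ^ 2) * (ε ^ 2 * b ^ 2 + 1)) := by
    rw [div_sub_div _ _ hd1.ne' hd2.ne']
    congr 1
    ring
  have hg2 : 1 / 2 * (ε ^ 2 * (1 - r)) / (ε ^ 2 + r ^ 2) ≤
      2 * ε ^ 2 * (a ^ 2 - r ^ 2 * b ^ 2) / ((ε ^ 2 * a ^ 2 + r ^ 2) * (ε ^ 2 * b ^ 2 + 1)) := by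
    rw [div_le_div_iff₀ hden (mul_pos hd1 hd2)]
    have h1 : 0 ≤ 1 / 2 * (ε ^ 2 * (1 - r)) := by positivity
    calc 1 / 2 * (ε ^ 2 * (1 - r)) * ((ε ^ 2 * a ^ 2 + r ^ 2) * (ε ^ 2 * b ^ 2 + 1))
        ≤ 1 / 2 * (ε ^ 2 * (1 - r)) * (66 / 25 * (ε ^ 2 + r ^ 2)) :=
          mul_le_mul_of_nonneg_left hprod h1
      _ ≤ 2 * ε ^ 2 * (a ^ 2 - r ^ 2 * b ^ 2) * (ε ^ 2 + r ^ 2) := by
          have h2 : 1 / 2 * (ε ^ 2 * (1 - r)) * (66 / 25) ≤ 2 * ε ^ 2 * (a ^ 2 - r ^ 2 * b ^ 2) := by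
            have h3 := mul_le_mul_of_nonneg_left hsq (by positivity : 0 ≤ 2 * ε ^ 2)
            have h4 : 0 < ε ^ 2 * (1 - r) := by positivity
            nlinarith
          have h5 := mul_le_mul_of_nonneg_right h2 hden.le
          linarith
  have herr : C * η * ε ^ 2 / (ε ^ 2 + r ^ 2) * (1 - r) ≤
      1 / 20 * (ε ^ 2 * (1 - r)) / (ε ^ 2 + r ^ 2) := by
    rw [div_mul_eq_mul_div]
    apply div_le_div_of_nonneg_right _ hden.le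
    have h4 : 0 < ε ^ 2 * (1 - r) := by positivity
    nlinarith
  have hpos : 0 < ε ^ 2 * (1 - r) / (ε ^ 2 + r ^ 2) := by positivity
  have hx1 : 1 / 2 * (ε ^ 2 * (1 - r)) / (ε ^ 2 + r ^ 2) =
      1 / 2 * (ε ^ 2 * (1 - r) / (ε ^ 2 + r ^ 2)) := by ring
  have hx2 : 1 / 20 * (ε ^ 2 * (1 - r)) / (ε ^ 2 + r ^ 2) =
      1 / 20 * (ε ^ 2 * (1 - r) / (ε ^ 2 + r ^ 2)) := by ring
  rw [hx1] at hg2
  rw [hx2] at herr
  have hFt : F t = f t - 2 * ε ^ 2 * a ^ 2 / (ε ^ 2 * a ^ 2 + r ^ 2) := rfl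
  have hFe : F e = f e - 2 * ε ^ 2 * b ^ 2 / (ε ^ 2 * b ^ 2 + 1) := by
    simp only [hF, he1]
    rw [hb', one_pow]
  have hbe := hb e he1
  rw [Real.norm_eq_abs] at hmv
  have hmv2 := (abs_le.mp hmv).1
  rw [hFt, hFe] at hmv2
  linarith

end Pool.Agent.Helper676.VT
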