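import Mathlib
import Pool.Agent.Helper87.VT.Defs
import Pool.Agent.Helper676.VT.J3
import Pool.Agent.Helper676.VT.G2

set_option autoImplicit false

open Set Metric Matrix
open scoped ContDiff ComplexConjugate

namespace Pool.Agent.Helper87.VT.P2

open Pool.Agent.Helper676.VT (one_sided)





/-- JOB J9 (the only target): the surface lies above the plane of its boundary. -/
theorem above {ε η δ C3 : ℝ} {κ h : ℂ → ℂ} {φ χ : ℂ → Matrix (Fin 2) (Fin 2) ℂ}
    {m0 m1 : ℂ → ℝ} (hF : Frame ε η κ h φ χ m0 m1) (hB : BC ε δ φ χ) (hC3 : 0 < C3)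
    (hη : C3 * η ≤ 1 / 20)
    (hdiff : ∀ t : ℂ, ‖t‖ ≤ 6 / 5 →
      DifferentiableAt ℝ (fun s => X00 φ χ s - n00 (N0 κ ε) s) t ∧
      ‖fderiv ℝ (fun s => X00 φ χ s - n00 (N0 κ ε) s) t‖ ≤
        C3 * η * ε ^ 2 / (ε ^ 2 + ‖t‖ ^ 2)) :
    ∀ t : ℂ, ‖t‖ ≤ 1 → X00 φ χ 1 ≤ X00 φ χ t := by
  have hcirc : ∀ t : ℂ, ‖t‖ = 1 → X00 φ χ t = X00 φ χ 1 := by
    intro t ht
    have e : t = Complex.exp ((Complex.arg t : ℝ) * Complex.I) := by
      have := Complex.norm_mul_exp_arg_mul_I t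
      rw [ht] at this
      simpa using this.symm
    rw [e]
    exact hB.height _
  have hev : ∀ t : ℂ, ‖t‖ ≤ 1 →
      (fun s : ℂ => X00 φ χ s - 2 * ε ^ 2 * ‖κ s‖ ^ 2 / (ε ^ 2 * ‖κ s‖ ^ 2 + ‖s‖ ^ 2)) =ᶠ[nhds t]
        fun s => (X00 φ χ s - n00 (N0 κ ε) s) - 1 := by
    intro t ht
    have h1 : ball (0:ℂ) (13 / 10) ∈ nhds t := by
      apply isOpen_ball.mem_nhds
      rw [mem_ball_zero_iff]
      linarith
    filter_upwards [h1] with s hs
    rw [mem_ball_zero_iff] at hs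
    have h2 := ((sphere_facts hF.ε_pos hF.ε_le hF.η_pos hF.η_le hF.kd).2.1 s hs).2.1
    rw [h2]
    unfold nu
    ring
  have hos := one_sided ε η C3 (X00 φ χ 1) hF.ε_pos (by linarith [hF.ε_le]) hF.η_pos.le
    (by linarith [hF.η_le]) hC3.le hη κ
    (fun t ht => (hF.kd.κ_close t (by linarith)).1)
    (fun s t hs ht => by
      refine Convex.norm_image_sub_le_of_norm_deriv_le (𝕜 := ℂ) (s := ball (0:ℂ) (3/2))
        (f := κ) (C := η) ?_ ?_ (convex_ball _ _) ?_ ?_
      · intro x hx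
        exact (hF.kd.κ_hol x hx).differentiableAt (isOpen_ball.mem_nhds hx)
      · intro x hx
        rw [mem_ball_zero_iff] at hx
        exact (hF.kd.κ_close x hx).2
      · rw [mem_ball_zero_iff]; linarith
      · rw [mem_ball_zero_iff]; linarith)
    (X00 φ χ)
    (fun t ht => by
      have h1 := (hdiff t (by linarith)).1
      exact (h1.sub_const 1).congr_of_eventuallyEq (hev t ht))
    (fun t ht => by
      have h1 := (hdiff t (by linarith)).2
      rw [(hev t ht).fderiv_eq, fderiv_sub_const]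
      exact h1)
    hcirc
  intro t ht
  rcases eq_or_lt_of_le ht with e | e
  · exact (hcirc t e).ge
  · exact (hos t e).le

end Pool.Agent.Helper87.VT.P2
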