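import Mathlib
import Pool.Agent.Helper87.VT.Defs
import Pool.Agent.Helper676.VT.J1
import Pool.Agent.Helper676.VT.J2
import Pool.Agent.Helper676.VT.J4
import Pool.Agent.Helper676.VT.J5
import Pool.Agent.Helper676.VT.J7
import Pool.Agent.Helper676.VT.J8
import Pool.Agent.Helper676.VT.J9

set_option autoImplicit false

open Set Metric Matrix
open scoped ContDiff ComplexConjugate

namespace Pool.Agent.Helper87.VT.P2












theorem aux_det_scale (s : ℝ) (A B C : Fin 3 → ℝ) (A' B' C' : Fin 3 → ℝ)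
    (hA : ∀ i, A' i = s * A i) (hB : ∀ i, B' i = s * B i) (hC : ∀ i, C' i = s * C i) :
    Matrix.det (Matrix.of ![A', B', C']) = s ^ 3 * Matrix.det (Matrix.of ![A, B, C]) := by
  rw [Matrix.det_fin_three, Matrix.det_fin_three]
  simp only [Matrix.of_apply, Matrix.cons_val_zero, Matrix.cons_val_one, Matrix.cons_val]
  simp only [hA, hB, hC]
  ring

/-- JOB J10 (the only target): final assembly of part 2. -/
theorem geo_main : ∃ η0 c : ℝ, 0 < η0 ∧ 0 < c ∧ ∀ (ε η δ : ℝ) (κ h : ℂ → ℂ)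
    (φ χ : ℂ → Matrix (Fin 2) (Fin 2) ℂ) (m0 m1 : ℂ → ℝ), ε < η0 → η < η0 → 0 < δ → δ < 1 / 2 →
    Frame ε η κ h φ χ m0 m1 → BC ε δ φ χ →
    ∃ (Ψ : ℂ → EuclideanSpace ℝ (Fin 3)) (H : ℝ), H ≠ 0 ∧ IsEmbeddedCmcDisc Ψ H ∧
      Ψ '' (sphere (0 : ℂ) 1) =
        {x | x 2 = 0 ∧ (1 - δ) * x 0 ^ 2 + (1 + δ) * x 1 ^ 2 = 1} ∧
      (∀ z ∈ closedBall (0 : ℂ) 1, 0 ≤ Ψ z 2) ∧ c / ε ^ 3 ≤ volume Ψ := by
  obtain ⟨C3, hC3, hDB⟩ := diff_bound
  obtain ⟨e0, c0, he0, hc0, hV⟩ := volume_lower C3 hC3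
  refine ⟨min e0 (1 / (20 * C3)), c0 / 24, lt_min he0 (by positivity), by positivity, ?_⟩
  intro ε η δ κ h φ χ m0 m1 hε hη hδ hδ1 hF hB
  have hεp := hF.ε_pos
  have hε0 : ε < e0 := lt_of_lt_of_le hε (min_le_left _ _)
  have hη1 : η < 1 / (20 * C3) := lt_of_lt_of_le hη (min_le_right _ _)
  have hη2 : C3 * η ≤ 1 / 20 := by
    rw [lt_div_iff₀ (by positivity)] at hη1
    nlinarith
  have hD := hDB ε η κ h φ χ m0 m1 hF
  obtain ⟨g1, g2, g3⟩ := surf_geom hF
  have hinj : InjOn (pos φ χ) (closedBall 0 (6 / 5)) :=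
    surf_inj hF hC3 (by linarith) (fun t ht => ⟨(hD t ht).1, (hD t ht).2.1⟩)
  have hImg := boundary_image hF hB hδ hδ1
  have hAb := above hF hB hC3 hη2 (fun t ht => ⟨(hD t ht).2.2.1, (hD t ht).2.2.2.1⟩)
  have hVol := hV ε η δ κ h φ χ m0 m1 hε0 hδ hδ1 hF hB
    (fun t ht => ⟨(hD t ht).1, (hD t ht).2.1, (hD t ht).2.2.2.2⟩)
  obtain ⟨a, ha⟩ : ∃ a : EuclideanSpace ℝ (Fin 3), a = !₂[0, 0, X00 φ χ 1] := ⟨_, rfl⟩
  rw [← ha] at hImg hVol
  obtain ⟨s, hs⟩ : ∃ s : ℝ, s = 1 / (2 * ε) := ⟨_, rfl⟩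
  have hs0 : 0 < s := by rw [hs]; positivity
  have hs1 : s * (2 * ε) = 1 := by rw [hs]; field_simp
  rw [← hs] at hImg
  have hopen : IsOpen (ball (0 : ℂ) (13 / 10)) := isOpen_ball
  have hdiffpos : ∀ z ∈ ball (0 : ℂ) (13 / 10), DifferentiableAt ℝ (pos φ χ) z := by
    intro z hz
    exact (g1.contDiffAt (hopen.mem_nhds hz)).differentiableAt (by simp)
  have hfd : ∀ z ∈ ball (0 : ℂ) (13 / 10),
      fderiv ℝ (fun t => s • (pos φ χ t - a)) z = s • fderiv ℝ (pos φ χ) z := by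
    intro z hz
    have h1 : HasFDerivAt (fun t => s • (pos φ χ t - a)) (s • fderiv ℝ (pos φ χ) z) z :=
      ((hdiffpos z hz).hasFDerivAt.sub_const a).const_smul s
    exact h1.fderiv
  have hsub : closedBall (0 : ℂ) 1 ⊆ ball (0 : ℂ) (13 / 10) :=
    closedBall_subset_ball (by norm_num)
  refine ⟨fun t => s • (pos φ χ t - a), 2 * ε, by positivity, ?_, hImg, ?_, ?_⟩
  · refine ⟨ball 0 (13 / 10), hopen, hsub, ?_, ?_, ?_, fun t => - nor φ t, g2.neg, ?_⟩
    · exact (g1.sub contDiffOn_const).const_smul s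
    · intro z hz
      rw [hfd z hz, injective_iff_map_eq_zero]
      intro v hv
      have h1 : s • (fderiv ℝ (pos φ χ) z v) = 0 := hv
      rcases smul_eq_zero.1 h1 with h2 | h2
      · exact absurd h2 hs0.ne'
      · exact (g3 z hz).2.2.1 v h2
    · intro x hx y hy hxy
      have h1 : s • (pos φ χ x - a) = s • (pos φ χ y - a) := hxy
      have h2 := smul_right_injective _ hs0.ne' h1
      have h3 : pos φ χ x = pos φ χ y := sub_left_injective h2
      exact hinj (closedBall_subset_closedBall (by norm_num) hx)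
        (closedBall_subset_closedBall (by norm_num) hy) h3
    · intro z hz
      obtain ⟨k1, k2, k3, S0, k4, k5⟩ := g3 z hz
      refine ⟨by rw [norm_neg]; exact k1, ?_, (2 * ε) • S0, ?_, ?_⟩
      · intro v
        rw [hfd z hz]
        show inner ℝ (s • (fderiv ℝ (pos φ χ) z v)) (- nor φ z) = 0
        rw [inner_neg_right, real_inner_smul_left, k2 v, mul_zero, neg_zero]
      · intro v
        rw [hfd z hz]
        have h1 : fderiv ℝ (fun t => - nor φ t) z = - fderiv ℝ (nor φ) z := fderiv_fun_neg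
        rw [h1]
        show - (fderiv ℝ (nor φ) z v) = - (s • fderiv ℝ (pos φ χ) z ((2 * ε) • S0 v))
        rw [map_smul, smul_smul, hs1, one_smul, k4 v]
      · have h1 : (((2 * ε) • S0 : ℂ →L[ℝ] ℂ) : ℂ →ₗ[ℝ] ℂ) = (2 * ε) • (S0 : ℂ →ₗ[ℝ] ℂ) := rfl
        rw [h1, map_smul, k5, smul_eq_mul]
        ring
  · intro z hz
    have hz1 : ‖z‖ ≤ 1 := by simpa using hz
    have h1 := hAb z hz1
    have h2 : (s • (pos φ χ z - a)) 2 = s * (X00 φ χ z - X00 φ χ 1) := by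
      rw [ha]
      simp [pos]
    show 0 ≤ (s • (pos φ χ z - a)) 2
    rw [h2]
    exact mul_nonneg hs0.le (by linarith)
  · unfold volume
    have h1 : ∫ z in closedBall (0 : ℂ) 1, Matrix.det (Matrix.of
        ![((s • (pos φ χ z - a) : EuclideanSpace ℝ (Fin 3)) : Fin 3 → ℝ),
          (fderiv ℝ (fun t => s • (pos φ χ t - a)) z 1 : Fin 3 → ℝ),
          (fderiv ℝ (fun t => s • (pos φ χ t - a)) z Complex.I : Fin 3 → ℝ)]) =
        s ^ 3 * ∫ t in closedBall (0 : ℂ) 1, Matrix.det (Matrix.of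
      ![((pos φ χ t - a : EuclideanSpace ℝ (Fin 3)) : Fin 3 → ℝ),
        (fderiv ℝ (pos φ χ) t 1 : Fin 3 → ℝ), (fderiv ℝ (pos φ χ) t Complex.I : Fin 3 → ℝ)]) := by
      rw [← MeasureTheory.integral_const_mul]
      refine MeasureTheory.setIntegral_congr_fun measurableSet_closedBall ?_
      intro z hz
      simp only
      apply aux_det_scale
      · intro i
        rfl
      · intro i
        rw [hfd z (hsub hz)]
        rfl
      · intro i
        rw [hfd z (hsub hz)]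
        rfl
    rw [h1]
    refine le_trans ?_ (le_abs_self _)
    have h2 : s ^ 3 * c0 ≤ s ^ 3 * ∫ t in closedBall (0 : ℂ) 1, Matrix.det (Matrix.of
      ![((pos φ χ t - a : EuclideanSpace ℝ (Fin 3)) : Fin 3 → ℝ),
        (fderiv ℝ (pos φ χ) t 1 : Fin 3 → ℝ), (fderiv ℝ (pos φ χ) t Complex.I : Fin 3 → ℝ)]) :=
      mul_le_mul_of_nonneg_left hVol (by positivity)
    have h3 : c0 / 24 / ε ^ 3 = 1 / 3 * (s ^ 3 * c0) := by
      rw [hs]
      field_simp
      norm_num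
    rw [h3]
    linarith

end Pool.Agent.Helper87.VT.P2
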