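import Mathlib
import Pool.Agent.Helper87.VT.Defs
import Pool.Agent.Helper676.VT.J10

set_option autoImplicit false

open Set Metric Matrix
open scoped ContDiff ComplexConjugate

namespace Pool.Agent.Helper87.VT.P2

/-- Final step: from the solutions of the boundary problem (part01) and the geometry (geo_main). -/
theorem final_of_part01
    (h01 : ∃ C : ℝ, 1 ≤ C ∧ ∀ η : ℝ, 0 < η → ∃ r : ℝ, 0 < r ∧ ∀ ε δ : ℝ, 0 < ε → ε < r →
      0 < δ → δ < r → ∃ (κ h : ℂ → ℂ) (φ χ : ℂ → Matrix (Fin 2) (Fin 2) ℂ) (m0 m1 : ℂ → ℝ)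
        (η' : ℝ), η' ≤ C * η ∧ Frame ε η' κ h φ χ m0 m1 ∧ BC ε δ φ χ) :
    ∃ δ₀ : ℝ, 0 < δ₀ ∧ δ₀ ≤ 1 / 2 ∧ ∀ δ : ℝ, 0 < δ → δ < δ₀ → ∀ V_C : ℝ,
      ∃ (Ψ : ℂ → EuclideanSpace ℝ (Fin 3)) (H : ℝ), H ≠ 0 ∧ IsEmbeddedCmcDisc Ψ H ∧
        Ψ '' (sphere (0 : ℂ) 1) =
          {x | x 2 = 0 ∧ (1 - δ) * x 0 ^ 2 + (1 + δ) * x 1 ^ 2 = 1} ∧
        (∀ z ∈ closedBall (0 : ℂ) 1, 0 ≤ Ψ z 2) ∧ V_C < volume Ψ := by
  obtain ⟨η0, c, hη0, hc, hgeo⟩ := geo_main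
  obtain ⟨C, hC, h01⟩ := h01
  have hC0 : 0 < C := by linarith
  obtain ⟨r, hr, h01⟩ := h01 (η0 / (2 * C)) (by positivity)
  refine ⟨min r (1 / 2), by positivity, min_le_right _ _, ?_⟩
  intro δ hδ hδr V_C
  have hδ1 : δ < r := lt_of_lt_of_le hδr (min_le_left _ _)
  have hδ2 : δ < 1 / 2 := lt_of_lt_of_le hδr (min_le_right _ _)
  -- choose ε
  obtain ⟨ε, hε, hεr, hεη, hεV⟩ : ∃ ε : ℝ, 0 < ε ∧ ε < r ∧ ε < η0 ∧ V_C < c / ε ^ 3 := by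
    set D : ℝ := min (min (r / 2) (η0 / 2)) (min 1 (c / (|V_C| + 1))) with hD
    have hVp : 0 < |V_C| + 1 := by positivity
    have hDpos : 0 < D := by positivity
    have h1 : D ≤ r / 2 := (min_le_left _ _).trans (min_le_left _ _)
    have h2 : D ≤ η0 / 2 := (min_le_left _ _).trans (min_le_right _ _)
    have h3 : D ≤ 1 := (min_le_right _ _).trans (min_le_left _ _)
    have h4 : D ≤ c / (|V_C| + 1) := (min_le_right _ _).trans (min_le_right _ _)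
    refine ⟨D, hDpos, by linarith, by linarith, ?_⟩
    have h5 : D ^ 3 ≤ D := by
      have : D ^ 2 ≤ 1 := by nlinarith
      nlinarith
    have h6 : |V_C| + 1 ≤ c / D ^ 3 := by
      rw [le_div_iff₀ (by positivity)]
      calc (|V_C| + 1) * D ^ 3 ≤ (|V_C| + 1) * D := by
            exact mul_le_mul_of_nonneg_left h5 hVp.le
        _ ≤ (|V_C| + 1) * (c / (|V_C| + 1)) := mul_le_mul_of_nonneg_left h4 hVp.le
        _ = c := by field_simp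
    have h7 := le_abs_self V_C
    linarith
  obtain ⟨κ, h, φ, χ, m0, m1, η', hη', hF, hB⟩ := h01 ε δ hε hεr hδ hδ1
  have hη'' : η' < η0 := by
    have : C * (η0 / (2 * C)) = η0 / 2 := by field_simp
    rw [this] at hη'
    linarith
  obtain ⟨Ψ, H, hH, hemb, hbd, hab, hvol⟩ :=
    hgeo ε η' δ κ h φ χ m0 m1 hεη hη'' hδ hδ2 hF hB
  exact ⟨Ψ, H, hH, hemb, hbd, hab, lt_of_lt_of_le hεV hvol⟩

end Pool.Agent.Helper87.VT.P2
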